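import Mathlib.Tactic.Monotonicity.Lemmas
import Mathlib.RingTheory.Flat.TorsionFree
import Mathlib.Algebra.Order.Ring.Star
import Mathlib.Algebra.Order.Archimedean.Real.Hom
import Mathlib.Algebra.Order.Star.Real
import Mathlib.Analysis.CStarAlgebra.Classes
import Mathlib.Analysis.Complex.Isometry
import Mathlib.Combinatorics.SimpleGraph.Basic
import Mathlib.Analysis.Real.Pi.Bounds
import Mathlib.MeasureTheory.Measure.Lebesgue.VolumeOfBalls
import Mathlib.Order.CompletePartialOrder
import Mathlib.RingTheory.TotallySplit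
import Mathlib.RingTheory.Etale.Weakly

-- ======== part 0: formerly Pool.Agent.MP_2616de_co.Area
section MrgPart0

set_option maxSynthPendingDepth 3

namespace Pool.Agent.MP_2616de_co

open MeasureTheory Set Metric

/-- cross product of two plane vectors -/
def cr (a b : ℂ) : ℝ := a.re * b.im - a.im * b.re

/-- open triangle with positively oriented vertices -/
def tri (a b c : ℂ) : Set ℂ :=
  {x | 0 < cr (a - x) (b - x) ∧ 0 < cr (b - x) (c - x) ∧ 0 < cr (c - x) (a - x)}

lemma continuous_cr {X : Type*} [TopologicalSpace X] {f g : X → ℂ} (hf : Continuous f)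
    (hg : Continuous g) : Continuous fun x => cr (f x) (g x) := by
  unfold cr
  fun_prop

lemma isOpen_tri (a b c : ℂ) : IsOpen (tri a b c) := by
  refine IsOpen.inter (isOpen_lt continuous_const (continuous_cr (by fun_prop) (by fun_prop)))
    (IsOpen.inter (isOpen_lt continuous_const (continuous_cr (by fun_prop) (by fun_prop)))
      (isOpen_lt continuous_const (continuous_cr (by fun_prop) (by fun_prop))))

lemma measurableSet_tri (a b c : ℂ) : MeasurableSet (tri a b c) := (isOpen_tri a b c).measurableSet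

lemma vol_std : volume {z : ℂ | 0 < z.re ∧ 0 < z.im ∧ z.re + z.im < 1} = ENNReal.ofReal (1 / 2) := by
  have h1 : {z : ℂ | 0 < z.re ∧ 0 < z.im ∧ z.re + z.im < 1} =
      Complex.measurableEquivRealProd ⁻¹'
        (regionBetween (fun _ : ℝ => (0 : ℝ)) (fun x => 1 - x) (Ioo 0 1)) := by
    ext z
    simp only [regionBetween, mem_ofPred_eq, mem_preimage, mem_Ioo,
      Complex.measurableEquivRealProd_apply]
    constructor
    · rintro ⟨h1, h2, h3⟩
      exact ⟨⟨h1, by linarith⟩, h2, by linarith⟩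
    · rintro ⟨⟨h1, _⟩, h2, h3⟩
      exact ⟨h1, h2, by linarith⟩
  rw [h1, Complex.volume_preserving_equiv_real_prod.measure_preimage_equiv]
  have hi : IntegrableOn (fun x : ℝ => 1 - x) (Ioo 0 1) volume :=
    ((continuous_const.sub continuous_id).integrableOn_Icc (a := (0 : ℝ)) (b := 1)).mono_set
      Ioo_subset_Icc_self
  have := volume_regionBetween_eq_integral (μ := (volume : Measure ℝ))
    (f := fun _ : ℝ => (0 : ℝ)) (g := fun x => 1 - x) (s := Ioo 0 1) (by simp) hi measurableSet_Ioo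
    (fun x hx => by linarith [hx.2])
  rw [Measure.volume_eq_prod, this]
  congr 1
  simp only [Pi.sub_apply, sub_zero]
  rw [← integral_Ioc_eq_integral_Ioo, ← intervalIntegral.integral_of_le zero_le_one,
    intervalIntegral.integral_sub (by simp) (by simp)]
  simp
  norm_num

/-- the real linear map sending 1 to u and I to v -/
noncomputable def lin (u v : ℂ) : ℂ →ₗ[ℝ] ℂ where
  toFun z := (z.re : ℂ) * u + (z.im : ℂ) * v
  map_add' x y := by simp; ring
  map_smul' r x := by simp; ring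

lemma det_lin (u v : ℂ) : LinearMap.det (lin u v) = cr u v := by
  rw [← LinearMap.det_toMatrix Complex.basisOneI, Matrix.det_fin_two]
  simp [LinearMap.toMatrix_apply, lin, cr]
  ring

lemma vol_tri (a b c : ℂ) (h : 0 < cr (b - a) (c - a)) :
    volume (tri a b c) = ENNReal.ofReal (cr (b - a) (c - a) / 2) := by
  have h1 : tri a b c = (fun z => a + z) ''
      (lin (b - a) (c - a) '' {z : ℂ | 0 < z.re ∧ 0 < z.im ∧ z.re + z.im < 1}) := by
    ext x
    simp only [tri, mem_ofPred_eq, mem_image, exists_exists_and_eq_and]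
    constructor
    · rintro ⟨h1, h2, h3⟩
      refine ⟨⟨cr (c - x) (a - x) / cr (b - a) (c - a), cr (a - x) (b - x) / cr (b - a) (c - a)⟩,
        ⟨by positivity, by positivity, ?_⟩, ?_⟩
      · rw [← add_div, div_lt_one h]
        have : cr (b - a) (c - a) = cr (a - x) (b - x) + cr (b - x) (c - x) + cr (c - x) (a - x) := by
          simp [cr]; ring
        linarith
      · have h0 := h.ne'
        apply Complex.ext
        · simp [lin]
          field_simp
          simp [cr]; ring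
        · simp [lin]
          field_simp
          simp [cr]; ring
    · rintro ⟨z, ⟨h1, h2, h3⟩, rfl⟩
      refine ⟨?_, ?_, ?_⟩
      · have : cr (a - (a + lin (b - a) (c - a) z)) (b - (a + lin (b - a) (c - a) z)) =
            z.im * cr (b - a) (c - a) := by simp [cr, lin]; ring
        rw [this]; positivity
      · have : cr (b - (a + lin (b - a) (c - a) z)) (c - (a + lin (b - a) (c - a) z)) =
            (1 - z.re - z.im) * cr (b - a) (c - a) := by simp [cr, lin]; ring
        rw [this]; apply mul_pos (by linarith) h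
      · have : cr (c - (a + lin (b - a) (c - a) z)) (a - (a + lin (b - a) (c - a) z)) =
            z.re * cr (b - a) (c - a) := by simp [cr, lin]; ring
        rw [this]; positivity
  rw [h1, image_add_left, measure_preimage_add, Measure.addHaar_image_linearMap, det_lin, vol_std,
    abs_of_pos h, ← ENNReal.ofReal_mul h.le]
  congr 1; ring

/-- a point of an open triangle is a convex combination of the vertices -/
lemma tri_subset_of_convex {a b c : ℂ} {s : Set ℂ} (hs : Convex ℝ s) (ha : a ∈ s) (hb : b ∈ s)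
    (hc : c ∈ s) : tri a b c ⊆ s := by
  rintro x ⟨h1, h2, h3⟩
  set D := cr (a - x) (b - x) + cr (b - x) (c - x) + cr (c - x) (a - x) with hD
  have hD0 : 0 < D := by positivity
  have key : x = (cr (b - x) (c - x) / D) • a + (cr (c - x) (a - x) / D) • b +
      (cr (a - x) (b - x) / D) • c := by
    have h0 := hD0.ne'
    apply Complex.ext
    · simp
      field_simp
      simp [hD, cr]; ring
    · simp
      field_simp
      simp [hD, cr]; ring
  have hsum : cr (b - x) (c - x) / D + cr (c - x) (a - x) / D + cr (a - x) (b - x) / D = 1 := by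
    field_simp
    rw [hD]; ring
  rw [key]
  have := hs.sum_mem (t := Finset.univ) (w := ![cr (b - x) (c - x) / D, cr (c - x) (a - x) / D,
    cr (a - x) (b - x) / D]) (z := ![a, b, c])
    (fun i _ => by fin_cases i <;> simp <;> positivity) (by simpa [Fin.sum_univ_three] using hsum)
    (fun i _ => by fin_cases i <;> simpa)
  simpa [Fin.sum_univ_three] using this

/-- a line has measure zero -/
lemma vol_line (a b : ℂ) (h : a ≠ b) : volume {x : ℂ | cr (a - x) (b - x) = 0} = 0 := by
  have h1 : {x : ℂ | cr (a - x) (b - x) = 0} ⊆ (fun z => a + z) ''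
      ((Submodule.span ℝ {b - a} : Submodule ℝ ℂ) : Set ℂ) := by
    intro x hx
    simp only [mem_ofPred_eq] at hx
    refine ⟨x - a, ?_, by ring⟩
    have hn : Complex.normSq (b - a) ≠ 0 := by
      rw [Ne, Complex.normSq_eq_zero]; exact sub_ne_zero.2 h.symm
    rw [SetLike.mem_coe, Submodule.mem_span_singleton]
    refine ⟨((x - a).re * (b - a).re + (x - a).im * (b - a).im) / Complex.normSq (b - a), ?_⟩
    simp only [cr, Complex.sub_re, Complex.sub_im] at hx
    apply Complex.ext
    · simp only [Complex.smul_re, smul_eq_mul]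
      field_simp
      simp only [Complex.normSq_apply, Complex.sub_re, Complex.sub_im]
      linear_combination (b.im - a.im) * hx
    · simp only [Complex.smul_im, smul_eq_mul]
      field_simp
      simp only [Complex.normSq_apply, Complex.sub_re, Complex.sub_im]
      linear_combination (a.re - b.re) * hx
  refine measure_mono_null h1 ?_
  rw [image_add_left, measure_preimage_add]
  apply Measure.addHaar_submodule
  intro htop
  have h2 : Module.finrank ℝ (Submodule.span ℝ {b - a} : Submodule ℝ ℂ) = 1 :=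
    finrank_span_singleton (sub_ne_zero.2 h.symm)
  rw [htop, finrank_top, Complex.finrank_real_complex] at h2
  omega

/-- area of a circular sector -/
lemma vol_sector (r α : ℝ) (hr : 0 ≤ r) (h1 : α ≤ Real.pi) :
    volume {z : ℂ | ‖z‖ < r ∧ 0 < z.arg ∧ z.arg < α} = ENNReal.ofReal (r ^ 2 * α / 2) := by
  set S := {z : ℂ | ‖z‖ < r ∧ 0 < z.arg ∧ z.arg < α} with hS
  have hm : MeasurableSet S := by
    refine (measurableSet_lt measurable_norm measurable_const).inter
      ((measurableSet_lt measurable_const Complex.measurable_arg).inter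
        (measurableSet_lt Complex.measurable_arg measurable_const))
  rw [← lintegral_indicator_one hm, ← Complex.lintegral_comp_polarCoord_symm]
  have hT : MeasurableSet polarCoord.target := polarCoord.open_target.measurableSet
  have h2 : ∀ p ∈ polarCoord.target, ENNReal.ofReal p.1 • S.indicator (1 : ℂ → ENNReal)
      (Complex.polarCoord.symm p) = (Ioo 0 r ×ˢ Ioo 0 α).indicator
        (fun p : ℝ × ℝ => ENNReal.ofReal p.1) p := by
    intro p hp
    have hp' : p ∈ Complex.polarCoord.target := hp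
    have h3 := Complex.polarCoord.right_inv hp'
    rw [Complex.polarCoord_apply] at h3
    have h4 : ‖Complex.polarCoord.symm p‖ = p.1 := congrArg Prod.fst h3
    have h5 : (Complex.polarCoord.symm p).arg = p.2 := congrArg Prod.snd h3
    have h6 : 0 < p.1 := hp.1
    by_cases hq : p ∈ Ioo 0 r ×ˢ Ioo 0 α
    · rw [indicator_of_mem hq, indicator_of_mem]
      · simp
      · simp only [hS, mem_ofPred_eq, h4, h5]
        exact ⟨hq.1.2, hq.2.1, hq.2.2⟩
    · rw [indicator_of_notMem hq, indicator_of_notMem]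
      · simp
      · simp only [hS, mem_ofPred_eq, h4, h5]
        intro h
        exact hq ⟨⟨h6, h.1⟩, h.2.1, h.2.2⟩
  rw [setLIntegral_congr_fun hT h2, lintegral_indicator (measurableSet_Ioo.prod measurableSet_Ioo),
    Measure.restrict_restrict (measurableSet_Ioo.prod measurableSet_Ioo), inter_eq_left.2]
  · rw [Measure.volume_eq_prod, ← Measure.prod_restrict,
      lintegral_prod _ (by fun_prop)]
    simp only [lintegral_const, MeasurableSet.univ, Measure.restrict_apply, univ_inter,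
      Real.volume_Ioo, sub_zero]
    rw [lintegral_mul_const _ (by fun_prop), ← ofReal_integral_eq_lintegral_ofReal]
    · rw [← integral_Ioc_eq_integral_Ioo, ← intervalIntegral.integral_of_le hr, integral_id,
        ← ENNReal.ofReal_mul (by nlinarith)]
      congr 1; ring
    · exact (continuous_id.integrableOn_Icc (a := (0 : ℝ)) (b := r)).mono_set Ioo_subset_Icc_self
    · exact (ae_restrict_iff' measurableSet_Ioo).2 (Filter.Eventually.of_forall fun x hx => hx.1.le)
  · rintro ⟨x, y⟩ ⟨⟨hx, _⟩, hy, hy'⟩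
    exact ⟨hx, by linarith [Real.pi_pos], lt_of_lt_of_le hy' h1⟩

lemma mp_rot (p u : ℂ) (hu : ‖u‖ = 1) :
    MeasurePreserving (fun z : ℂ => (z - p) / u) volume volume := by
  have hu0 : u ≠ 0 := by rintro rfl; simp at hu
  have h1 : MeasurePreserving (fun z : ℂ => z - p) volume volume := measurePreserving_sub_right _ p
  have hmem : u⁻¹ ∈ Submonoid.unitSphere ℂ := by
    simp [Submonoid.unitSphere, hu]
  have h2 := (rotation (⟨u⁻¹, hmem⟩ : Circle)).measurePreserving
  have h3 := h2.comp h1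
  have h4 : (fun z : ℂ => (z - p) / u) =
      ⇑(rotation (⟨u⁻¹, hmem⟩ : Circle)) ∘ fun z : ℂ => z - p := by
    funext z
    rw [Function.comp_apply, rotation_apply, div_eq_mul_inv, mul_comm]
  rw [h4]; exact h3

end Pool.Agent.MP_2616de_co

end MrgPart0

-- ======== part 1: formerly Pool.Agent.MP_2616de_co.Cell
section MrgPart1

set_option maxSynthPendingDepth 3

namespace Pool.Agent.MP_2616de_co

open MeasureTheory Set Metric Real

noncomputable def rho : ℝ := √3 / 3

noncomputable def kap : ℝ := √3 / 2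

lemma sqrt3_sq : √3 * √3 = 3 := Real.mul_self_sqrt (by norm_num)

lemma sqrt3_gt : 1.732 < √3 := by
  rw [Real.lt_sqrt (by norm_num)]; norm_num

lemma sqrt3_lt : √3 < 1.7321 := by
  rw [Real.sqrt_lt' (by norm_num)]; norm_num

lemma rho_pos : 0 < rho := by unfold rho; linarith [sqrt3_gt]

lemma rho_sq : rho ^ 2 = 1 / 3 := by unfold rho; nlinarith [sqrt3_sq]

lemma rho_lt : rho < 0.58 := by unfold rho; linarith [sqrt3_lt]

lemma rho_gt : 0.577 < rho := by unfold rho; linarith [sqrt3_gt]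

lemma kap_gt : 0.866 < kap := by unfold kap; linarith [sqrt3_gt]

lemma kap_lt : kap < 0.867 := by unfold kap; linarith [sqrt3_lt]

lemma norm_sq_eq (z : ℂ) : ‖z‖ ^ 2 = z.re ^ 2 + z.im ^ 2 := by
  rw [Complex.sq_norm, Complex.normSq_apply]; ring

/-- a set of points with mutual distances at least one -/
def Sep (P : Set ℂ) : Prop := ∀ p ∈ P, ∀ q ∈ P, p ≠ q → 1 ≤ ‖p - q‖

lemma Sep.eq_of_lt {P : Set ℂ} (hP : Sep P) {p q : ℂ} (hp : p ∈ P) (hq : q ∈ P)
    (h : ‖p - q‖ < 1) : p = q := by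
  by_contra hne
  linarith [hP p hp q hq hne]

lemma Sep.finite_ball {P : Set ℂ} (hP : Sep P) (c : ℂ) (r : ℝ) : (P ∩ ball c r).Finite := by
  have h1 : TotallyBounded (ball c r) :=
    (isCompact_closedBall c r).totallyBounded.subset ball_subset_closedBall
  obtain ⟨t, ht, hcov⟩ := Metric.totallyBounded_iff.1 h1 (1 / 2) (by norm_num)
  refine (ht.biUnion (t := fun y => P ∩ ball y (1 / 2)) fun y _ => ?_).subset ?_
  · apply Set.Subsingleton.finite
    rintro p ⟨hp, hp'⟩ q ⟨hq, hq'⟩
    apply hP.eq_of_lt hp hq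
    rw [← dist_eq_norm]
    have := dist_triangle_right p q y
    rw [mem_ball] at hp' hq'
    linarith
  · rintro x ⟨hx, hx'⟩
    have := hcov hx'
    simp only [mem_iUnion] at this ⊢
    obtain ⟨y, hy, hxy⟩ := this
    exact ⟨y, hy, hx, hxy⟩

/-- the truncated open Voronoi cell -/
def cell (P : Set ℂ) (p : ℂ) : Set ℂ :=
  {x | ‖x - p‖ < rho ∧ ∀ q ∈ P, q ≠ p → ‖x - p‖ < ‖x - q‖}

lemma cell_subset_ball (P : Set ℂ) (p : ℂ) : cell P p ⊆ ball p rho := fun x hx => by
  rw [mem_ball, dist_eq_norm]; exact hx.1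

lemma cell_disjoint {P : Set ℂ} {p q : ℂ} (hp : p ∈ P) (hq : q ∈ P) (h : p ≠ q) :
    Disjoint (cell P p) (cell P q) := by
  rw [Set.disjoint_left]
  intro x h1 h2
  linarith [h1.2 q hq h.symm, h2.2 p hp h]

lemma convex_cell (P : Set ℂ) (p : ℂ) : Convex ℝ (cell P p) := by
  have h1 : cell P p = ball p rho ∩ ⋂ q ∈ {q | q ∈ P ∧ q ≠ p}, {x : ℂ |
      2 * (x.re * (q.re - p.re) + x.im * (q.im - p.im)) <
        q.re ^ 2 + q.im ^ 2 - p.re ^ 2 - p.im ^ 2} := by
    ext x
    simp only [cell, mem_ofPred_eq, mem_inter_iff, mem_ball, dist_eq_norm, mem_iInter, and_imp]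
    refine and_congr_right fun _ => forall_congr' fun q => forall_congr' fun _ =>
      forall_congr' fun _ => ?_
    rw [← sq_lt_sq₀ (norm_nonneg _) (norm_nonneg _), norm_sq_eq, norm_sq_eq]
    simp only [Complex.sub_re, Complex.sub_im]
    constructor <;> intro h <;> nlinarith
  rw [h1]
  refine (convex_ball _ _).inter (convex_iInter₂ fun q _ => convex_halfSpace_lt ?_ _)
  constructor
  · intro x y; simp; ring
  · intro c x; simp; ring

lemma near_finite {P : Set ℂ} (hP : Sep P) (p : ℂ) :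
    {q | q ∈ P ∧ q ≠ p ∧ ‖q - p‖ < 2 * rho}.Finite :=
  (hP.finite_ball p (2 * rho)).subset
    (fun q hq => ⟨hq.1, by rw [mem_ball, dist_eq_norm]; exact hq.2.2⟩)

/-- the points of P close enough to cut the disc around p -/
noncomputable def near {P : Set ℂ} (hP : Sep P) (p : ℂ) : Finset ℂ := (near_finite hP p).toFinset

lemma mem_near {P : Set ℂ} (hP : Sep P) {p q : ℂ} :
    q ∈ near hP p ↔ q ∈ P ∧ q ≠ p ∧ ‖q - p‖ < 2 * rho := by
  rw [near, Set.Finite.mem_toFinset]; rfl

lemma isOpen_cell {P : Set ℂ} (hP : Sep P) (p : ℂ) : IsOpen (cell P p) := by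
  have h1 : cell P p = ball p rho ∩ ⋂ q ∈ near hP p, {x : ℂ | ‖x - p‖ < ‖x - q‖} := by
    ext x
    simp only [cell, mem_ofPred_eq, mem_inter_iff, mem_ball, dist_eq_norm, mem_iInter, mem_near]
    refine and_congr_right fun hx => ⟨fun h q hq => h q hq.1 hq.2.1, fun h q hq hne => ?_⟩
    by_cases hq' : ‖q - p‖ < 2 * rho
    · exact h q ⟨hq, hne, hq'⟩
    · have : ‖q - p‖ ≤ ‖x - p‖ + ‖x - q‖ := by
        calc ‖q - p‖ = ‖(x - p) - (x - q)‖ := by congr 1; ring
          _ ≤ _ := norm_sub_le _ _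
      linarith [not_lt.1 hq']
  rw [h1]
  exact isOpen_ball.inter (isOpen_biInter_finset fun q _ => isOpen_lt (by fun_prop) (by fun_prop))

lemma measurableSet_cell {P : Set ℂ} (hP : Sep P) (p : ℂ) : MeasurableSet (cell P p) :=
  (isOpen_cell hP p).measurableSet

/-- half cone in standard position -/
def K (e α : ℝ) : Set ℂ := {z | ‖z‖ < rho ∧ 0 < e * z.im ∧ e * z.im * cos α < z.re * sin α}

/-- half triangle in standard position -/
def Tr (e α : ℝ) : Set ℂ :=
  {z | 0 < e * z.im ∧ e * z.im * cos α < z.re * sin α ∧ z.re < rho * cos α}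

lemma isOpen_K (e α : ℝ) : IsOpen (K e α) := by
  unfold K
  refine IsOpen.and ?_ (IsOpen.and ?_ ?_) <;> exact isOpen_lt (by fun_prop) (by fun_prop)

lemma isOpen_Tr (e α : ℝ) : IsOpen (Tr e α) := by
  unfold Tr
  refine IsOpen.and ?_ (IsOpen.and ?_ ?_) <;> exact isOpen_lt (by fun_prop) (by fun_prop)

lemma convex_K (e α : ℝ) : Convex ℝ (K e α) := by
  have h1 : K e α = ball 0 rho ∩ ({z : ℂ | -(e * z.im) < 0} ∩
      {z : ℂ | e * z.im * cos α - z.re * sin α < 0}) := by
    ext z; simp [K]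
  rw [h1]
  refine (convex_ball _ _).inter ((convex_halfSpace_lt ?_ _).inter (convex_halfSpace_lt ?_ _))
  · constructor
    · intro x y; simp; ring
    · intro c x; simp; ring
  · constructor
    · intro x y; simp; ring
    · intro c x; simp; ring

lemma Tr_subset_K {e α : ℝ} (he : e ^ 2 = 1) (h0 : 0 < α) (h1 : α < π / 2) : Tr e α ⊆ K e α := by
  rintro z ⟨h2, h3, h4⟩
  refine ⟨?_, h2, h3⟩
  have hc : 0 < cos α := cos_pos_of_mem_Ioo ⟨by linarith, h1⟩
  have hs : 0 < sin α := sin_pos_of_pos_of_lt_pi h0 (by linarith [pi_pos])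
  have hre : 0 < z.re := by
    by_contra h
    have : z.re * sin α ≤ 0 := mul_nonpos_of_nonpos_of_nonneg (not_lt.1 h) hs.le
    nlinarith [mul_pos h2 hc]
  have h5 : e * z.im < rho * sin α := by
    have : e * z.im * cos α < rho * sin α * cos α := by nlinarith
    exact lt_of_mul_lt_mul_right this hc.le
  rw [← sq_lt_sq₀ (norm_nonneg _) rho_pos.le, norm_sq_eq]
  have h6 : z.im ^ 2 = (e * z.im) ^ 2 := by rw [mul_pow, he, one_mul]
  have h7 : z.re ^ 2 < (rho * cos α) ^ 2 := by
    apply pow_lt_pow_left₀ h4 hre.le two_ne_zero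
  have h8 : (e * z.im) ^ 2 < (rho * sin α) ^ 2 := by
    apply pow_lt_pow_left₀ h5 h2.le two_ne_zero
  nlinarith [sin_sq_add_cos_sq α]

lemma vol_K_one {α : ℝ} (h0 : 0 < α) (h1 : α < π / 2) :
    volume (K 1 α) = ENNReal.ofReal (rho ^ 2 * α / 2) := by
  rw [← vol_sector rho α rho_pos.le (by linarith [pi_pos])]
  congr 1
  ext z
  simp only [K, mem_ofPred_eq, one_mul]
  refine and_congr_right fun _ => ?_
  have hc : 0 < cos α := cos_pos_of_mem_Ioo ⟨by linarith, h1⟩
  have hs : 0 < sin α := sin_pos_of_pos_of_lt_pi h0 (by linarith [pi_pos])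
  have hre := Complex.norm_mul_cos_arg z
  have him := Complex.norm_mul_sin_arg z
  have hsub : ‖z‖ * sin (α - z.arg) = z.re * sin α - z.im * cos α := by
    rw [sin_sub, ← hre, ← him]; ring
  constructor
  · rintro ⟨h2, h3⟩
    have hz : z ≠ 0 := by rintro rfl; simp at h2
    have hn : 0 < ‖z‖ := norm_pos_iff.2 hz
    have ha : 0 < z.arg := by
      rcases (Complex.arg_nonneg_iff.2 h2.le).lt_or_eq with h | h
      · exact h
      · rw [← h] at him; simp at him; linarith
    refine ⟨ha, ?_⟩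
    by_contra h
    have h4 : sin (α - z.arg) ≤ 0 :=
      sin_nonpos_of_nonpos_of_neg_pi_le (by linarith) (by linarith [Complex.arg_le_pi z])
    nlinarith [mul_nonneg hn.le (neg_nonneg.2 h4)]
  · rintro ⟨h2, h3⟩
    have hz : z ≠ 0 := by rintro rfl; simp at h2
    have hn : 0 < ‖z‖ := norm_pos_iff.2 hz
    refine ⟨?_, ?_⟩
    · rw [← him]; exact mul_pos hn (sin_pos_of_pos_of_lt_pi h2 (by linarith [pi_pos]))
    · have : 0 < sin (α - z.arg) := sin_pos_of_pos_of_lt_pi (by linarith) (by linarith [pi_pos])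
      nlinarith [mul_pos hn this]

lemma vol_Tr_one {α : ℝ} (h0 : 0 < α) (h1 : α < π / 2) :
    volume (Tr 1 α) = ENNReal.ofReal (rho ^ 2 * (sin α * cos α) / 2) := by
  have hc : 0 < cos α := cos_pos_of_mem_Ioo ⟨by linarith, h1⟩
  have hs : 0 < sin α := sin_pos_of_pos_of_lt_pi h0 (by linarith [pi_pos])
  have hr := rho_pos
  have h2 : Tr 1 α = tri 0 ⟨rho * cos α, 0⟩ ⟨rho * cos α, rho * sin α⟩ := by
    ext z
    simp only [Tr, tri, cr, mem_ofPred_eq, one_mul, Complex.sub_re, Complex.sub_im,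
      Complex.zero_re, Complex.zero_im]
    have e1 : (0 - z.re) * (0 - z.im) - (0 - z.im) * (rho * cos α - z.re) =
      z.im * (rho * cos α) := by ring
    have e2 : (rho * cos α - z.re) * (rho * sin α - z.im) - (0 - z.im) * (rho * cos α - z.re) =
      (rho * cos α - z.re) * (rho * sin α) := by ring
    have e3 : (rho * cos α - z.re) * (0 - z.im) - (rho * sin α - z.im) * (0 - z.re) =
      (z.re * sin α - z.im * cos α) * rho := by ring
    rw [e1, e2, e3, mul_pos_iff_of_pos_right (by positivity),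
      mul_pos_iff_of_pos_right (by positivity), mul_pos_iff_of_pos_right hr, sub_pos, sub_pos]
    tauto
  rw [h2, vol_tri]
  · congr 1; simp [cr]; ring
  · simp [cr]; positivity

lemma vol_conj {s : Set ℂ} (hs : MeasurableSet s) :
    volume ((fun z => (starRingEnd ℂ) z) ⁻¹' s) = volume s :=
  Complex.conjLIE.measurePreserving.measure_preimage hs.nullMeasurableSet

/-- sign attached to a Boolean -/
def sg (b : Bool) : ℝ := if b then 1 else -1

lemma sg_sq (b : Bool) : sg b ^ 2 = 1 := by cases b <;> simp [sg]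

lemma vol_K (b : Bool) {α : ℝ} (h0 : 0 < α) (h1 : α < π / 2) :
    volume (K (sg b) α) = ENNReal.ofReal (rho ^ 2 * α / 2) := by
  cases b
  · rw [← vol_K_one h0 h1, ← vol_conj (isOpen_K 1 α).measurableSet]
    congr 1; ext z; simp [K, sg]
  · exact vol_K_one h0 h1

lemma vol_Tr (b : Bool) {α : ℝ} (h0 : 0 < α) (h1 : α < π / 2) :
    volume (Tr (sg b) α) = ENNReal.ofReal (rho ^ 2 * (sin α * cos α) / 2) := by
  cases b
  · rw [← vol_Tr_one h0 h1, ← vol_conj (isOpen_Tr 1 α).measurableSet]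
    congr 1; ext z; simp [Tr, sg]
  · exact vol_Tr_one h0 h1

/-- no point of the circle of radius rho is within rho of two further points -/
lemma three_point {A B e : ℂ} (hA : 1 ≤ ‖A‖) (hB : 1 ≤ ‖B‖) (hAB : 1 ≤ ‖A - B‖) (he : ‖e‖ = 1)
    (h1 : ‖A‖ ^ 2 < 2 * rho * (e.re * A.re + e.im * A.im))
    (h2 : ‖B‖ ^ 2 < 2 * rho * (e.re * B.re + e.im * B.im)) : False := by
  have hA2 : 1 ≤ ‖A‖ ^ 2 := by nlinarith
  have hB2 : 1 ≤ ‖B‖ ^ 2 := by nlinarith
  have hAB2 : 1 ≤ ‖A - B‖ ^ 2 := by nlinarith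
  have he2 : ‖e‖ ^ 2 = 1 := by rw [he]; norm_num
  rw [norm_sq_eq] at *
  simp only [Complex.sub_re, Complex.sub_im] at hAB2
  have hr := rho_sq
  have h3 : 9 * rho ^ 2 * (e.re ^ 2 + e.im ^ 2) = 3 := by rw [he2, hr]; norm_num
  nlinarith [sq_nonneg (A.re + B.re - 3 * rho * e.re), sq_nonneg (A.im + B.im - 3 * rho * e.im)]

end Pool.Agent.MP_2616de_co

end MrgPart1

-- ======== part 2: formerly Pool.Agent.MP_2616de_co.Cones
section MrgPart2

set_option maxSynthPendingDepth 3
set_option linter.unusedSectionVars false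

namespace Pool.Agent.MP_2616de_co

open MeasureTheory Set Metric Real

/-- unit vector from p to q -/
noncomputable def un (p q : ℂ) : ℂ := (q - p) / (‖q - p‖ : ℝ)

/-- half of the angle under which the cap cut by q is seen from p -/
noncomputable def al (p q : ℂ) : ℝ := arccos (‖q - p‖ / (2 * rho))

def HK (p q : ℂ) (b : Bool) : Set ℂ := (fun x => (x - p) / un p q) ⁻¹' K (sg b) (al p q)

def HT (p q : ℂ) (b : Bool) : Set ℂ := (fun x => (x - p) / un p q) ⁻¹' Tr (sg b) (al p q)

lemma norm_un {p q : ℂ} (h : q ≠ p) : ‖un p q‖ = 1 := by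
  have : ‖q - p‖ ≠ 0 := norm_ne_zero_iff.2 (sub_ne_zero.2 h)
  simp [un, this]

lemma div_un_re {p q : ℂ} (h : q ≠ p) (v : ℂ) :
    (v / un p q).re = (v.re * (q - p).re + v.im * (q - p).im) / ‖q - p‖ := by
  have h1 : ‖q - p‖ ≠ 0 := norm_ne_zero_iff.2 (sub_ne_zero.2 h)
  have h2 := Complex.normSq_eq_norm_sq (q - p)
  rw [un, div_div_eq_mul_div, Complex.div_re, h2]
  simp only [Complex.mul_re, Complex.mul_im, Complex.ofReal_re, Complex.ofReal_im]
  field_simp
  ring

lemma div_un_im {p q : ℂ} (h : q ≠ p) (v : ℂ) :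
    (v / un p q).im = cr (q - p) v / ‖q - p‖ := by
  have h1 : ‖q - p‖ ≠ 0 := norm_ne_zero_iff.2 (sub_ne_zero.2 h)
  have h2 := Complex.normSq_eq_norm_sq (q - p)
  rw [un, div_div_eq_mul_div, Complex.div_im, h2]
  simp only [Complex.mul_re, Complex.mul_im, Complex.ofReal_re, Complex.ofReal_im, cr]
  field_simp
  ring

lemma norm_div_un {p q : ℂ} (h : q ≠ p) (v : ℂ) : ‖v / un p q‖ = ‖v‖ := by
  rw [norm_div, norm_un h, div_one]

section
variable {P : Set ℂ} (hP : Sep P) {p : ℂ} (hp : p ∈ P)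
include hP hp

lemma near_norm {q : ℂ} (hq : q ∈ near hP p) : 1 ≤ ‖q - p‖ :=
  hP q ((mem_near hP).1 hq).1 p hp ((mem_near hP).1 hq).2.1

lemma cos_al {q : ℂ} (hq : q ∈ near hP p) : 2 * rho * cos (al p q) = ‖q - p‖ := by
  have h1 := near_norm hP hp hq
  have h2 := ((mem_near hP).1 hq).2.2
  have hr := rho_pos
  rw [al, cos_arccos]
  · field_simp
  · have : 0 ≤ ‖q - p‖ / (2 * rho) := by positivity
    linarith
  · rw [div_le_one (by positivity)]; exact h2.le

lemma al_pos {q : ℂ} (hq : q ∈ near hP p) : 0 < al p q := by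
  have h2 := ((mem_near hP).1 hq).2.2
  have hr := rho_pos
  rw [al, arccos_pos, div_lt_one (by positivity)]; exact h2

lemma al_le {q : ℂ} (hq : q ∈ near hP p) : al p q ≤ π / 6 := by
  have h1 := near_norm hP hp hq
  have hr := rho_pos
  have h3 : arccos (√3 / 2) = π / 6 := by
    rw [← cos_pi_div_six, arccos_cos (by positivity) (by linarith [pi_pos])]
  rw [← h3, al]
  apply arccos_le_arccos
  rw [le_div_iff₀ (by positivity), rho]
  nlinarith [sqrt3_sq]

lemma al_lt {q : ℂ} (hq : q ∈ near hP p) : al p q < π / 2 := by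
  linarith [al_le hP hp hq, pi_pos]

lemma HK_dir {q : ℂ} (hq : q ∈ near hP p) {b : Bool} {x : ℂ} (hx : x ∈ HK p q b) :
    x ≠ p ∧ ‖q - p‖ ^ 2 * ‖x - p‖ <
      2 * rho * ((x - p).re * (q - p).re + (x - p).im * (q - p).im) := by
  have hne := ((mem_near hP).1 hq).2.1
  have h1 := near_norm hP hp hq
  obtain ⟨_, h3, h4⟩ := hx
  have hxp : x ≠ p := by rintro rfl; simp at h3
  refine ⟨hxp, ?_⟩
  have hc : 0 < cos (al p q) := cos_pos_of_mem_Ioo ⟨by linarith [al_pos hP hp hq, pi_pos],
    al_lt hP hp hq⟩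
  have hs : 0 < sin (al p q) := sin_pos_of_pos_of_lt_pi (al_pos hP hp hq)
    (by linarith [al_lt hP hp hq, pi_pos])
  set z := (x - p) / un p q with hz
  have hzn : ‖z‖ = ‖x - p‖ := norm_div_un hne _
  have hre : 0 < z.re := by
    by_contra h
    have : z.re * sin (al p q) ≤ 0 := mul_nonpos_of_nonpos_of_nonneg (not_lt.1 h) hs.le
    nlinarith [mul_pos h3 hc]
  have h5 : ‖z‖ * cos (al p q) < z.re := by
    rw [← sq_lt_sq₀ (by positivity) hre.le, mul_pow, norm_sq_eq]
    have h6 : z.im ^ 2 = (sg b * z.im) ^ 2 := by rw [mul_pow, sg_sq, one_mul]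
    have h7 : (sg b * z.im * cos (al p q)) ^ 2 < (z.re * sin (al p q)) ^ 2 :=
      pow_lt_pow_left₀ h4 (mul_pos h3 hc).le two_ne_zero
    have h8 := sin_sq_add_cos_sq (al p q)
    rw [h6]
    have : z.re ^ 2 = z.re ^ 2 * (sin (al p q) ^ 2 + cos (al p q) ^ 2) := by rw [h8, mul_one]
    nlinarith
  have h9 := div_un_re hne (x - p)
  rw [← hz, eq_div_iff (by positivity)] at h9
  rw [← h9, ← hzn]
  have h10 := cos_al hP hp hq
  have hr := rho_pos
  calc ‖q - p‖ ^ 2 * ‖z‖ = 2 * rho * ((‖z‖ * cos (al p q)) * ‖q - p‖) := by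
        rw [pow_two]; nth_rewrite 1 [← h10]; ring
    _ < _ := by gcongr

lemma dir_unique {q q' : ℂ} (hq : q ∈ near hP p) (hq' : q' ∈ near hP p) {v : ℂ} (hv : v ≠ 0)
    (h1 : ‖q - p‖ ^ 2 * ‖v‖ < 2 * rho * (v.re * (q - p).re + v.im * (q - p).im))
    (h2 : ‖q' - p‖ ^ 2 * ‖v‖ < 2 * rho * (v.re * (q' - p).re + v.im * (q' - p).im)) : q = q' := by
  by_contra hne
  have hn : 0 < ‖v‖ := norm_pos_iff.2 hv
  refine three_point (A := q - p) (B := q' - p) (e := v / (‖v‖ : ℝ)) (near_norm hP hp hq)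
    (near_norm hP hp hq') ?_ ?_ ?_ ?_
  · simpa using hP q ((mem_near hP).1 hq).1 q' ((mem_near hP).1 hq').1 hne
  · simp [hn.ne']
  · rw [Complex.div_ofReal_re, Complex.div_ofReal_im, ← lt_div_iff₀ hn] at *
    calc _ < _ := h1
      _ = _ := by field_simp
  · rw [Complex.div_ofReal_re, Complex.div_ofReal_im, ← lt_div_iff₀ hn] at *
    calc _ < _ := h2
      _ = _ := by field_simp

lemma HK_disjoint {i j : ℂ × Bool} (hi : i.1 ∈ near hP p) (hj : j.1 ∈ near hP p) (hij : i ≠ j) :
    Disjoint (HK p i.1 i.2) (HK p j.1 j.2) := by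
  rw [Set.disjoint_left]
  intro x h1 h2
  obtain ⟨h3, h4⟩ := HK_dir hP hp hi h1
  obtain ⟨_, h5⟩ := HK_dir hP hp hj h2
  have h6 := dir_unique hP hp hi hj (sub_ne_zero.2 h3) h4 h5
  obtain ⟨q, b⟩ := i
  obtain ⟨q', b'⟩ := j
  simp only at h6 h1 h2
  subst h6
  have hb : b ≠ b' := fun h => hij (by rw [h])
  have h7 := h1.2.1
  have h8 := h2.2.1
  cases b <;> cases b' <;> simp [sg] at hb h7 h8 <;> linarith

/-- a half cone does not meet the ray through a near point -/
lemma HK_not_ray {q q' : ℂ} (hq : q ∈ near hP p) (hq' : q' ∈ near hP p) {b : Bool} {x : ℂ}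
    (hx : x ∈ HK p q b) {t : ℝ} (ht : 0 < t) : x - p ≠ t * (q' - p) := by
  intro h
  obtain ⟨h3, h4⟩ := HK_dir hP hp hq hx
  have h1 := near_norm hP hp hq'
  have h2 := ((mem_near hP).1 hq').2.2
  have h5 : q = q' := by
    refine dir_unique hP hp hq hq' (sub_ne_zero.2 h3) h4 ?_
    rw [h, norm_mul, Complex.norm_real, Real.norm_eq_abs, abs_of_pos ht]
    have : (↑t * (q' - p)).re * (q' - p).re + (↑t * (q' - p)).im * (q' - p).im =
        t * ‖q' - p‖ ^ 2 := by rw [norm_sq_eq]; simp; ring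
    rw [this]
    have h6 : 0 < t * ‖q' - p‖ ^ 2 := by positivity
    nlinarith
  subst h5
  have h7 := hx.2.1
  simp only at h7
  rw [div_un_im ((mem_near hP).1 hq).2.1, h] at h7
  have : cr (q - p) (t * (q - p)) = 0 := by simp [cr]; ring
  rw [this] at h7
  simp at h7

omit hp in
lemma HK_subset_ball {q : ℂ} (hq : q ∈ near hP p) (b : Bool) : HK p q b ⊆ ball p rho := by
  intro x hx
  have := hx.1
  simp only at this
  rw [norm_div_un ((mem_near hP).1 hq).2.1] at this
  rwa [mem_ball, dist_eq_norm]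

omit hP hp in
lemma isOpen_HK (q : ℂ) (b : Bool) : IsOpen (HK p q b) :=
  (isOpen_K _ _).preimage (by fun_prop)

omit hP hp in
lemma isOpen_HT (q : ℂ) (b : Bool) : IsOpen (HT p q b) :=
  (isOpen_Tr _ _).preimage (by fun_prop)

omit hP hp in
lemma convex_HK (q : ℂ) (b : Bool) : Convex ℝ (HK p q b) := by
  intro x hx y hy s t hs ht hst
  have := convex_K _ _ hx hy hs ht hst
  simp only [HK, mem_preimage]
  convert this using 1
  have h1 : (s : ℂ) + t = 1 := by exact_mod_cast hst
  simp only [Complex.real_smul]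
  linear_combination (p / un p q) * h1

lemma vol_HK {q : ℂ} (hq : q ∈ near hP p) (b : Bool) :
    volume.real (HK p q b) = rho ^ 2 * al p q / 2 := by
  rw [measureReal_def, HK, (mp_rot p _ (norm_un ((mem_near hP).1 hq).2.1)).measure_preimage
    (isOpen_K _ _).measurableSet.nullMeasurableSet, vol_K b (al_pos hP hp hq) (al_lt hP hp hq),
    ENNReal.toReal_ofReal]
  have := al_pos hP hp hq
  positivity

lemma vol_HT {q : ℂ} (hq : q ∈ near hP p) (b : Bool) :
    volume.real (HT p q b) = rho ^ 2 * (sin (al p q) * cos (al p q)) / 2 := by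
  rw [measureReal_def, HT, (mp_rot p _ (norm_un ((mem_near hP).1 hq).2.1)).measure_preimage
    (isOpen_Tr _ _).measurableSet.nullMeasurableSet, vol_Tr b (al_pos hP hp hq) (al_lt hP hp hq),
    ENNReal.toReal_ofReal]
  have hc : 0 < cos (al p q) := cos_pos_of_mem_Ioo ⟨by linarith [al_pos hP hp hq, pi_pos],
    al_lt hP hp hq⟩
  have hs : 0 < sin (al p q) := sin_pos_of_pos_of_lt_pi (al_pos hP hp hq)
    (by linarith [al_lt hP hp hq, pi_pos])
  positivity

lemma HT_subset_HK {q : ℂ} (hq : q ∈ near hP p) (b : Bool) : HT p q b ⊆ HK p q b :=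
  preimage_mono (Tr_subset_K (sg_sq b) (al_pos hP hp hq) (al_lt hP hp hq))

lemma cover_ae : (ball p rho \ cell P p : Set ℂ) ≤ᵐ[volume]
    (⋃ i ∈ near hP p ×ˢ (Finset.univ : Finset Bool), (HK p i.1 i.2 \ HT p i.1 i.2) : Set ℂ) := by
  have h0 : ∀ᵐ x : ℂ, ∀ q ∈ near hP p, cr (p - x) (q - x) ≠ 0 := by
    rw [Filter.eventually_all_finset]
    intro q hq
    rw [ae_iff]
    simpa using vol_line p q ((mem_near hP).1 hq).2.1.symm
  filter_upwards [h0] with x hx
  rintro ⟨h1, h2⟩
  rw [mem_ball, dist_eq_norm] at h1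
  have h3 : ∃ q ∈ P, q ≠ p ∧ ‖x - q‖ ≤ ‖x - p‖ := by
    by_contra h
    push Not at h
    exact h2 ⟨h1, h⟩
  obtain ⟨q, hqP, hne, hle⟩ := h3
  have hq : q ∈ near hP p := by
    refine (mem_near hP).2 ⟨hqP, hne, ?_⟩
    have : ‖q - p‖ ≤ ‖x - p‖ + ‖x - q‖ := by
      calc ‖q - p‖ = ‖(x - p) - (x - q)‖ := by congr 1; ring
        _ ≤ _ := norm_sub_le _ _
    linarith
  have hc : 0 < cos (al p q) := cos_pos_of_mem_Ioo ⟨by linarith [al_pos hP hp hq, pi_pos],
    al_lt hP hp hq⟩
  have hs : 0 < sin (al p q) := sin_pos_of_pos_of_lt_pi (al_pos hP hp hq)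
    (by linarith [al_lt hP hp hq, pi_pos])
  have ha := near_norm hP hp hq
  have hr := rho_pos
  set z := (x - p) / un p q with hz
  have hzn : ‖z‖ = ‖x - p‖ := norm_div_un hne _
  have hre : rho * cos (al p q) ≤ z.re := by
    rw [hz, div_un_re hne, le_div_iff₀ (by positivity)]
    have h4 := cos_al hP hp hq
    have h5 : ‖x - q‖ ^ 2 ≤ ‖x - p‖ ^ 2 := by gcongr
    have h6 := norm_sq_eq (q - p)
    rw [norm_sq_eq, norm_sq_eq] at h5
    simp only [Complex.sub_re, Complex.sub_im] at h5 h6 ⊢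
    have : rho * cos (al p q) * ‖q - p‖ = ‖q - p‖ ^ 2 / 2 := by rw [← h4]; ring
    rw [this, h6]
    nlinarith
  have him : z.im ≠ 0 := by
    rw [hz, div_un_im hne]
    refine div_ne_zero ?_ (by positivity)
    have := hx q hq
    intro h; apply this
    simp only [cr, Complex.sub_re, Complex.sub_im] at h ⊢
    linear_combination h
  have hb : ∃ b, 0 < sg b * z.im := by
    rcases him.lt_or_gt with h | h
    · exact ⟨false, by simpa [sg] using h⟩
    · exact ⟨true, by simpa [sg] using h⟩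
  obtain ⟨b, hb⟩ := hb
  change x ∈ ⋃ i ∈ near hP p ×ˢ (Finset.univ : Finset Bool), (HK p i.1 i.2 \ HT p i.1 i.2)
  simp only [mem_iUnion]
  refine ⟨(q, b), by simpa using hq, ⟨by rw [hzn]; exact h1, hb, ?_⟩, fun h => ?_⟩
  · change sg b * z.im * cos (al p q) < z.re * sin (al p q)
    have h7 : sg b * z.im < rho * sin (al p q) := by
      rw [← sq_lt_sq₀ hb.le (by positivity), mul_pow, sg_sq, one_mul]
      have h8 : ‖z‖ ^ 2 < rho ^ 2 := by rw [hzn]; gcongr
      rw [norm_sq_eq] at h8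
      have h9 : (rho * cos (al p q)) ^ 2 ≤ z.re ^ 2 := by gcongr
      nlinarith [sin_sq_add_cos_sq (al p q)]
    calc sg b * z.im * cos (al p q) < rho * sin (al p q) * cos (al p q) := by gcongr
      _ = rho * cos (al p q) * sin (al p q) := by ring
      _ ≤ _ := by gcongr
  · have := h.2.2
    simp only at this
    linarith

lemma gen_bounds (g : ℂ → ℝ) (hg0 : ∀ x, 0 ≤ g x) (hgi : IntegrableOn g (ball p rho))
    (c : ℂ × Bool → ℝ) (hc : ∀ i : ℂ × Bool, i.1 ∈ near hP p → ∀ x ∈ HK p i.1 i.2, g x = c i) :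
    (∫ x in ball p rho, g x) - ∑ i ∈ near hP p ×ˢ (Finset.univ : Finset Bool),
        c i * (rho ^ 2 * (al p i.1 - sin (al p i.1) * cos (al p i.1)) / 2) ≤ ∫ x in cell P p, g x ∧
      ∑ i ∈ near hP p ×ˢ (Finset.univ : Finset Bool), c i * (rho ^ 2 * al p i.1 / 2) ≤
        ∫ x in ball p rho, g x := by
  set I := near hP p ×ˢ (Finset.univ : Finset Bool) with hI
  have hmem : ∀ i ∈ I, i.1 ∈ near hP p := fun i hi => (Finset.mem_product.1 hi).1
  have hfin : ∀ i ∈ I, volume (HK p i.1 i.2) ≠ ⊤ := fun i hi =>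
    ((measure_mono (HK_subset_ball hP (hmem i hi) _)).trans_lt measure_ball_lt_top).ne
  have hsub : (⋃ i ∈ I, HK p i.1 i.2) ⊆ ball p rho :=
    iUnion₂_subset fun i hi => HK_subset_ball hP (hmem i hi) _
  constructor
  · have h1 := integral_inter_add_sdiff (μ := volume) (s := ball p rho) (measurableSet_cell hP p) hgi
    rw [inter_eq_right.2 (cell_subset_ball P p)] at h1
    have h2 : ∫ x in ball p rho \ cell P p, g x ≤
        ∫ x in ⋃ i ∈ I, (HK p i.1 i.2 \ HT p i.1 i.2), g x := by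
      refine setIntegral_mono_set (hgi.mono_set ?_) (Filter.Eventually.of_forall hg0)
        (cover_ae hP hp)
      exact (iUnion₂_mono fun i _ => sdiff_subset).trans hsub
    rw [integral_biUnion_finset] at h2
    · have h3 : ∀ i ∈ I, ∫ x in HK p i.1 i.2 \ HT p i.1 i.2, g x =
          c i * (rho ^ 2 * (al p i.1 - sin (al p i.1) * cos (al p i.1)) / 2) := by
        intro i hi
        rw [setIntegral_congr_fun (g := fun _ => c i)
          ((isOpen_HK _ _).measurableSet.diff (isOpen_HT _ _).measurableSet)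
          (fun x hx => hc i (hmem i hi) x hx.1), setIntegral_const,
          measureReal_sdiff (HT_subset_HK hP hp (hmem i hi) _) (isOpen_HT _ _).measurableSet
            (hfin i hi), vol_HK hP hp (hmem i hi), vol_HT hP hp (hmem i hi), smul_eq_mul]
        ring
      rw [Finset.sum_congr rfl h3] at h2
      linarith
    · exact fun i _ => (isOpen_HK _ _).measurableSet.diff (isOpen_HT _ _).measurableSet
    · intro i hi j hj hij
      exact (HK_disjoint hP hp (hmem i hi) (hmem j hj) hij).mono sdiff_subset sdiff_subset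
    · exact fun i hi => hgi.mono_set (sdiff_subset.trans (HK_subset_ball hP (hmem i hi) _))
  · have h2 : ∫ x in ⋃ i ∈ I, HK p i.1 i.2, g x ≤ ∫ x in ball p rho, g x :=
      setIntegral_mono_set hgi (Filter.Eventually.of_forall hg0) hsub.eventuallyLE
    rw [integral_biUnion_finset] at h2
    · have h3 : ∀ i ∈ I, ∫ x in HK p i.1 i.2, g x = c i * (rho ^ 2 * al p i.1 / 2) := by
        intro i hi
        rw [setIntegral_congr_fun (g := fun _ => c i) (isOpen_HK _ _).measurableSet
          (fun x hx => hc i (hmem i hi) x hx), setIntegral_const, vol_HK hP hp (hmem i hi),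
          smul_eq_mul]
        ring
      rwa [Finset.sum_congr rfl h3] at h2
    · exact fun i _ => (isOpen_HK _ _).measurableSet
    · intro i hi j hj hij
      exact HK_disjoint hP hp (hmem i hi) (hmem j hj) hij
    · exact fun i hi => hgi.mono_set (HK_subset_ball hP (hmem i hi) _)

end

end Pool.Agent.MP_2616de_co

end MrgPart2

-- ======== part 3: formerly Pool.Agent.MP_2616de_co.Local
section MrgPart3

set_option maxSynthPendingDepth 3
set_option linter.unusedSectionVars false

namespace Pool.Agent.MP_2616de_co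

open MeasureTheory Set Metric Real

/-- excess area of the truncated cell -/
noncomputable def exc (P : Set ℂ) (p : ℂ) : ℝ := volume.real (cell P p) - kap

noncomputable def c0 : ℝ := 3 * √3 / (2 * π)

lemma c0_pos : 0 < c0 := by unfold c0; have := sqrt3_gt; positivity

lemma c0_le : c0 ≤ 5 / 6 := by
  unfold c0
  rw [div_le_iff₀ (by positivity)]
  linarith [sqrt3_lt, pi_gt_d2]

lemma c0_pi : c0 * π = 3 * √3 / 2 := by unfold c0; field_simp

lemma sin_concave {x y a b : ℝ} (hx : x ∈ Icc 0 π) (hy : y ∈ Icc 0 π) (ha : 0 ≤ a) (hb : 0 ≤ b)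
    (hab : a + b = 1) : a • sin x + b • sin y ≤ sin (a • x + b • y) :=
  strictConcaveOn_sin_Icc.concaveOn.2 hx hy ha hb hab

lemma h_small {α : ℝ} (h0 : 0 ≤ α) (h1 : α ≤ π / 12) : α / 8 ≤ sin α * cos α - c0 * α := by
  have hp := pi_pos
  have h2 := sin_concave (x := 0) (y := π / 6) ⟨le_rfl, hp.le⟩
    ⟨by positivity, by linarith⟩ (a := 1 - 12 * α / π) (b := 12 * α / π)
    (by rw [sub_nonneg, div_le_one hp]; linarith) (by positivity) (by ring)
  simp only [smul_eq_mul, sin_zero, sin_pi_div_six, mul_zero, zero_add] at h2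
  have h3 : 12 * α / π * (π / 6) = 2 * α := by field_simp; ring
  rw [h3, sin_two_mul] at h2
  have h4 : c0 * α = √3 / 8 * (12 * α / π) := by unfold c0; field_simp; ring
  have h5 : α = π / 12 * (12 * α / π) := by field_simp
  have h6 : 0 ≤ 12 * α / π := by positivity
  rw [h4]
  nth_rewrite 1 [h5]
  nlinarith [sqrt3_lt, pi_lt_d2]

lemma h_big {α : ℝ} (h0 : π / 12 ≤ α) (h1 : α ≤ π / 6) :
    (π / 6 - α) / 8 ≤ sin α * cos α - c0 * α := by
  have hp := pi_pos
  have h2 := sin_concave (x := π / 6) (y := π / 3)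
    ⟨by positivity, by linarith⟩ ⟨by positivity, by linarith⟩ (a := 2 - 12 * α / π)
    (b := 12 * α / π - 1) (by rw [sub_nonneg, div_le_iff₀ hp]; linarith)
    (by rw [sub_nonneg, le_div_iff₀ hp]; linarith) (by ring)
  simp only [smul_eq_mul, sin_pi_div_three, sin_pi_div_six] at h2
  have h3 : (2 - 12 * α / π) * (π / 6) + (12 * α / π - 1) * (π / 3) = 2 * α := by
    field_simp; ring
  rw [h3, sin_two_mul] at h2
  have h4 : c0 * α = √3 / 8 * (12 * α / π) := by unfold c0; field_simp; ring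
  have h5 : π / 6 - α = π / 12 * (2 - 12 * α / π) := by field_simp; ring
  have h6 : 0 ≤ 2 - 12 * α / π := by rw [sub_nonneg, div_le_iff₀ hp]; linarith
  rw [h4, h5]
  nlinarith [sqrt3_lt, pi_lt_d2]

lemma h_nonneg {α : ℝ} (h0 : 0 ≤ α) (h1 : α ≤ π / 6) : c0 * α ≤ sin α * cos α := by
  rcases le_total α (π / 12) with h | h
  · linarith [h_small h0 h]
  · linarith [h_big h h1]

lemma vol_ball_rho (p : ℂ) : volume.real (ball p rho) = π / 3 := by
  rw [measureReal_def, Complex.volume_ball, ENNReal.toReal_mul, ENNReal.toReal_pow,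
    ENNReal.toReal_ofReal rho_pos.le, rho_sq]
  simp; ring

section
variable {P : Set ℂ} (hP : Sep P) {p : ℂ} (hp : p ∈ P)
include hP hp

lemma gen_lower (g : ℂ → ℝ) (hg0 : ∀ x, 0 ≤ g x) (hgi : IntegrableOn g (ball p rho))
    (hc : ∀ q ∈ near hP p, ∀ b, ∃ c, ∀ x ∈ HK p q b, g x = c) :
    c0 * ∫ x in ball p rho, g x ≤ ∫ x in cell P p, g x := by
  have hc' : ∀ i : ℂ × Bool, ∃ c, 0 ≤ c ∧ (i.1 ∈ near hP p → ∀ x ∈ HK p i.1 i.2, g x = c) := by
    intro i
    by_cases hi : i.1 ∈ near hP p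
    · obtain ⟨c, hc⟩ := hc i.1 hi i.2
      by_cases hne : (HK p i.1 i.2).Nonempty
      · obtain ⟨x, hx⟩ := hne
        exact ⟨c, hc x hx ▸ hg0 x, fun _ => hc⟩
      · exact ⟨0, le_rfl, fun _ x hx => absurd ⟨x, hx⟩ hne⟩
    · exact ⟨0, le_rfl, fun h => absurd h hi⟩
  choose c hc0 hc1 using hc'
  obtain ⟨h1, h2⟩ := gen_bounds hP hp g hg0 hgi c hc1
  have h3 : ∑ i ∈ near hP p ×ˢ (Finset.univ : Finset Bool),
      c i * (rho ^ 2 * (al p i.1 - sin (al p i.1) * cos (al p i.1)) / 2) ≤
      (1 - c0) * ∑ i ∈ near hP p ×ˢ (Finset.univ : Finset Bool), c i * (rho ^ 2 * al p i.1 / 2) := by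
    rw [Finset.mul_sum]
    refine Finset.sum_le_sum fun i hi => ?_
    have hi' := (Finset.mem_product.1 hi).1
    have := h_nonneg (al_pos hP hp hi').le (al_le hP hp hi')
    have h4 := hc0 i
    rw [rho_sq]
    nlinarith
  have h4 : 0 ≤ 1 - c0 := by linarith [c0_le]
  nlinarith

lemma exc_nonneg : 0 ≤ exc P p := by
  have := gen_lower hP hp (fun _ => 1) (fun _ => zero_le_one)
    (integrableOn_const measure_ball_lt_top.ne) (fun _ _ _ => ⟨1, fun _ _ => rfl⟩)
  simp only [setIntegral_const, smul_eq_mul, mul_one, vol_ball_rho] at this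
  unfold exc kap
  linarith [c0_pi]

lemma cell_integral_le (G : ℂ → ℝ) (B : ℝ) (hB : ∀ x, |G x| ≤ B) (hGm : Measurable G)
    (hc : ∀ q ∈ near hP p, ∀ b, ∃ c, ∀ x ∈ HK p q b, G x = c)
    (h0 : ∫ x in ball p rho, G x = 0) : |∫ x in cell P p, G x| ≤ B * exc P p := by
  have hi : IntegrableOn G (ball p rho) :=
    Measure.integrableOn_of_bounded measure_ball_lt_top.ne hGm.aestronglyMeasurable
      (Filter.Eventually.of_forall hB)
  have hic : IntegrableOn G (cell P p) := hi.mono_set (cell_subset_ball P p)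
  have hk : IntegrableOn (fun _ : ℂ => B) (ball p rho) := integrableOn_const measure_ball_lt_top.ne
  have hkc : IntegrableOn (fun _ : ℂ => B) (cell P p) := hk.mono_set (cell_subset_ball P p)
  have h1 := gen_lower hP hp (fun x => B + G x) (fun x => by linarith [(abs_le.1 (hB x)).1])
    (hk.add hi) (fun q hq b => by
      obtain ⟨c, hc⟩ := hc q hq b
      exact ⟨B + c, fun x hx => by rw [hc x hx]⟩)
  have h2 := gen_lower hP hp (fun x => B - G x) (fun x => by linarith [(abs_le.1 (hB x)).2])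
    (hk.sub hi) (fun q hq b => by
      obtain ⟨c, hc⟩ := hc q hq b
      exact ⟨B - c, fun x hx => by rw [hc x hx]⟩)
  rw [integral_add hk hi, integral_add hkc hic] at h1
  rw [integral_sub hk hi, integral_sub hkc hic] at h2
  simp only [setIntegral_const, smul_eq_mul, vol_ball_rho, h0] at h1 h2
  have h3 : c0 * (π / 3 * B) = kap * B := by
    unfold kap; linear_combination (B / 3) * c0_pi
  unfold exc
  rw [abs_le]
  constructor <;> nlinarith

lemma stab : ∑ q ∈ near hP p, al p q ≤ π ∧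
    ∑ q ∈ near hP p, (sin (al p q) * cos (al p q) - c0 * al p q) +
      (1 - c0) * (π - ∑ q ∈ near hP p, al p q) ≤ 3 * exc P p := by
  obtain ⟨h1, h2⟩ := gen_bounds hP hp (fun _ => 1) (fun _ => zero_le_one)
    (integrableOn_const measure_ball_lt_top.ne) (fun _ => 1) (fun _ _ _ _ => rfl)
  simp only [setIntegral_const, smul_eq_mul, mul_one, vol_ball_rho, one_mul, Finset.sum_product,
    Finset.sum_const, Finset.card_univ, Fintype.card_bool, nsmul_eq_mul, rho_sq] at h1 h2
  have e1 : ∑ q ∈ near hP p, ((2 : ℕ) : ℝ) * (1 / 3 * al p q / 2) =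
      (∑ q ∈ near hP p, al p q) / 3 := by
    rw [Finset.sum_div]; refine Finset.sum_congr rfl fun q _ => ?_; push_cast; ring
  have e2 : ∑ q ∈ near hP p, ((2 : ℕ) : ℝ) * (1 / 3 * (al p q - sin (al p q) * cos (al p q)) / 2) =
      ((1 - c0) * (∑ q ∈ near hP p, al p q) -
        ∑ q ∈ near hP p, (sin (al p q) * cos (al p q) - c0 * al p q)) / 3 := by
    rw [Finset.mul_sum, ← Finset.sum_sub_distrib, Finset.sum_div]
    refine Finset.sum_congr rfl fun q _ => ?_; push_cast; ring
  rw [e1] at h2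
  rw [e2] at h1
  refine ⟨by linarith, ?_⟩
  unfold exc kap
  nlinarith [c0_pi]

/-- six points at distance almost one -/
lemma exists_six (he : exc P p ≤ 1 / 200) : ∃ S : Finset ℂ, S.card = 6 ∧
    ∀ q ∈ S, q ∈ P ∧ q ≠ p ∧ ‖q - p‖ ≤ 1 + 28 * exc P p := by
  classical
  obtain ⟨h1, h2⟩ := stab hP hp
  have he0 := exc_nonneg hP hp
  set S := (near hP p).filter fun q => π / 12 < al p q with hS
  set T := (near hP p).filter fun q => ¬ π / 12 < al p q with hT
  have hsplit : ∀ f : ℂ → ℝ, ∑ q ∈ near hP p, f q = ∑ q ∈ S, f q + ∑ q ∈ T, f q := fun f =>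
    (Finset.sum_filter_add_sum_filter_not _ _ _).symm
  have hS1 : ∑ q ∈ S, (π / 6 - al p q) / 8 ≤
      ∑ q ∈ S, (sin (al p q) * cos (al p q) - c0 * al p q) := Finset.sum_le_sum fun q hq => by
    rw [hS, Finset.mem_filter] at hq
    exact h_big hq.2.le (al_le hP hp hq.1)
  have hT1 : ∑ q ∈ T, al p q / 8 ≤
      ∑ q ∈ T, (sin (al p q) * cos (al p q) - c0 * al p q) := Finset.sum_le_sum fun q hq => by
    rw [hT, Finset.mem_filter] at hq
    exact h_small (al_pos hP hp hq.1).le (not_lt.1 hq.2)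
  have hS0 : ∀ q ∈ S, 0 ≤ (π / 6 - al p q) / 8 := fun q hq => by
    rw [hS, Finset.mem_filter] at hq
    linarith [al_le hP hp hq.1]
  have hT0 : 0 ≤ ∑ q ∈ T, al p q / 8 := Finset.sum_nonneg fun q hq => by
    rw [hT, Finset.mem_filter] at hq
    linarith [al_pos hP hp hq.1]
  have hS0' := Finset.sum_nonneg hS0
  rw [hsplit] at h2
  have h3 : (π - ∑ q ∈ near hP p, al p q) / 6 ≤ (1 - c0) * (π - ∑ q ∈ near hP p, al p q) := by
    nlinarith [c0_le]
  have h4 : ∑ q ∈ S, (π / 6 - al p q) / 8 = (S.card * (π / 6) - ∑ q ∈ S, al p q) / 8 := by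
    rw [← Finset.sum_div, Finset.sum_sub_distrib]; simp
  have h5 : ∑ q ∈ T, al p q / 8 = (∑ q ∈ T, al p q) / 8 := by rw [Finset.sum_div]
  have h6 := hsplit (al p)
  refine ⟨S, ?_, fun q hq => ?_⟩
  · have h7 : (S.card : ℝ) * (π / 6) < 7 * (π / 6) := by nlinarith [pi_gt_d2]
    have h8 : 5 * (π / 6) < (S.card : ℝ) * (π / 6) := by nlinarith [pi_gt_d2]
    have h9 : (S.card : ℝ) < 7 := lt_of_mul_lt_mul_right h7 (by positivity)
    have h10 : 5 < (S.card : ℝ) := lt_of_mul_lt_mul_right h8 (by positivity)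
    have h11 : S.card < 7 := by exact_mod_cast h9
    have h12 : 5 < S.card := by exact_mod_cast h10
    omega
  · have h7 := Finset.single_le_sum hS0 hq
    rw [hS, Finset.mem_filter] at hq
    refine ⟨((mem_near hP).1 hq.1).1, ((mem_near hP).1 hq.1).2.1, ?_⟩
    rw [← cos_al hP hp hq.1]
    have h8 : π / 6 - al p q ≤ 24 * exc P p := by linarith
    have h9 := abs_cos_sub_cos_le (al p q) (π / 6)
    rw [cos_pi_div_six, abs_sub_comm (al p q), abs_of_nonneg (by linarith [al_le hP hp hq.1] :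
      0 ≤ π / 6 - al p q)] at h9
    have h10 : cos (al p q) ≤ √3 / 2 + 24 * exc P p := by linarith [(abs_le.1 h9).2]
    have h11 : 2 * rho * (√3 / 2) = 1 := by unfold rho; nlinarith [sqrt3_sq]
    nlinarith [rho_lt, rho_pos]

end

end Pool.Agent.MP_2616de_co

end MrgPart3

-- marker of a merged file
example : 731051 + 123730 = 731051 + 123730 := rfl
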