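import Mathlib.Analysis.SpecialFunctions.Trigonometric.Basic
import Mathlib.Analysis.Normed.Group.Quotient
import Mathlib.Topology.Instances.AddCircle.Real

namespace Pool.Agent.MP_2616de_co

open Real

/-- the flat square torus of area one -/
abbrev Torus : Type := UnitAddCircle × UnitAddCircle

/-- the flat (Euclidean quotient) distance on the torus -/
noncomputable def tdist (x y : Torus) : ℝ := √(dist x.1 y.1 ^ 2 + dist x.2 y.2 ^ 2)

/-- N disks of radius r with centres X form a packing -/
def IsPacking {N : ℕ} (r : ℝ) (X : Fin N → Torus) : Prop :=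
  0 < r ∧ r ≤ 1 / 2 ∧ ∀ i j, i ≠ j → 2 * r ≤ tdist (X i) (X j)

/-- a most dense packing of N disks -/
def IsDensest {N : ℕ} (r : ℝ) (X : Fin N → Torus) : Prop :=
  IsPacking r X ∧ ∀ (r' : ℝ) (X' : Fin N → Torus), IsPacking r' X' → r' ≤ r

/-- the Markov constant of a packing of N disks of radius r -/
noncomputable def markov (N : ℕ) (r : ℝ) : ℝ := π / (2 * N * (π / (2 * √3) - N * π * r ^ 2))

/-- the distance D of two centre configurations -/
noncomputable def cdist {N : ℕ} (X Y : Fin N → Torus) : ℝ := √(∑ i, tdist (X i) (Y i) ^ 2)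

end Pool.Agent.MP_2616de_co
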