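import Mathlib.Topology.Sheaves.Presheaf
import Mathlib.RingTheory.PiTensorProduct
import Pool.Agent.MP_2616de_co.Local

-- ======== part 0: formerly Pool.Agent.MP_2616de_co.Frame
section MrgPart0

set_option maxSynthPendingDepth 3
set_option linter.unusedSectionVars false

namespace Pool.Agent.MP_2616de_co

open MeasureTheory Set Metric Real

/-- primitive sixth root of unity -/
noncomputable def ze : ℂ := Complex.exp ((π / 3 : ℝ) * Complex.I)

lemma ze_re : ze.re = 1 / 2 := by rw [ze, Complex.exp_ofReal_mul_I_re, cos_pi_div_three]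

lemma ze_im : ze.im = √3 / 2 := by rw [ze, Complex.exp_ofReal_mul_I_im, sin_pi_div_three]

lemma norm_ze : ‖ze‖ = 1 := Complex.norm_exp_ofReal_mul_I _

lemma norm_ze_pow (k : ℕ) : ‖ze ^ k‖ = 1 := by rw [norm_pow, norm_ze, one_pow]

lemma ze_ne : ze ≠ 0 := by intro h; have := norm_ze; rw [h] at this; simp at this

lemma ze_sq : ze ^ 2 = ze - 1 := by
  apply Complex.ext
  · simp [pow_two, ze_re, ze_im]; nlinarith [sqrt3_sq]
  · simp [pow_two, ze_re, ze_im]; ring

lemma ze_three : ze ^ 3 = -1 := by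
  have := ze_sq
  linear_combination (ze + 1) * this

lemma ze_six : ze ^ 6 = 1 := by
  have := ze_three
  linear_combination (ze ^ 3 - 1) * this

lemma ze_pow_mod (k : ℕ) : ze ^ k = ze ^ (k % 6) := by
  nth_rewrite 1 [← Nat.div_add_mod k 6]
  rw [pow_add, pow_mul, ze_six, one_pow, one_mul]

lemma ze_pow_eq (k : ℕ) : ze ^ k = Complex.exp ((k * (π / 3) : ℝ) * Complex.I) := by
  rw [ze, ← Complex.exp_nat_mul]; congr 1; push_cast; ring

/-- every vector is within thirty degrees of one of six directions -/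
lemma dir30 (v : ℂ) : ∃ k : ℕ, √3 / 2 * ‖v‖ ≤ v.re * (ze ^ k).re + v.im * (ze ^ k).im := by
  by_contra h
  push Not at h
  have h0 := h 0
  have h1 := h 1
  have h2 := h 2
  have h3 := h 3
  have h4 := h 4
  have h5 := h 5
  have e4 : ze ^ 4 = -ze := by linear_combination ze * ze_three
  have e5 : ze ^ 5 = 1 - ze := by linear_combination ze ^ 2 * ze_three - ze_sq
  rw [e4] at h4
  rw [e5] at h5
  rw [ze_three] at h3
  rw [ze_sq] at h2
  simp [ze_re, ze_im] at h0 h1 h2 h3 h4 h5
  have hB : (√3 / 2 * ‖v‖) ^ 2 = 3 / 4 * (v.re ^ 2 + v.im ^ 2) := by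
    rw [mul_pow, norm_sq_eq]; congr 1; nlinarith [sqrt3_sq]
  set B := √3 / 2 * ‖v‖
  set a := v.re with ha
  set c := -v.re / 2 + v.im * (√3 / 2) with hc
  have hy : a ^ 2 + (a + c) ^ 2 + c ^ 2 = 3 / 2 * (a ^ 2 + v.im ^ 2) := by
    rw [hc]; nlinarith [sqrt3_sq]
  have ha2 : a ^ 2 < B ^ 2 := sq_lt_sq' (by linarith) (by linarith)
  have hb2 : (a + c) ^ 2 < B ^ 2 := sq_lt_sq' (by linarith) (by linarith)
  have hc2 : c ^ 2 < B ^ 2 := sq_lt_sq' (by linarith) (by linarith)
  rcases le_total 0 (a * c) with h | h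
  · nlinarith
  · rcases le_total 0 (a * (a + c)) with h' | h'
    · nlinarith
    · nlinarith

/-- p has six neighbours near the vertices of the regular hexagon of direction u -/
def Frame (P : Set ℂ) (p u : ℂ) (ε : ℝ) : Prop := ∀ k : ℕ, ∃ q ∈ P, ‖q - p - u * ze ^ k‖ ≤ ε

lemma Frame.mono {P : Set ℂ} {p u : ℂ} {ε ε' : ℝ} (h : Frame P p u ε) (h' : ε ≤ ε') :
    Frame P p u ε' := fun k => by
  obtain ⟨q, hq, h1⟩ := h k
  exact ⟨q, hq, h1.trans h'⟩

lemma Frame.rot {P : Set ℂ} {p u : ℂ} {ε : ℝ} (h : Frame P p u ε) (j : ℕ) :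
    Frame P p (u * ze ^ j) ε := fun k => by
  obtain ⟨q, hq, h1⟩ := h (j + k)
  exact ⟨q, hq, by rwa [pow_add, ← mul_assoc] at h1⟩

lemma Frame.perturb {P : Set ℂ} {p u u' : ℂ} {ε δ : ℝ} (h : Frame P p u ε) (h' : ‖u - u'‖ ≤ δ) :
    Frame P p u' (ε + δ) := fun k => by
  obtain ⟨q, hq, h1⟩ := h k
  refine ⟨q, hq, ?_⟩
  have : q - p - u' * ze ^ k = (q - p - u * ze ^ k) + (u - u') * ze ^ k := by ring
  rw [this]
  refine (norm_add_le _ _).trans ?_
  rw [norm_mul, norm_ze_pow, mul_one]
  linarith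

lemma gap_ge {γ t : ℝ} (h0 : 0 ≤ γ) (ht : 0 ≤ t)
    (h : 1 - 2 * t ≤ ‖Complex.exp (γ * Complex.I) - 1‖) : π / 3 - 4 * t ≤ γ := by
  by_contra hlt
  push Not at hlt
  have hp := pi_pos
  rw [mul_comm (γ : ℂ), Complex.norm_exp_I_mul_ofReal_sub_one] at h
  have h1 : 0 ≤ sin (γ / 2) := sin_nonneg_of_nonneg_of_le_pi (by linarith) (by linarith)
  rw [Real.norm_eq_abs, abs_of_nonneg (by linarith)] at h
  have h2 := sin_sub_sin (π / 6) (γ / 2)
  rw [sin_pi_div_six] at h2
  have h3 : 2 / π * ((π / 6 - γ / 2) / 2) ≤ sin ((π / 6 - γ / 2) / 2) :=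
    mul_le_sin (by linarith) (by linarith)
  have h4 : √3 / 2 ≤ cos ((π / 6 + γ / 2) / 2) := by
    rw [← cos_pi_div_six]
    exact cos_le_cos_of_nonneg_of_le_pi (by linarith) (by linarith) (by linarith)
  have h5 : (π / 6 - γ / 2) / 3.15 ≤ 2 / π * ((π / 6 - γ / 2) / 2) := by
    rw [div_mul_div_comm, mul_comm π 2, mul_div_mul_left _ _ two_ne_zero]
    exact div_le_div_of_nonneg_left (by linarith) hp pi_lt_d2.le
  have h6 : 0 < π / 6 - γ / 2 - 2 * t := by linarith
  have h7 : 0 ≤ sin ((π / 6 - γ / 2) / 2) := by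
    refine le_trans ?_ (h5.trans h3)
    apply div_nonneg <;> linarith
  have h8 : sin ((π / 6 - γ / 2) / 2) * 0.866 ≤
      sin ((π / 6 - γ / 2) / 2) * cos ((π / 6 + γ / 2) / 2) :=
    mul_le_mul_of_nonneg_left (by linarith [sqrt3_gt]) h7
  have h9 := h5.trans h3
  rw [mul_assoc] at h2
  rw [div_le_iff₀ (by norm_num)] at h9
  linarith

lemma norm_exp_sub_exp (a b : ℝ) :
    ‖Complex.exp (a * Complex.I) - Complex.exp (b * Complex.I)‖ =
      ‖Complex.exp ((a - b : ℝ) * Complex.I) - 1‖ := by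
  have : Complex.exp (a * Complex.I) - Complex.exp (b * Complex.I) =
      Complex.exp (b * Complex.I) * (Complex.exp ((a - b : ℝ) * Complex.I) - 1) := by
    rw [mul_sub, ← Complex.exp_add]; congr 2
    · push_cast; ring
    · simp
  rw [this, norm_mul, Complex.norm_exp_ofReal_mul_I, one_mul]

lemma norm_exp_sub_exp_le (a b : ℝ) :
    ‖Complex.exp (a * Complex.I) - Complex.exp (b * Complex.I)‖ ≤ |a - b| := by
  rw [norm_exp_sub_exp, mul_comm]
  exact Real.norm_exp_I_mul_ofReal_sub_one_le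

lemma norm_sub_exp_arg {v : ℂ} {t : ℝ} (h1 : 1 ≤ ‖v‖) (h2 : ‖v‖ ≤ 1 + t) :
    ‖v - Complex.exp (v.arg * Complex.I)‖ ≤ t := by
  nth_rewrite 1 [← Complex.norm_mul_exp_arg_mul_I v]
  rw [← sub_one_mul, norm_mul, Complex.norm_exp_ofReal_mul_I, mul_one]
  have : ((‖v‖ : ℝ) : ℂ) - 1 = ((‖v‖ - 1 : ℝ) : ℂ) := by push_cast; ring
  rw [this, Complex.norm_real, Real.norm_eq_abs, abs_of_nonneg (by linarith)]
  linarith

theorem frame_exists {P : Set ℂ} (hP : Sep P) {p : ℂ} (hp : p ∈ P) (he : exc P p ≤ 1 / 200) :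
    ∃ u : ℂ, ‖u‖ = 1 ∧ Frame P p u (700 * exc P p) := by
  classical
  obtain ⟨S, hS, hq⟩ := exists_six hP hp he
  have he0 := exc_nonneg hP hp
  set t := 28 * exc P p with ht
  have ht0 : 0 ≤ t := by positivity
  have ht1 : t ≤ 0.14 := by linarith
  have hpi := pi_gt_d2
  have hclose : ∀ q ∈ S, ‖q - p - Complex.exp ((q - p).arg * Complex.I)‖ ≤ t := fun q h =>
    norm_sub_exp_arg (hP q (hq q h).1 p hp (hq q h).2.1) (hq q h).2.2
  have hsep : ∀ q ∈ S, ∀ q' ∈ S, q ≠ q' → 1 - 2 * t ≤
      ‖Complex.exp ((q - p).arg * Complex.I) - Complex.exp ((q' - p).arg * Complex.I)‖ := by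
    intro q h q' h' hne
    have h1 := hP q (hq q h).1 q' (hq q' h').1 hne
    have h2 := hclose q h
    have h3 := hclose q' h'
    have h4 : q - q' = (q - p - Complex.exp ((q - p).arg * Complex.I)) -
        (q' - p - Complex.exp ((q' - p).arg * Complex.I)) +
        (Complex.exp ((q - p).arg * Complex.I) - Complex.exp ((q' - p).arg * Complex.I)) := by ring
    rw [h4] at h1
    have h5 := norm_add_le ((q - p - Complex.exp ((q - p).arg * Complex.I)) -
        (q' - p - Complex.exp ((q' - p).arg * Complex.I)))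
        (Complex.exp ((q - p).arg * Complex.I) - Complex.exp ((q' - p).arg * Complex.I))
    have h6 := norm_sub_le (q - p - Complex.exp ((q - p).arg * Complex.I))
        (q' - p - Complex.exp ((q' - p).arg * Complex.I))
    linarith
  have hinj : Set.InjOn (fun q : ℂ => (q - p).arg) S := by
    intro q h q' h' heq
    by_contra hne
    have := hsep q h q' h' hne
    simp only at heq
    rw [heq, sub_self, norm_zero] at this
    linarith
  have hcard : (S.image fun q : ℂ => (q - p).arg).card = 6 := by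
    rw [Finset.card_image_of_injOn hinj, hS]
  set f := (S.image fun q : ℂ => (q - p).arg).orderEmbOfFin hcard with hf
  have hmem : ∀ i, ∃ q ∈ S, (q - p).arg = f i := fun i => by
    have := Finset.orderEmbOfFin_mem (S.image fun q : ℂ => (q - p).arg) hcard i
    exact Finset.mem_image.1 this
  choose q hqS hqf using hmem
  have hsep' : ∀ i j : Fin 6, i ≠ j → 1 - 2 * t ≤
      ‖Complex.exp (f i * Complex.I) - Complex.exp (f j * Complex.I)‖ := by
    intro i j hij
    rw [← hqf i, ← hqf j]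
    refine hsep _ (hqS i) _ (hqS j) fun h => hij (f.injective ?_)
    rw [← hqf i, ← hqf j, h]
  have hgap : ∀ i j : Fin 6, i < j → π / 3 - 4 * t ≤ f j - f i := by
    intro i j hij
    refine gap_ge (by linarith [f.strictMono hij]) ht0 ?_
    rw [← norm_exp_sub_exp]
    exact hsep' j i hij.ne'
  have hlast : π / 3 - 4 * t ≤ f 0 + 2 * π - f 5 := by
    refine gap_ge ?_ ht0 ?_
    · have h1 : -π < f 0 := by rw [← hqf]; exact Complex.neg_pi_lt_arg _
      have h2 : f 5 ≤ π := by rw [← hqf]; exact Complex.arg_le_pi _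
      linarith
    · rw [← norm_exp_sub_exp]
      have : Complex.exp ((f 0 + 2 * π : ℝ) * Complex.I) = Complex.exp (f 0 * Complex.I) := by
        push_cast
        rw [add_mul, Complex.exp_add, Complex.exp_two_pi_mul_I, mul_one]
      rw [this]
      exact hsep' 0 5 (by decide)
  have g0 := hgap 0 1 (by decide)
  have g1 := hgap 1 2 (by decide)
  have g2 := hgap 2 3 (by decide)
  have g3 := hgap 3 4 (by decide)
  have g4 := hgap 4 5 (by decide)
  have hang : ∀ i : Fin 6, |f i - (f 0 + (i : ℕ) * (π / 3))| ≤ 24 * t := by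
    intro i
    fin_cases i <;> simp <;> (try rw [abs_le]) <;> (try constructor) <;> linarith
  refine ⟨Complex.exp (f 0 * Complex.I), Complex.norm_exp_ofReal_mul_I _, fun k => ?_⟩
  set i : Fin 6 := ⟨k % 6, Nat.mod_lt _ (by norm_num)⟩ with hi
  refine ⟨q i, (hq _ (hqS i)).1, ?_⟩
  have h1 : Complex.exp (f 0 * Complex.I) * ze ^ k =
      Complex.exp ((f 0 + (i : ℕ) * (π / 3) : ℝ) * Complex.I) := by
    rw [ze_pow_mod, ze_pow_eq, ← Complex.exp_add]; congr 1; push_cast; ring
  have h2 := hclose _ (hqS i)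
  rw [hqf] at h2
  have h3 := (norm_exp_sub_exp_le _ _).trans (hang i)
  rw [h1]
  have h4 := norm_add_le (q i - p - Complex.exp (f i * Complex.I))
    (Complex.exp (f i * Complex.I) - Complex.exp ((f 0 + (i : ℕ) * (π / 3) : ℝ) * Complex.I))
  rw [sub_add_sub_cancel] at h4
  linarith

lemma norm_sub_dir_sq (v u : ℂ) (hu : ‖u‖ = 1) :
    ∃ k : ℕ, ‖v - u * ze ^ k‖ ^ 2 ≤ ‖v‖ ^ 2 - √3 * ‖v‖ + 1 := by
  have hu0 : u ≠ 0 := by rintro rfl; simp at hu
  obtain ⟨k, hk⟩ := dir30 (v / u)
  refine ⟨k, ?_⟩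
  have h1 : ‖v - u * ze ^ k‖ = ‖v / u - ze ^ k‖ := by
    have : v - u * ze ^ k = u * (v / u - ze ^ k) := by field_simp
    rw [this, norm_mul, hu, one_mul]
  have h2 : ‖v / u‖ = ‖v‖ := by rw [norm_div, hu, div_one]
  have h3 : (ze ^ k).re ^ 2 + (ze ^ k).im ^ 2 = 1 := by rw [← norm_sq_eq, norm_ze_pow]; norm_num
  rw [h1, ← h2, norm_sq_eq (v / u - ze ^ k), norm_sq_eq (v / u)]
  simp only [Complex.sub_re, Complex.sub_im]
  nlinarith

/-- a close point of P is one of the six neighbours -/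
lemma Frame.nb {P : Set ℂ} (hP : Sep P) {p u q : ℂ} {ε : ℝ} (h : Frame P p u ε) (hu : ‖u‖ = 1)
    (hε : ε ≤ 3 / 10) (hp : p ∈ P) (hq : q ∈ P) (hne : q ≠ p) (hd : ‖q - p‖ ≤ 5 / 4) :
    ∃ k : ℕ, ‖q - p - u * ze ^ k‖ ≤ ε := by
  obtain ⟨k, hk⟩ := norm_sub_dir_sq (q - p) u hu
  obtain ⟨q', hq', h1⟩ := h k
  have h2 := hP q hq p hp hne
  have h3 : ‖q - p - u * ze ^ k‖ ≤ 0.64 := by
    rw [← sq_le_sq₀ (norm_nonneg _) (by norm_num)]
    nlinarith [sqrt3_gt]
  have h4 : q = q' := by
    apply hP.eq_of_lt hq hq'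
    have : q - q' = (q - p - u * ze ^ k) - (q' - p - u * ze ^ k) := by ring
    rw [this]
    linarith [norm_sub_le (q - p - u * ze ^ k) (q' - p - u * ze ^ k)]
  exact ⟨k, h4 ▸ h1⟩

lemma Frame.transfer {P : Set ℂ} (hP : Sep P) {p u q u' : ℂ} {ε ε' : ℝ} (h : Frame P p u ε)
    (hu : ‖u‖ = 1) (hε : ε ≤ 3 / 10) (h' : Frame P q u' ε') (hu' : ‖u'‖ = 1) (hε' : ε' ≤ 3 / 10)
    (hp : p ∈ P) (hq : q ∈ P) (hne : q ≠ p) (hd : ‖q - p‖ ≤ 5 / 4) :
    ∃ j : ℕ, ‖u' * ze ^ j - u‖ ≤ ε + ε' := by
  obtain ⟨k, hk⟩ := h.nb hP hu hε hp hq hne hd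
  obtain ⟨l, hl⟩ := h'.nb hP hu' hε' hq hp hne.symm (by rwa [norm_sub_rev])
  refine ⟨l + 3 + 5 * k, ?_⟩
  have h1 : ze ^ (5 * k) * ze ^ k = 1 := by
    rw [← pow_add, show 5 * k + k = 6 * k by ring, pow_mul, ze_six, one_pow]
  have h2 : u' * ze ^ (l + 3 + 5 * k) - u =
      ((q - p - u * ze ^ k) + (p - q - u' * ze ^ l)) * ze ^ (5 * k) := by
    rw [pow_add, pow_add, ze_three]
    linear_combination u * h1
  rw [h2, norm_mul, norm_ze_pow, mul_one]
  linarith [norm_add_le (q - p - u * ze ^ k) (p - q - u' * ze ^ l)]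

/-- transport of a frame direction to a close point -/
lemma Frame.step {P : Set ℂ} (hP : Sep P) {p u q : ℂ} {ε : ℝ} (h : Frame P p u ε)
    (hu : ‖u‖ = 1) (hε : ε ≤ 3 / 10) (hp : p ∈ P) (hq : q ∈ P) (hne : q ≠ p)
    (hd : ‖q - p‖ ≤ 5 / 4) (he : exc P q ≤ 1 / 3000) :
    ∃ u' : ℂ, ‖u'‖ = 1 ∧ Frame P q u' (700 * exc P q) ∧ ‖u' - u‖ ≤ ε + 700 * exc P q := by
  obtain ⟨u', hu', h'⟩ := frame_exists hP hq (by linarith)
  obtain ⟨j, hj⟩ := h.transfer hP hu hε h' hu' (by linarith) hp hq hne hd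
  exact ⟨u' * ze ^ j, by rw [norm_mul, hu', norm_ze_pow, mul_one], h'.rot j, hj⟩

end Pool.Agent.MP_2616de_co

end MrgPart0

-- ======== part 1: formerly Pool.Agent.MP_2616de_co.Dens
section MrgPart1

set_option maxSynthPendingDepth 3
set_option linter.unusedSectionVars false

namespace Pool.Agent.MP_2616de_co

open MeasureTheory Set Metric Real Filter Topology

open Classical in
/-- density of the excess area -/
noncomputable def dens (P : Set ℂ) (x : ℂ) : ℝ :=
  if h : ∃ p ∈ P, x ∈ cell P p then 1 - kap / volume.real (cell P h.choose) else 1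

lemma dens_of_mem {P : Set ℂ} {p x : ℂ} (hp : p ∈ P) (hx : x ∈ cell P p) :
    dens P x = 1 - kap / volume.real (cell P p) := by
  have h : ∃ p ∈ P, x ∈ cell P p := ⟨p, hp, hx⟩
  have h1 : h.choose = p := by
    by_contra hne
    exact Set.disjoint_left.1 (cell_disjoint h.choose_spec.1 hp hne) h.choose_spec.2 hx
  rw [dens, dif_pos h, h1]

lemma dens_of_not {P : Set ℂ} {x : ℂ} (h : ∀ p ∈ P, x ∉ cell P p) : dens P x = 1 := by
  rw [dens, dif_neg]
  rintro ⟨p, hp, hx⟩
  exact h p hp hx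

lemma kap_pos : 0 < kap := by linarith [kap_gt]

/-- total excess in a region -/
noncomputable def mu (P : Set ℂ) (s : Set ℂ) : ℝ := ∫ x in s, dens P x

section
variable {P : Set ℂ} (hP : Sep P)
include hP

lemma vol_cell_ge {p : ℂ} (hp : p ∈ P) : kap ≤ volume.real (cell P p) := by
  have := exc_nonneg hP hp
  unfold exc at this
  linarith

lemma vol_cell_pos {p : ℂ} (hp : p ∈ P) : 0 < volume.real (cell P p) :=
  kap_pos.trans_le (vol_cell_ge hP hp)

lemma dens_nonneg (x : ℂ) : 0 ≤ dens P x := by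
  by_cases h : ∃ p ∈ P, x ∈ cell P p
  · obtain ⟨p, hp, hx⟩ := h
    rw [dens_of_mem hp hx, sub_nonneg, div_le_one (vol_cell_pos hP hp)]
    exact vol_cell_ge hP hp
  · push Not at h
    rw [dens_of_not h]; exact zero_le_one

lemma dens_le_one (x : ℂ) : dens P x ≤ 1 := by
  by_cases h : ∃ p ∈ P, x ∈ cell P p
  · obtain ⟨p, hp, hx⟩ := h
    rw [dens_of_mem hp hx]
    have := div_pos kap_pos (vol_cell_pos hP hp)
    linarith
  · push Not at h
    rw [dens_of_not h]

lemma dens_eq_sum {c x : ℂ} {r : ℝ} (hx : x ∈ ball c r) :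
    dens P x = 1 - ∑ p ∈ (hP.finite_ball c (r + 1)).toFinset,
      (cell P p).indicator (fun _ => kap / volume.real (cell P p)) x := by
  by_cases h : ∃ p ∈ P, x ∈ cell P p
  · obtain ⟨p, hp, hxp⟩ := h
    rw [dens_of_mem hp hxp, Finset.sum_eq_single p, indicator_of_mem hxp]
    · intro q hq hne
      rw [Set.Finite.mem_toFinset] at hq
      exact indicator_of_notMem (Set.disjoint_left.1 (cell_disjoint hp hq.1 hne.symm) hxp) _
    · intro hn
      exfalso; apply hn
      rw [Set.Finite.mem_toFinset]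
      refine ⟨hp, ?_⟩
      have h1 := cell_subset_ball P p hxp
      rw [mem_ball] at *
      linarith [dist_triangle_left p c x, rho_lt]
  · push Not at h
    rw [dens_of_not h, Finset.sum_eq_zero, sub_zero]
    intro p hp
    rw [Set.Finite.mem_toFinset] at hp
    exact indicator_of_notMem (h p hp.1) _

lemma measurable_dens : Measurable (dens P) := by
  refine measurable_of_tendsto_metrizable (f := fun (n : ℕ) x => 1 -
    ∑ p ∈ (hP.finite_ball 0 (n + 1)).toFinset,
      (cell P p).indicator (fun _ => kap / volume.real (cell P p)) x) (fun n => ?_) ?_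
  · exact measurable_const.sub (Finset.measurable_sum _ fun p _ =>
      measurable_const.indicator (measurableSet_cell hP p))
  · rw [tendsto_pi_nhds]
    intro x
    refine tendsto_const_nhds.congr' ?_
    obtain ⟨n, hn⟩ := exists_nat_gt (dist x 0)
    filter_upwards [eventually_ge_atTop n] with m hm
    refine dens_eq_sum hP (mem_ball.2 (hn.trans_le ?_))
    exact_mod_cast hm

lemma integrableOn_dens {s : Set ℂ} (hs : volume s ≠ ⊤) : IntegrableOn (dens P) s :=
  Measure.integrableOn_of_bounded (M := 1) hs (measurable_dens hP).aestronglyMeasurable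
    (Eventually.of_forall fun x => by
      rw [Real.norm_eq_abs, abs_of_nonneg (dens_nonneg hP x)]; exact dens_le_one hP x)

lemma mu_nonneg (s : Set ℂ) : 0 ≤ mu P s := integral_nonneg (dens_nonneg hP)

lemma mu_mono {s t : Set ℂ} (hst : s ⊆ t) (ht : volume t ≠ ⊤) : mu P s ≤ mu P t :=
  setIntegral_mono_set (integrableOn_dens hP ht) (Eventually.of_forall (dens_nonneg hP))
    hst.eventuallyLE

lemma mu_cell {p : ℂ} (hp : p ∈ P) : mu P (cell P p) = exc P p := by
  rw [mu, setIntegral_congr_fun (g := fun _ => 1 - kap / volume.real (cell P p))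
    (measurableSet_cell hP p) (fun x hx => dens_of_mem hp hx), setIntegral_const, smul_eq_mul, exc]
  have := (vol_cell_pos hP hp).ne'
  field_simp

lemma sum_mu_le {ι : Type*} (I : Finset ι) (s : ι → Set ℂ) (hm : ∀ i ∈ I, MeasurableSet (s i))
    (hd : (I : Set ι).Pairwise (Function.onFun Disjoint s)) {t : Set ℂ} (hst : ∀ i ∈ I, s i ⊆ t)
    (ht : volume t ≠ ⊤) : ∑ i ∈ I, mu P (s i) ≤ mu P t := by
  unfold mu
  rw [← integral_biUnion_finset I hm hd fun i hi => (integrableOn_dens hP ht).mono_set (hst i hi)]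
  exact mu_mono hP (iUnion₂_subset hst) ht

lemma sum_exc_le (V : Finset ℂ) (hV : ∀ p ∈ V, p ∈ P) {t : Set ℂ}
    (hst : ∀ p ∈ V, ball p rho ⊆ t) (ht : volume t ≠ ⊤) : ∑ p ∈ V, exc P p ≤ mu P t := by
  rw [← Finset.sum_congr rfl fun p hp => mu_cell hP (hV p hp)]
  exact sum_mu_le hP V (cell P) (fun p _ => measurableSet_cell hP p)
    (fun p hp q hq hne => cell_disjoint (hV p hp) (hV q hq) hne)
    (fun p hp => (cell_subset_ball P p).trans (hst p hp)) ht

lemma exc_le_mu {p : ℂ} (hp : p ∈ P) {t : Set ℂ} (hst : ball p rho ⊆ t) (ht : volume t ≠ ⊤) :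
    exc P p ≤ mu P t := by
  simpa using sum_exc_le hP {p} (by simpa using hp) (by simpa using hst) ht

/-- small excess near x forces a point of P near x -/
lemma exists_near {x : ℂ} (h : mu P (ball x (1 / 50)) ≤ 1 / 1000) : ∃ p ∈ P, ‖p - x‖ ≤ 3 / 5 := by
  by_contra hn
  push Not at hn
  have h1 : mu P (ball x (1 / 50)) = π / 2500 := by
    rw [mu, setIntegral_congr_fun (g := fun _ => 1) measurableSet_ball, setIntegral_const,
      measureReal_def, Complex.volume_ball, ENNReal.toReal_mul, ENNReal.toReal_pow,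
      ENNReal.toReal_ofReal (by norm_num)]
    · simp; ring
    · intro y hy
      refine dens_of_not fun p hp hyp => ?_
      have h2 := hn p hp
      have h3 := hyp.1
      rw [mem_ball, dist_eq_norm] at hy
      have : ‖p - x‖ ≤ ‖y - x‖ + ‖y - p‖ := by
        calc ‖p - x‖ = ‖(y - x) - (y - p)‖ := by congr 1; ring
          _ ≤ _ := norm_sub_le _ _
      linarith [rho_lt]
  linarith [pi_gt_three]

lemma integral_mul_dens {w : ℂ → ℝ} (hw : Integrable w) {c : ℂ} {r : ℝ}
    (h0 : ∀ᵐ x, x ∉ ball c r → w x = 0) :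
    ∫ x, w x * dens P x = (∫ x, w x) - ∑ p ∈ (hP.finite_ball c (r + 1)).toFinset,
      kap / volume.real (cell P p) * ∫ x in cell P p, w x := by
  have h1 : ∀ p, kap / volume.real (cell P p) * ∫ x in cell P p, w x =
      ∫ x, (cell P p).indicator (fun x => kap / volume.real (cell P p) * w x) x := fun p => by
    rw [integral_indicator (measurableSet_cell hP p), integral_const_mul]
  have h2 : ∀ p, Integrable ((cell P p).indicator fun x => kap / volume.real (cell P p) * w x) :=
    fun p => (hw.const_mul _).indicator (measurableSet_cell hP p)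
  simp_rw [h1]
  rw [← integral_finsetSum _ fun p _ => h2 p, ← integral_sub hw
    (integrable_finsetSum _ fun p _ => h2 p)]
  refine integral_congr_ae ?_
  filter_upwards [h0] with x hx
  by_cases hb : x ∈ ball c r
  · rw [dens_eq_sum hP hb, mul_sub, mul_one, Finset.mul_sum]
    congr 1
    refine Finset.sum_congr rfl fun p _ => ?_
    by_cases hc : x ∈ cell P p
    · simp [indicator_of_mem hc, mul_comm]
    · simp [indicator_of_notMem hc]
  · have h3 := hx hb
    rw [h3, zero_mul, Finset.sum_eq_zero, sub_zero]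
    intro p _
    by_cases hc : x ∈ cell P p
    · simp [indicator_of_mem hc, h3]
    · simp [indicator_of_notMem hc]

end

end Pool.Agent.MP_2616de_co

end MrgPart1

-- ======== part 2: formerly Pool.Agent.MP_2616de_co.Wind
section MrgPart2

set_option maxSynthPendingDepth 3
set_option linter.unusedSectionVars false

namespace Pool.Agent.MP_2616de_co

open MeasureTheory Set Metric Real Filter Topology

lemma coe_angle_sum {ι : Type*} (s : Finset ι) (f : ι → ℝ) :
    ((∑ i ∈ s, f i : ℝ) : Real.Angle) = ∑ i ∈ s, (f i : Real.Angle) :=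
  map_sum Real.Angle.coeHom f s

lemma exists_int_of_angle {a b : ℝ} (h : (a : Real.Angle) = b) : ∃ n : ℤ, a = b + 2 * π * n := by
  obtain ⟨k, hk⟩ := Real.Angle.angle_eq_iff_two_pi_dvd_sub.1 h
  exact ⟨k, by linarith⟩

lemma int_eq_of_two_pi {a : ℝ} {n m : ℤ} (h : a = 2 * π * n) (h1 : 2 * π * (m - 1) < a)
    (h2 : a < 2 * π * (m + 1)) : n = m := by
  have hp : 0 < 2 * π := by positivity
  rw [h] at h1 h2
  have h3 : ((m - 1 : ℤ) : ℝ) < n := by push_cast; exact lt_of_mul_lt_mul_left h1 hp.le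
  have h4 : (n : ℝ) < ((m + 1 : ℤ) : ℝ) := by push_cast; exact lt_of_mul_lt_mul_left h2 hp.le
  have h5 : m - 1 < n := by exact_mod_cast h3
  have h6 : n < m + 1 := by exact_mod_cast h4
  omega

lemma eq_of_angle {a b : ℝ} (h : (a : Real.Angle) = b) (h1 : |a - b| < 2 * π) : a = b := by
  obtain ⟨n, hn⟩ := exists_int_of_angle h
  have := int_eq_of_two_pi (a := a - b) (n := n) (m := 0) (by linarith)
    (by simpa using (abs_lt.1 h1).1) (by simpa using (abs_lt.1 h1).2)
  rw [this] at hn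
  simpa using hn

/-- a continuous function which is constant modulo two pi is constant -/
lemma const_of_angle {S : Set ℂ} (hS : IsPreconnected S) {f : ℂ → ℝ} (hf : ContinuousOn f S)
    {θ : Real.Angle} (h : ∀ x ∈ S, (f x : Real.Angle) = θ) {x y : ℂ} (hx : x ∈ S) (hy : y ∈ S) :
    f x = f y := by
  have key : ∀ x ∈ S, ∀ y ∈ S, ¬ f x < f y := by
    intro x hx y hy hlt
    obtain ⟨n, hn⟩ := exists_int_of_angle ((h y hy).trans (h x hx).symm)
    have hp := pi_pos
    have h1 : 0 < n := by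
      have : (0 : ℝ) < n := by nlinarith
      exact_mod_cast this
    have h2 : (1 : ℝ) ≤ n := by exact_mod_cast h1
    obtain ⟨z, hz, hz'⟩ := hS.intermediate_value hx hy hf
      (show f x + π ∈ Icc (f x) (f y) from ⟨by linarith, by nlinarith⟩)
    have h3 := eq_of_angle ((h z hz).trans (h x hx).symm) (by rw [hz']; simp [abs_of_pos hp, hp])
    linarith
  exact le_antisymm (not_lt.1 (key y hy x hx)) (not_lt.1 (key x hx y hy))

lemma div_im_cr (a b : ℂ) : (b / a).im = cr a b / Complex.normSq a := by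
  rw [Complex.div_im, cr]; ring

lemma ne_zero_of_cr {a b : ℂ} (h : cr a b ≠ 0) : a ≠ 0 ∧ b ≠ 0 := by
  constructor <;> rintro rfl <;> simp [cr] at h

lemma arg_mem_of_im_pos {z : ℂ} (h : 0 < z.im) : 0 < z.arg ∧ z.arg < π := by
  refine ⟨?_, Complex.arg_lt_pi_iff.2 (Or.inr h.ne')⟩
  rcases (Complex.arg_nonneg_iff.2 h.le).lt_or_eq with h1 | h1
  · exact h1
  · exact absurd (Complex.arg_eq_zero_iff.1 h1.symm).2 h.ne'

lemma arg_mem_of_im_neg {z : ℂ} (h : z.im < 0) : -π < z.arg ∧ z.arg < 0 :=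
  ⟨Complex.neg_pi_lt_arg z, Complex.arg_neg_iff.2 h⟩

lemma arg_of_cr_pos {a b : ℂ} (h : 0 < cr a b) : 0 < (b / a).arg ∧ (b / a).arg < π := by
  apply arg_mem_of_im_pos
  rw [div_im_cr]
  exact div_pos h (Complex.normSq_pos.2 (ne_zero_of_cr h.ne').1)

lemma arg_of_cr_neg {a b : ℂ} (h : cr a b < 0) : -π < (b / a).arg ∧ (b / a).arg < 0 := by
  apply arg_mem_of_im_neg
  rw [div_im_cr]
  exact div_neg_of_neg_of_pos h (Complex.normSq_pos.2 (ne_zero_of_cr h.ne).1)

lemma arg_div_swap {a b : ℂ} (h : cr a b ≠ 0) : (a / b).arg = -(b / a).arg := by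
  rw [← inv_div, Complex.arg_inv, if_neg]
  rcases h.lt_or_gt with h | h
  · linarith [(arg_of_cr_neg h).2, pi_pos]
  · exact (arg_of_cr_pos h).2.ne

lemma arg_tri {a b c x : ℂ} (h : 0 < cr (b - a) (c - a)) (h1 : cr (a - x) (b - x) ≠ 0)
    (h2 : cr (b - x) (c - x) ≠ 0) (h3 : cr (c - x) (a - x) ≠ 0) :
    ((b - x) / (a - x)).arg + ((c - x) / (b - x)).arg + ((a - x) / (c - x)).arg =
      2 * π * (tri a b c).indicator 1 x := by
  have ha := (ne_zero_of_cr h1).1
  have hb := (ne_zero_of_cr h1).2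
  have hc := (ne_zero_of_cr h2).2
  have hang : ((((b - x) / (a - x)).arg + ((c - x) / (b - x)).arg + ((a - x) / (c - x)).arg : ℝ) :
      Real.Angle) = (0 : ℝ) := by
    rw [Real.Angle.coe_add, Real.Angle.coe_add, Complex.arg_div_coe_angle hb ha,
      Complex.arg_div_coe_angle hc hb, Complex.arg_div_coe_angle ha hc]
    simp
  obtain ⟨n, hn⟩ := exists_int_of_angle hang
  rw [zero_add] at hn
  have hsum : cr (b - a) (c - a) =
      cr (a - x) (b - x) + cr (b - x) (c - x) + cr (c - x) (a - x) := by simp [cr]; ring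
  have hp := pi_pos
  by_cases hx : x ∈ tri a b c
  · obtain ⟨p1, p2, p3⟩ := hx
    have q1 := arg_of_cr_pos p1
    have q2 := arg_of_cr_pos p2
    have q3 := arg_of_cr_pos p3
    have := int_eq_of_two_pi (m := 1) hn (by push_cast; linarith) (by push_cast; linarith)
    rw [hn, this, indicator_of_mem (show x ∈ tri a b c from ⟨p1, p2, p3⟩)]
    simp
  · have : n = 0 := by
      simp only [tri, mem_ofPred_eq, not_and] at hx
      rcases h1.lt_or_gt with p1 | p1 <;> rcases h2.lt_or_gt with p2 | p2 <;>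
        rcases h3.lt_or_gt with p3 | p3
      · linarith
      all_goals first
        | exact absurd p3 (hx p1 p2)
        | (have q1 := (by first | exact arg_of_cr_pos p1 | exact arg_of_cr_neg p1 :
              _ < ((b - x) / (a - x)).arg ∧ ((b - x) / (a - x)).arg < _)
           have q2 := (by first | exact arg_of_cr_pos p2 | exact arg_of_cr_neg p2 :
              _ < ((c - x) / (b - x)).arg ∧ ((c - x) / (b - x)).arg < _)
           have q3 := (by first | exact arg_of_cr_pos p3 | exact arg_of_cr_neg p3 :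
              _ < ((a - x) / (c - x)).arg ∧ ((a - x) / (c - x)).arg < _)
           exact int_eq_of_two_pi (m := 0) hn (by push_cast; linarith) (by push_cast; linarith))
    rw [hn, this, indicator_of_notMem hx]
    simp

lemma mem_slitPlane_of_not_mem_segment {a b x : ℂ} (h : x ∉ segment ℝ a b) :
    a - x ≠ 0 ∧ b - x ≠ 0 ∧ (b - x) / (a - x) ∈ Complex.slitPlane := by
  have ha : a - x ≠ 0 := fun h1 => h (by rw [← sub_eq_zero.1 h1]; exact left_mem_segment _ _ _)
  have hb : b - x ≠ 0 := fun h1 => h (by rw [← sub_eq_zero.1 h1]; exact right_mem_segment _ _ _)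
  refine ⟨ha, hb, ?_⟩
  by_contra hn
  rw [Complex.mem_slitPlane_iff] at hn
  push Not at hn
  set s := ((b - x) / (a - x)).re with hs
  have h1 : (b - x) / (a - x) = s := Complex.ext rfl (by simpa using hn.2)
  rw [div_eq_iff ha] at h1
  have h2 : 0 < 1 - s := by linarith [hn.1]
  apply h
  refine ⟨-s / (1 - s), 1 / (1 - s), div_nonneg (by linarith [hn.1]) h2.le, by positivity,
    by field_simp; ring, ?_⟩
  have h3 : (1 - (s : ℂ)) ≠ 0 := by exact_mod_cast h2.ne'
  simp only [Complex.real_smul]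
  push_cast
  field_simp
  linear_combination h1

lemma continuousOn_arg_seg {a b : ℂ} {S : Set ℂ} (h : ∀ x ∈ S, x ∉ segment ℝ a b) :
    ContinuousOn (fun x => ((b - x) / (a - x)).arg) S := by
  intro x hx
  obtain ⟨h1, _, h3⟩ := mem_slitPlane_of_not_mem_segment (h x hx)
  refine ContinuousAt.continuousWithinAt ?_
  exact ContinuousAt.comp (f := fun x => (b - x) / (a - x)) (Complex.continuousAt_arg h3)
    (by fun_prop (disch := exact h1))

lemma arg_split {s : ℂ} (h : s.im ≠ 0) :
    ((1 + s) / s).arg = (1 + s).arg - s.arg ∧ (s / (1 + s)).arg = s.arg - (1 + s).arg := by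
  have hs : s ≠ 0 := by rintro rfl; simp at h
  have hs1 : 1 + s ≠ 0 := by
    intro h1; apply h; have := congrArg Complex.im h1; simpa using this
  have hb : |(1 + s).arg - s.arg| < π := by
    rcases h.lt_or_gt with h | h
    · have q1 := arg_mem_of_im_neg h
      have q2 := arg_mem_of_im_neg (z := 1 + s) (by simpa using h)
      rw [abs_lt]; constructor <;> linarith
    · have q1 := arg_mem_of_im_pos h
      have q2 := arg_mem_of_im_pos (z := 1 + s) (by simpa using h)
      rw [abs_lt]; constructor <;> linarith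
  rw [abs_lt] at hb
  constructor
  · apply eq_of_angle
    · rw [Complex.arg_div_coe_angle hs1 hs, Real.Angle.coe_sub]
    · have := abs_le.1 (Complex.abs_arg_le_pi ((1 + s) / s))
      rw [abs_lt]; constructor <;> linarith
  · apply eq_of_angle
    · rw [Complex.arg_div_coe_angle hs hs1, Real.Angle.coe_sub]
    · have := abs_le.1 (Complex.abs_arg_le_pi (s / (1 + s)))
      rw [abs_lt]; constructor <;> linarith

/-- winding number of a closed polygon about x -/
noncomputable def wind (p : ℕ → ℂ) (M : ℕ) (x : ℂ) : ℝ :=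
  (∑ j ∈ Finset.range M, ((p (j + 1) - x) / (p j - x)).arg) / (2 * π)

lemma measurable_wind (p : ℕ → ℂ) (M : ℕ) : Measurable (wind p M) := by
  unfold wind
  refine Measurable.div_const (Finset.measurable_sum _ fun j _ => ?_) _
  exact Complex.measurable_arg.comp (by fun_prop)

lemma abs_wind_le (p : ℕ → ℂ) (M : ℕ) (x : ℂ) : |wind p M x| ≤ M / 2 := by
  have hp := pi_pos
  rw [wind, abs_div, abs_of_pos (by positivity : 0 < 2 * π), div_le_iff₀ (by positivity)]
  refine (Finset.abs_sum_le_sum_abs _ _).trans ?_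
  refine (Finset.sum_le_sum fun j _ => Complex.abs_arg_le_pi _).trans ?_
  simp; ring_nf; rfl

lemma wind_angle {p : ℕ → ℂ} {M : ℕ} (hM : p M = p 0) {x : ℂ} (hx : ∀ j ≤ M, p j - x ≠ 0) :
    ((∑ j ∈ Finset.range M, ((p (j + 1) - x) / (p j - x)).arg : ℝ) : Real.Angle) = (0 : ℝ) := by
  rw [coe_angle_sum, Finset.sum_congr rfl (g := fun j => (((p (j + 1) - x).arg : Real.Angle)) -
    ((p j - x).arg : Real.Angle)), Finset.sum_range_sub (fun j => ((p j - x).arg : Real.Angle)), hM]
  · simp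
  · intro j hj
    rw [Finset.mem_range] at hj
    exact Complex.arg_div_coe_angle (hx _ hj) (hx _ hj.le)

lemma wind_ae {p : ℕ → ℂ} {M : ℕ} (hM : p M = p 0) {c : ℂ}
    (hc : ∀ j < M, 0 < cr (p j - c) (p (j + 1) - c)) :
    wind p M =ᵐ[volume] fun x => ∑ j ∈ Finset.range M,
      (tri c (p j) (p (j + 1))).indicator (1 : ℂ → ℝ) x := by
  have h0 : ∀ᵐ x : ℂ, ∀ j ∈ Finset.range M, cr (c - x) (p j - x) ≠ 0 ∧
      cr (p j - x) (p (j + 1) - x) ≠ 0 ∧ cr (p (j + 1) - x) (c - x) ≠ 0 := by
    rw [Filter.eventually_all_finset]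
    intro j hj
    have h := hc j (Finset.mem_range.1 hj)
    have h1 : c ≠ p j := by rintro rfl; simp [cr] at h
    have h2 : p (j + 1) ≠ c := by rintro rfl; simp [cr] at h
    have h3 : p j ≠ p (j + 1) := by intro h3; rw [← h3] at h; simp [cr, mul_comm] at h
    refine Eventually.and ?_ (Eventually.and ?_ ?_) <;> rw [ae_iff]
    · simpa using vol_line _ _ h1
    · simpa using vol_line _ _ h3
    · simpa using vol_line _ _ h2
  filter_upwards [h0] with x hx
  have hp := pi_pos
  rw [wind, div_eq_iff (by positivity), Finset.sum_mul]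
  have h1 : ∀ j ∈ Finset.range M, ((p (j + 1) - x) / (p j - x)).arg =
      (tri c (p j) (p (j + 1))).indicator (1 : ℂ → ℝ) x * (2 * π) +
        (((p (j + 1) - x) / (c - x)).arg - ((p j - x) / (c - x)).arg) := by
    intro j hj
    obtain ⟨h1, h2, h3⟩ := hx j hj
    have h4 := arg_tri (hc j (Finset.mem_range.1 hj)) h1 h2 h3
    rw [arg_div_swap (a := c - x) (b := p (j + 1) - x)] at h4
    · linarith
    · intro h5; apply h3
      simp only [cr] at h5 ⊢
      linarith
  rw [Finset.sum_congr rfl h1, Finset.sum_add_distrib,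
    Finset.sum_range_sub (fun j => ((p j - x) / (c - x)).arg), hM, sub_self, add_zero]

lemma vol_tri_ne_top (a b c : ℂ) : volume (tri a b c) ≠ ⊤ := by
  have h : tri a b c ⊆ ball 0 (‖a‖ + ‖b‖ + ‖c‖ + 1) := by
    apply tri_subset_of_convex (convex_ball _ _) <;> rw [mem_ball_zero_iff] <;>
      linarith [norm_nonneg a, norm_nonneg b, norm_nonneg c]
  exact ((measure_mono h).trans_lt measure_ball_lt_top).ne

lemma integrable_wind {p : ℕ → ℂ} {M : ℕ} (hM : p M = p 0) {c : ℂ}
    (hc : ∀ j < M, 0 < cr (p j - c) (p (j + 1) - c)) : Integrable (wind p M) := by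
  rw [integrable_congr (wind_ae hM hc)]
  refine integrable_finsetSum _ fun j _ => ?_
  rw [integrable_indicator_iff (measurableSet_tri _ _ _)]
  exact integrableOn_const (vol_tri_ne_top _ _ _)

lemma integral_wind {p : ℕ → ℂ} {M : ℕ} (hM : p M = p 0) {c : ℂ}
    (hc : ∀ j < M, 0 < cr (p j - c) (p (j + 1) - c)) :
    ∫ x, wind p M x = ∑ j ∈ Finset.range M, cr (p j - c) (p (j + 1) - c) / 2 := by
  rw [integral_congr_ae (wind_ae hM hc), integral_finsetSum]
  · refine Finset.sum_congr rfl fun j hj => ?_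
    have h := hc j (Finset.mem_range.1 hj)
    rw [integral_indicator_one (measurableSet_tri _ _ _), measureReal_def, vol_tri _ _ _ h,
      ENNReal.toReal_ofReal (by positivity)]
  · intro j _
    rw [integrable_indicator_iff (measurableSet_tri _ _ _)]
    exact integrableOn_const (vol_tri_ne_top _ _ _)

lemma wind_zero_ae {p : ℕ → ℂ} {M : ℕ} (hM : p M = p 0) {c : ℂ}
    (hc : ∀ j < M, 0 < cr (p j - c) (p (j + 1) - c)) {s : Set ℂ} (hs : Convex ℝ s) (hcs : c ∈ s)
    (hps : ∀ j ≤ M, p j ∈ s) : ∀ᵐ x, x ∉ s → wind p M x = 0 := by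
  filter_upwards [wind_ae hM hc] with x hx hxs
  rw [hx]
  refine Finset.sum_eq_zero fun j hj => indicator_of_notMem (fun h => hxs ?_) _
  rw [Finset.mem_range] at hj
  exact tri_subset_of_convex hs hcs (hps j hj.le) (hps _ hj) h

lemma arg_le_of_near {a b : ℂ} {t : ℝ} (ht : t ≤ 1) (h : ‖b - a‖ ≤ t * ‖a‖) (ha : a ≠ 0) :
    (b / a).arg ≤ π / 2 * t := by
  have h1 : ‖b / a - 1‖ ≤ t := by
    have : b / a - 1 = (b - a) / a := by field_simp
    rw [this, norm_div, div_le_iff₀ (norm_pos_iff.2 ha)]; exact h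
  set z := b / a
  have ht0 : 0 ≤ t := (norm_nonneg _).trans h1
  have h2 : (z.re - 1) ^ 2 + z.im ^ 2 ≤ t ^ 2 := by
    have : ‖z - 1‖ ^ 2 ≤ t ^ 2 := by gcongr
    rw [Complex.sq_norm, Complex.normSq_apply] at this
    simp at this
    nlinarith
  have hre : 0 ≤ z.re := by nlinarith
  have h3 := abs_le.1 (Complex.abs_arg_le_pi_div_two_iff.2 hre)
  have hp := pi_pos
  by_cases h0 : z.arg ≤ 0
  · exact h0.trans (by positivity)
  push Not at h0
  have hz : z ≠ 0 := by intro h; rw [h] at h0; simp at h0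
  have hn : 0 < ‖z‖ := norm_pos_iff.2 hz
  have h4 := mul_le_sin h0.le h3.2
  rw [Complex.sin_arg] at h4
  have h5 : z.im / ‖z‖ ≤ t := by
    rw [div_le_iff₀ hn]
    by_cases him : z.im ≤ 0
    · exact him.trans (by positivity)
    push Not at him
    rw [← sq_le_sq₀ him.le (by positivity), mul_pow, Complex.sq_norm, Complex.normSq_apply]
    have h6 : 0 ≤ 1 - t ^ 2 := by nlinarith
    nlinarith [sq_nonneg (z.re * (1 - t ^ 2) + z.re * t ^ 2 - (1 - t ^ 2) - t ^ 2 * z.re + 0),
      sq_nonneg (z.re - (1 - t ^ 2)), mul_nonneg h6 (sub_nonneg.2 h2)]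
  have h6 : 2 / π * z.arg ≤ t := h4.trans h5
  rw [div_mul_eq_mul_div, div_le_iff₀ hp] at h6
  linarith

lemma wind_eq_one {p : ℕ → ℂ} {M : ℕ} (hM0 : 0 < M) (hM : p M = p 0) {c : ℂ}
    (hc : ∀ j < M, 0 < cr (p j - c) (p (j + 1) - c)) {t : ℝ} (ht : t ≤ 1) (htM : M * t < 8)
    (hstep : ∀ j < M, ‖p (j + 1) - p j‖ ≤ t * ‖p j - c‖) {S : Set ℂ} (hS : IsPreconnected S)
    (hcS : c ∈ S) (hseg : ∀ j < M, ∀ x ∈ S, x ∉ segment ℝ (p j) (p (j + 1))) {x : ℂ} (hx : x ∈ S) :
    wind p M x = 1 := by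
  have hp := pi_pos
  have hne : ∀ x ∈ S, ∀ j ≤ M, p j - x ≠ 0 := by
    intro x hx j hj
    rcases hj.lt_or_eq with h | h
    · exact (mem_slitPlane_of_not_mem_segment (hseg j h x hx)).1
    · rw [h, hM]; exact (mem_slitPlane_of_not_mem_segment (hseg 0 hM0 x hx)).1
  have h1 := const_of_angle hS
    (f := fun x => ∑ j ∈ Finset.range M, ((p (j + 1) - x) / (p j - x)).arg)
    (continuousOn_finsetSum _ fun j hj => continuousOn_arg_seg (hseg j (Finset.mem_range.1 hj)))
    (fun x hx => wind_angle hM (hne x hx)) hx hcS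
  rw [wind, h1, div_eq_one_iff_eq (by positivity)]
  obtain ⟨n, hn⟩ := exists_int_of_angle (wind_angle hM (hne c hcS))
  rw [zero_add] at hn
  have h2 : 0 < ∑ j ∈ Finset.range M, ((p (j + 1) - c) / (p j - c)).arg :=
    Finset.sum_pos (fun j hj => (arg_of_cr_pos (hc j (Finset.mem_range.1 hj))).1)
      ⟨0, Finset.mem_range.2 hM0⟩
  have h3 : ∑ j ∈ Finset.range M, ((p (j + 1) - c) / (p j - c)).arg ≤
      ∑ j ∈ Finset.range M, π / 2 * t := Finset.sum_le_sum fun j hj => by
    rw [Finset.mem_range] at hj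
    refine arg_le_of_near ht ?_ (hne c hcS j hj.le)
    simpa using hstep j hj
  simp only [Finset.sum_const, Finset.card_range, nsmul_eq_mul] at h3
  have := int_eq_of_two_pi (m := 1) hn (by push_cast; linarith) (by push_cast; nlinarith)
  rw [hn, this]; simp

end Pool.Agent.MP_2616de_co

end MrgPart2

-- ======== part 3: formerly Pool.Agent.MP_2616de_co.WindCell
section MrgPart3

set_option maxSynthPendingDepth 3
set_option linter.unusedSectionVars false

namespace Pool.Agent.MP_2616de_co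

open MeasureTheory Set Metric Real Filter Topology Classical

lemma not_mem_segment {a b q x : ℂ} (ha : 1 ≤ ‖q - a‖) (hb : 1 ≤ ‖q - b‖) (hab : ‖b - a‖ < 2 * rho)
    (hx : x ∈ ball q rho) : x ∉ segment ℝ a b := by
  rintro ⟨s, t, hs, ht, hst, rfl⟩
  rw [mem_ball, dist_eq_norm] at hx
  have h1 : ‖s • a + t • b - q‖ ^ 2 < rho ^ 2 := by gcongr
  have h2 : 1 ≤ ‖q - a‖ ^ 2 := by nlinarith
  have h3 : 1 ≤ ‖q - b‖ ^ 2 := by nlinarith
  have h4 : ‖b - a‖ ^ 2 < (2 * rho) ^ 2 := by gcongr
  rw [mul_pow, rho_sq] at h4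
  rw [rho_sq] at h1
  rw [norm_sq_eq] at h1 h2 h3 h4
  simp only [Complex.sub_re, Complex.sub_im, Complex.add_re, Complex.add_im, Complex.smul_re,
    Complex.smul_im, smul_eq_mul] at h1 h2 h3 h4
  obtain rfl : s = 1 - t := by linarith
  have key : ((1 - t) * a.re + t * b.re - q.re) ^ 2 + ((1 - t) * a.im + t * b.im - q.im) ^ 2 =
      (1 - t) * ((q.re - a.re) ^ 2 + (q.im - a.im) ^ 2) +
        t * ((q.re - b.re) ^ 2 + (q.im - b.im) ^ 2) -
        t * (1 - t) * ((b.re - a.re) ^ 2 + (b.im - a.im) ^ 2) := by ring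
  rw [key] at h1
  have h5 : 0 ≤ t * (1 - t) := mul_nonneg ht hs
  have h6 : t * (1 - t) ≤ 1 / 4 := by nlinarith [sq_nonneg (t - 1 / 2)]
  nlinarith [mul_le_mul_of_nonneg_left h2 hs, mul_le_mul_of_nonneg_left h3 ht,
    mul_le_mul_of_nonneg_left h4.le h5]

lemma integral_arg_ball {q A : ℂ} (hA : A ≠ 0) :
    ∫ x in ball q rho, ((q - x) / A).arg = ∫ z in ball (0 : ℂ) rho, (-z).arg := by
  have hn : 0 < ‖A‖ := norm_pos_iff.2 hA
  have hu : ‖A / (‖A‖ : ℝ)‖ = 1 := by simp [hn.ne']
  have hmp := mp_rot q _ hu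
  have hm : Measurable fun z : ℂ => (ball (0 : ℂ) rho).indicator (fun z => (-z).arg) z :=
    (Complex.measurable_arg.comp measurable_neg).indicator measurableSet_ball
  rw [← integral_indicator measurableSet_ball, ← integral_indicator measurableSet_ball]
  conv_rhs => rw [← hmp.map_eq]
  rw [integral_map hmp.measurable.aemeasurable hm.aestronglyMeasurable]
  congr 1
  funext x
  have h1 : (x - q) / (A / (‖A‖ : ℝ)) ∈ ball (0 : ℂ) rho ↔ x ∈ ball q rho := by
    rw [mem_ball_zero_iff, norm_div, hu, div_one, mem_ball, dist_eq_norm]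
  by_cases hx : x ∈ ball q rho
  · rw [indicator_of_mem hx, indicator_of_mem (h1.2 hx), ← Complex.arg_real_mul _ hn]
    congr 1
    have : ((‖A‖ : ℝ) : ℂ) ≠ 0 := by exact_mod_cast hn.ne'
    field_simp
    ring
  · rw [indicator_of_notMem hx, indicator_of_notMem (fun h => hx (h1.1 h))]

noncomputable def th (p : ℕ → ℂ) (M : ℕ) (q : ℂ) : ℝ := ∑ i ∈ Finset.range M,
  ((if q = p i then (p (i + 1) - p i).arg else 0) -
    (if q = p (i + 1) then (p i - p (i + 1)).arg else 0))

noncomputable def bq (p : ℕ → ℂ) (M : ℕ) (q : ℂ) : ℝ := ∑ i ∈ Finset.range M,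
  ((if q = p (i + 1) then π else 0) + (if q = p i then π else 0))

noncomputable def Gq (p : ℕ → ℂ) (M : ℕ) (q x : ℂ) : ℝ := ∑ i ∈ Finset.range M,
  ((if q = p (i + 1) then ((q - x) / (p i - q)).arg else 0) -
    (if q = p i then ((q - x) / (p (i + 1) - q)).arg else 0))

noncomputable def Hq (p : ℕ → ℂ) (M : ℕ) (q x : ℂ) : ℝ := ∑ i ∈ Finset.range M,
  (if q = p (i + 1) then -((p i - x) / (p i - q)).arg
    else if q = p i then ((p (i + 1) - x) / (p (i + 1) - q)).arg
    else ((p (i + 1) - x) / (p i - x)).arg)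

lemma abs_Gq_le (p : ℕ → ℂ) (M : ℕ) (q x : ℂ) : |Gq p M q x| ≤ bq p M q := by
  refine (Finset.abs_sum_le_sum_abs _ _).trans (Finset.sum_le_sum fun i _ => ?_)
  refine (abs_sub _ _).trans (add_le_add ?_ ?_) <;> split_ifs <;>
    first | exact Complex.abs_arg_le_pi _ | simp

lemma measurable_Gq (p : ℕ → ℂ) (M : ℕ) (q : ℂ) : Measurable (Gq p M q) := by
  unfold Gq
  refine Finset.measurable_sum _ fun i _ => Measurable.sub ?_ ?_ <;> split_ifs <;>
    first | exact measurable_const | exact Complex.measurable_arg.comp (by fun_prop)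

section
variable {P : Set ℂ} (hP : Sep P) {p : ℕ → ℂ} {M : ℕ} (hM : p M = p 0) (hpP : ∀ j ≤ M, p j ∈ P)
  (hne : ∀ j < M, p j ≠ p (j + 1)) (hlen : ∀ j < M, ‖p (j + 1) - p j‖ < 2 * rho)
  {q : ℂ} (hq : q ∈ P)
include hP hM hpP hne hlen hq

lemma wind_split : ∀ᵐ x : ℂ, ∑ j ∈ Finset.range M, ((p (j + 1) - x) / (p j - x)).arg =
    Hq p M q x + Gq p M q x := by
  have h0 : ∀ᵐ x : ℂ, ∀ j ∈ Finset.range M, cr (p j - x) (p (j + 1) - x) ≠ 0 := by
    rw [Filter.eventually_all_finset]
    intro j hj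
    rw [ae_iff]
    simpa using vol_line _ _ (hne j (Finset.mem_range.1 hj))
  filter_upwards [h0] with x hx
  rw [Hq, Gq, ← Finset.sum_add_distrib]
  refine Finset.sum_congr rfl fun i hi => ?_
  have h1 := hx i hi
  have h2 := hne i (Finset.mem_range.1 hi)
  obtain ⟨h3, h4⟩ := ne_zero_of_cr h1
  by_cases e1 : q = p (i + 1)
  · have e2 : q ≠ p i := fun h => h2 (h.symm.trans e1)
    rw [if_pos e1, if_pos e1, if_neg e2, ← e1]
    have h5 : p i - q ≠ 0 := sub_ne_zero.2 e2.symm
    have h6 : ((q - x) / (p i - q)).im ≠ 0 := by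
      rw [div_im_cr]
      refine div_ne_zero (fun h => h1 ?_) (Complex.normSq_pos.2 h5).ne'
      rw [← e1]
      simp only [cr, Complex.sub_re, Complex.sub_im] at h ⊢
      linarith
    have h7 := (arg_split h6).2
    have h8 : 1 + (q - x) / (p i - q) = (p i - x) / (p i - q) := by field_simp; ring
    rw [h8, div_div_div_cancel_right₀ h5] at h7
    linarith
  · by_cases e2 : q = p i
    · rw [if_neg e1, if_neg e1, if_pos e2, if_pos e2, ← e2]
      have h5 : p (i + 1) - q ≠ 0 := sub_ne_zero.2 (Ne.symm e1)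
      have h6 : ((q - x) / (p (i + 1) - q)).im ≠ 0 := by
        rw [div_im_cr]
        refine div_ne_zero (fun h => h1 ?_) (Complex.normSq_pos.2 h5).ne'
        rw [← e2]
        simp only [cr, Complex.sub_re, Complex.sub_im] at h ⊢
        linarith
      have h7 := (arg_split h6).1
      have h8 : 1 + (q - x) / (p (i + 1) - q) = (p (i + 1) - x) / (p (i + 1) - q) := by
        field_simp; ring
      rw [h8, div_div_div_cancel_right₀ h5] at h7
      linarith
    · simp [e1, e2]

omit hM hne hlen in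
lemma ratio_re_pos {a x : ℂ} (ha : a ∈ P) (hne : q ≠ a) (hx : x ∈ ball q rho) :
    0 < ((a - x) / (a - q)).re := by
  have h1 := hP a ha q hq hne.symm
  have h5 : a - q ≠ 0 := sub_ne_zero.2 hne.symm
  have h8 : (a - x) / (a - q) = 1 + (q - x) / (a - q) := by field_simp; ring
  have h2 : ‖(q - x) / (a - q)‖ < 1 := by
    rw [norm_div, div_lt_one (by linarith), norm_sub_rev, ← dist_eq_norm]
    linarith [mem_ball.1 hx, rho_lt]
  have h3 := (abs_le.1 (Complex.abs_re_le_norm ((q - x) / (a - q)))).1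
  rw [h8]; simp only [Complex.add_re, Complex.one_re]; linarith

lemma continuousOn_Hq : ContinuousOn (Hq p M q) (ball q rho) := by
  unfold Hq
  refine continuousOn_finsetSum _ fun i hi => ?_
  rw [Finset.mem_range] at hi
  have h2 := hne i hi
  have key : ∀ a ∈ P, q ≠ a → ContinuousOn (fun x => ((a - x) / (a - q)).arg) (ball q rho) := by
    intro a ha hqa x hx
    refine ContinuousAt.continuousWithinAt ?_
    exact ContinuousAt.comp (f := fun x => (a - x) / (a - q))
      (Complex.continuousAt_arg (Or.inl (ratio_re_pos hP hpP hq ha hqa hx))) (by fun_prop)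
  split_ifs with e1 e2
  · exact (key _ (hpP i hi.le) fun h => h2 (h.symm.trans e1)).neg
  · exact key _ (hpP _ hi) e1
  · exact continuousOn_arg_seg fun x hx => not_mem_segment (hP q hq _ (hpP i hi.le) e2)
      (hP q hq _ (hpP _ hi) e1) (hlen i hi) hx

lemma Hq_angle {x : ℂ} (hx : x ∈ ball q rho) :
    (Hq p M q x : Real.Angle) = ((-th p M q : ℝ) : Real.Angle) := by
  have hne' : ∀ a ∈ P, q ≠ a → a - x ≠ 0 := by
    intro a ha hqa h
    have := ratio_re_pos hP hpP hq ha hqa hx
    rw [h] at this; simp at this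
  set b : ℕ → Real.Angle := fun i => if q = p i then 0 else ((p i - x).arg : Real.Angle) with hb
  have h1 : ∑ i ∈ Finset.range M, (b (i + 1) - b i) = 0 := by
    rw [Finset.sum_range_sub, hb]; simp only [hM, sub_self]
  rw [Hq, th, ← Finset.sum_neg_distrib, coe_angle_sum, coe_angle_sum, ← sub_eq_zero,
    ← Finset.sum_sub_distrib, ← h1]
  refine Finset.sum_congr rfl fun i hi => ?_
  rw [Finset.mem_range] at hi
  have h2 := hne i hi
  by_cases e1 : q = p (i + 1)
  · have e2 : q ≠ p i := fun h => h2 (h.symm.trans e1)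
    simp only [hb, if_pos e1, if_neg e2, ← e1, if_true, Real.Angle.coe_neg, Real.Angle.coe_sub]
    rw [Complex.arg_div_coe_angle (hne' _ (hpP i hi.le) e2) (sub_ne_zero.2 e2.symm)]
    simp
  · by_cases e2 : q = p i
    · simp only [hb, if_neg e1, if_pos e2, ← e2, if_true, Real.Angle.coe_neg, Real.Angle.coe_sub]
      rw [Complex.arg_div_coe_angle (hne' _ (hpP _ hi) e1) (sub_ne_zero.2 (Ne.symm e1))]
      simp
    · simp only [hb, if_neg e1, if_neg e2, Real.Angle.coe_neg, Real.Angle.coe_sub]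
      rw [Complex.arg_div_coe_angle (hne' _ (hpP _ hi) e1) (hne' _ (hpP i hi.le) e2)]
      simp

lemma Gq_angle {x : ℂ} (hx : x ≠ q) : (Gq p M q x : Real.Angle) = (th p M q : Real.Angle) := by
  have hx' : q - x ≠ 0 := sub_ne_zero.2 hx.symm
  set b : ℕ → Real.Angle := fun i => if q = p i then ((q - x).arg : Real.Angle) else 0 with hb
  have h1 : ∑ i ∈ Finset.range M, (b (i + 1) - b i) = 0 := by
    rw [Finset.sum_range_sub, hb]; simp only [hM, sub_self]
  rw [Gq, th, coe_angle_sum, coe_angle_sum, ← sub_eq_zero, ← Finset.sum_sub_distrib, ← h1]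
  refine Finset.sum_congr rfl fun i hi => ?_
  rw [Finset.mem_range] at hi
  have h2 := hne i hi
  by_cases e1 : q = p (i + 1)
  · have e2 : q ≠ p i := fun h => h2 (h.symm.trans e1)
    simp only [hb, if_pos e1, if_neg e2, ← e1, if_true, Real.Angle.coe_sub]
    rw [Complex.arg_div_coe_angle hx' (sub_ne_zero.2 e2.symm)]
    simp
  · by_cases e2 : q = p i
    · simp only [hb, if_neg e1, if_pos e2, ← e2, if_true, Real.Angle.coe_sub]
      rw [Complex.arg_div_coe_angle hx' (sub_ne_zero.2 (Ne.symm e1))]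
      simp
    · simp [hb, e1, e2]

lemma Gq_const {q' : ℂ} (hq' : q' ∈ near hP q) (b : Bool) :
    ∃ c, ∀ x ∈ HK q q' b, Gq p M q x = c := by
  by_cases hne' : (HK q q' b).Nonempty
  swap
  · exact ⟨0, fun x hx => absurd ⟨x, hx⟩ hne'⟩
  obtain ⟨y, hy⟩ := hne'
  refine ⟨Gq p M q y, fun x hx => const_of_angle (convex_HK q' b).isPreconnected ?_
    (fun x hx => Gq_angle hP hM hpP hne hlen hq (HK_dir hP hq hq' hx).1) hx hy⟩
  have key : ∀ a ∈ near hP q, ContinuousOn (fun x => ((q - x) / (a - q)).arg) (HK q q' b) := by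
    intro a ha x hx
    refine ContinuousAt.continuousWithinAt ?_
    refine ContinuousAt.comp (f := fun x => (q - x) / (a - q)) (Complex.continuousAt_arg ?_)
      (by fun_prop)
    have h5 : a - q ≠ 0 := sub_ne_zero.2 ((mem_near hP).1 ha).2.1
    by_contra hn
    rw [Complex.mem_slitPlane_iff] at hn
    push Not at hn
    set s := ((q - x) / (a - q)).re with hs
    have h1 : (q - x) / (a - q) = s := Complex.ext rfl (by simpa using hn.2)
    rw [div_eq_iff h5] at h1
    rcases hn.1.lt_or_eq with h | h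
    · refine HK_not_ray hP hq hq' ha hx (t := -s) (by linarith) ?_
      push_cast
      linear_combination -h1
    · rw [h] at h1
      refine (HK_dir hP hq hq' hx).1 ?_
      simp only [Complex.ofReal_zero, zero_mul] at h1
      exact (sub_eq_zero.1 h1).symm
  unfold Gq
  refine continuousOn_finsetSum _ fun i hi => ?_
  rw [Finset.mem_range] at hi
  have h2 := hne i hi
  have h3 := hlen i hi
  refine ContinuousOn.sub ?_ ?_ <;> split_ifs with e
  · refine key _ ((mem_near hP).2 ⟨hpP i hi.le, fun h => h2 (h.trans e), ?_⟩)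
    rwa [e, norm_sub_rev]
  · exact continuousOn_const
  · refine key _ ((mem_near hP).2 ⟨hpP _ hi, fun h => h2 (e.symm.trans h.symm), ?_⟩)
    rwa [e]
  · exact continuousOn_const

lemma integral_Gq : ∫ x in ball q rho, Gq p M q x = 0 := by
  set I := ∫ z in ball (0 : ℂ) rho, (-z).arg with hI
  have hint : ∀ A : ℂ, IntegrableOn (fun x => ((q - x) / A).arg) (ball q rho) := fun A =>
    Measure.integrableOn_of_bounded (M := π) measure_ball_lt_top.ne
      (Complex.measurable_arg.comp (by fun_prop)).aestronglyMeasurable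
      (Eventually.of_forall fun x => Complex.abs_arg_le_pi _)
  have hint' : ∀ (c : Prop) [Decidable c] (A : ℂ),
      IntegrableOn (fun x => if c then ((q - x) / A).arg else 0) (ball q rho) := by
    intro c _ A
    split_ifs
    · exact hint A
    · exact integrableOn_zero
  set b : ℕ → ℝ := fun i => if q = p i then I else 0 with hb
  have h1 : ∑ i ∈ Finset.range M, (b (i + 1) - b i) = 0 := by
    rw [Finset.sum_range_sub, hb]; simp only [hM, sub_self]
  unfold Gq
  rw [integral_finsetSum _ fun i _ => (hint' _ _).sub' (hint' _ _)]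
  refine Eq.trans (Finset.sum_congr rfl fun i hi => ?_) h1
  rw [Finset.mem_range] at hi
  have h2 := hne i hi
  rw [integral_sub (hint' _ _) (hint' _ _), hb]
  congr 1 <;> simp only <;> split_ifs with e
  · exact integral_arg_ball (sub_ne_zero.2 fun h => h2 (h.trans e))
  · simp
  · exact integral_arg_ball (sub_ne_zero.2 fun h => h2 (e.symm.trans h.symm))
  · simp

lemma cell_wind : ∃ n : ℤ, |(∫ x in cell P q, wind p M x) -
    (n - th p M q / (2 * π)) * volume.real (cell P q)| ≤ bq p M q / (2 * π) * exc P q := by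
  have hp := pi_pos
  have hqb : q ∈ ball q rho := mem_ball_self rho_pos
  obtain ⟨n, hn⟩ := exists_int_of_angle (Hq_angle hP hM hpP hne hlen hq hqb)
  refine ⟨n, ?_⟩
  have hG := cell_integral_le hP hq (Gq p M q) _ (abs_Gq_le p M q) (measurable_Gq p M q)
    (fun q' hq' b => Gq_const hP hM hpP hne hlen hq hq' b) (integral_Gq hP hM hpP hne hlen hq)
  have hfin : volume (cell P q) ≠ ⊤ :=
    ((measure_mono (cell_subset_ball P q)).trans_lt measure_ball_lt_top).ne
  have hGi : IntegrableOn (Gq p M q) (cell P q) :=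
    Measure.integrableOn_of_bounded hfin (measurable_Gq p M q).aestronglyMeasurable
      (Eventually.of_forall (abs_Gq_le p M q))
  have h1 : ∫ x in cell P q, wind p M x =
      ∫ x in cell P q, ((n - th p M q / (2 * π)) + Gq p M q x / (2 * π)) := by
    refine setIntegral_congr_ae (measurableSet_cell hP q) ?_
    filter_upwards [wind_split hP hM hpP hne hlen hq] with x hx hxc
    have h2 := const_of_angle (convex_ball q rho).isPreconnected
      (continuousOn_Hq hP hM hpP hne hlen hq) (fun x hx => Hq_angle hP hM hpP hne hlen hq hx)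
      (cell_subset_ball P q hxc) hqb
    rw [wind, hx, h2, hn]
    field_simp
    ring
  have hk : IntegrableOn (fun _ : ℂ => (n : ℝ) - th p M q / (2 * π)) (cell P q) :=
    integrableOn_const hfin
  rw [h1, integral_add hk (hGi.div_const _), setIntegral_const,
    integral_div, smul_eq_mul, mul_comm, add_sub_cancel_left, abs_div,
    abs_of_pos (by positivity : 0 < 2 * π), div_mul_eq_mul_div]
  gcongr

end

theorem wind_dens {P : Set ℂ} (hP : Sep P) {p : ℕ → ℂ} {M : ℕ} (hM : p M = p 0) (hev : Even M)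
    (hpP : ∀ j ≤ M, p j ∈ P) (hlen : ∀ j < M, ‖p (j + 1) - p j‖ < 2 * rho) {c : ℂ}
    (hc : ∀ j < M, 0 < cr (p j - c) (p (j + 1) - c)) :
    ∃ n : ℤ, |(∫ x, wind p M x * dens P x) -
      (∑ j ∈ Finset.range M, cr (p j - c) (p (j + 1) - c) / 2 - kap * n)| ≤
      ∑ j ∈ Finset.range M, (exc P (p (j + 1)) + exc P (p j)) / 2 := by
  have hp := pi_pos
  have hne : ∀ j < M, p j ≠ p (j + 1) := by
    intro j hj h
    have := hc j hj
    rw [← h] at this; simp [cr, mul_comm] at this
  obtain ⟨r, hr, hrp⟩ : ∃ r, 0 < r ∧ ∀ j ≤ M, p j ∈ ball c r := by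
    refine ⟨∑ j ∈ Finset.range (M + 1), dist (p j) c + 1, by positivity, fun j hj => ?_⟩
    have := Finset.single_le_sum (f := fun j => dist (p j) c) (fun _ _ => dist_nonneg)
      (Finset.mem_range.2 (Nat.lt_succ_of_le hj))
    rw [mem_ball]; linarith
  rw [integral_mul_dens hP (integrable_wind hM hc)
    (wind_zero_ae hM hc (convex_ball c r) (mem_ball_self hr) hrp), integral_wind hM hc]
  set V := (hP.finite_ball c (r + 1)).toFinset with hV
  have hVP : ∀ q ∈ V, q ∈ P := fun q hq => ((Set.Finite.mem_toFinset _).1 hq).1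
  have hpV : ∀ j ≤ M, p j ∈ V := fun j hj => (Set.Finite.mem_toFinset _).2
    ⟨hpP j hj, ball_subset_ball (by linarith) (hrp j hj)⟩
  have h1 : ∀ q, ∃ n : ℤ, q ∈ V → |kap / volume.real (cell P q) * (∫ x in cell P q, wind p M x) -
      kap * (n - th p M q / (2 * π))| ≤ bq p M q / (2 * π) * exc P q := by
    intro q
    by_cases hq : q ∈ V
    swap
    · exact ⟨0, fun h => absurd h hq⟩
    obtain ⟨n, hn⟩ := cell_wind hP hM hpP hne hlen (hVP q hq)
    refine ⟨n, fun _ => ?_⟩
    have h2 := vol_cell_pos hP (hVP q hq)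
    have h3 := vol_cell_ge hP (hVP q hq)
    have h4 : kap / volume.real (cell P q) * (∫ x in cell P q, wind p M x) -
        kap * (n - th p M q / (2 * π)) = kap / volume.real (cell P q) *
        ((∫ x in cell P q, wind p M x) - (n - th p M q / (2 * π)) * volume.real (cell P q)) := by
      field_simp
    rw [h4, abs_mul, abs_of_pos (div_pos kap_pos h2)]
    exact (mul_le_of_le_one_left (abs_nonneg _) ((div_le_one h2).2 h3)).trans hn
  choose n hn using h1
  have h2 : ∑ q ∈ V, th p M q = ∑ i ∈ Finset.range M,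
      ((p (i + 1) - p i).arg - (p i - p (i + 1)).arg) := by
    unfold th
    rw [Finset.sum_comm]
    refine Finset.sum_congr rfl fun i hi => ?_
    rw [Finset.mem_range] at hi
    rw [Finset.sum_sub_distrib, Finset.sum_ite_eq', Finset.sum_ite_eq', if_pos (hpV _ hi.le),
      if_pos (hpV _ hi)]
  have h3 : ((∑ q ∈ V, th p M q : ℝ) : Real.Angle) = (0 : ℝ) := by
    rw [h2, coe_angle_sum, Finset.sum_congr rfl (g := fun _ => (π : Real.Angle))]
    · obtain ⟨k, hk⟩ := hev
      rw [Finset.sum_const, Finset.card_range, hk, ← two_mul, mul_nsmul, Real.Angle.two_nsmul_coe_pi]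
      simp
    · intro i hi
      rw [Finset.mem_range] at hi
      have := Complex.arg_neg_coe_angle (sub_ne_zero.2 (hne i hi))
      rw [neg_sub] at this
      rw [Real.Angle.coe_sub, this]
      simp
  obtain ⟨k, hk⟩ := exists_int_of_angle h3
  rw [zero_add] at hk
  have h4 : ∑ q ∈ V, bq p M q / (2 * π) * exc P q =
      ∑ j ∈ Finset.range M, (exc P (p (j + 1)) + exc P (p j)) / 2 := by
    unfold bq
    simp_rw [Finset.sum_div, Finset.sum_mul]
    rw [Finset.sum_comm]
    refine Finset.sum_congr rfl fun i hi => ?_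
    rw [Finset.mem_range] at hi
    have : ∀ q, ((if q = p (i + 1) then π else 0) + if q = p i then π else 0) / (2 * π) * exc P q =
        (if q = p (i + 1) then exc P q / 2 else 0) + if q = p i then exc P q / 2 else 0 := by
      intro q
      split_ifs <;> field_simp <;> ring
    simp_rw [this]
    rw [Finset.sum_add_distrib, Finset.sum_ite_eq', Finset.sum_ite_eq', if_pos (hpV _ hi.le),
      if_pos (hpV _ hi)]
    ring
  refine ⟨∑ q ∈ V, n q - k, ?_⟩
  rw [← h4]
  refine le_trans ?_ (Finset.sum_le_sum fun q hq => hn q hq)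
  refine le_trans (le_of_eq ?_) (Finset.abs_sum_le_sum_abs _ _)
  rw [← abs_neg]
  congr 1
  rw [Finset.sum_sub_distrib, ← Finset.mul_sum, Finset.sum_sub_distrib,
    ← Finset.sum_div V (th p M), hk]
  push_cast
  field_simp
  ring

end Pool.Agent.MP_2616de_co

end MrgPart3

-- marker of a merged file
example : 731051 + 10258 = 731051 + 10258 := rfl
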