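import Mathlib.Data.Int.Star
import Mathlib.Analysis.PSeries
import Pool.Agent.MP_2616de_co.WindCell

-- ======== part 0: formerly Pool.Agent.MP_2616de_co.Path
section MrgPart0

set_option maxSynthPendingDepth 3
set_option linter.unusedSectionVars false

namespace Pool.Agent.MP_2616de_co

open Real

/-- point of the hexagonal lattice -/
noncomputable def lat (v : ℤ × ℤ) : ℂ := v.1 + v.2 * ze

lemma lat_re (v : ℤ × ℤ) : (lat v).re = v.1 + v.2 / 2 := by simp [lat, ze_re]; ring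

lemma lat_im (v : ℤ × ℤ) : (lat v).im = √3 / 2 * v.2 := by simp [lat, ze_im]; ring

lemma lat_sub (v w : ℤ × ℤ) : lat (v - w) = lat v - lat w := by simp [lat]; ring

lemma lat_add (v w : ℤ × ℤ) : lat (v + w) = lat v + lat w := by simp [lat]; ring

lemma norm_lat_sq (v : ℤ × ℤ) : ‖lat v‖ ^ 2 = v.1 ^ 2 + v.1 * v.2 + v.2 ^ 2 := by
  rw [norm_sq_eq, lat_re, lat_im]; nlinarith [sqrt3_sq]

lemma one_le_norm_lat {v : ℤ × ℤ} (hv : v ≠ 0) : 1 ≤ ‖lat v‖ := by
  rw [← sq_le_sq₀ zero_le_one (norm_nonneg _), norm_lat_sq]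
  have h1 : 1 ≤ v.1 ^ 2 + v.1 * v.2 + v.2 ^ 2 := by
    by_contra h
    have h2 : v.1 ^ 2 + v.1 * v.2 + v.2 ^ 2 ≤ 0 := by omega
    have h3 : v.2 = 0 := by nlinarith [sq_nonneg (2 * v.1 + v.2), sq_nonneg v.2]
    have h4 : v.1 = 0 := by rw [h3] at h2; nlinarith [sq_nonneg v.1]
    exact hv (Prod.ext h4 h3)
  exact_mod_cast h1

lemma cr_lat (v w : ℤ × ℤ) : cr (lat v) (lat w) = kap * ((v.1 * w.2 - v.2 * w.1 : ℤ) : ℝ) := by
  simp only [cr, lat_re, lat_im, kap]; push_cast; ring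

def rot (v : ℤ × ℤ) : ℤ × ℤ := (-v.2, v.1 + v.2)

lemma lat_rot (v : ℤ × ℤ) : lat (rot v) = ze * lat v := by
  simp only [lat, rot]; push_cast
  linear_combination (-(v.2 : ℂ)) * ze_sq

lemma lat_rot_iter (a : ℕ) (v : ℤ × ℤ) : lat (rot^[a] v) = ze ^ a * lat v := by
  induction a with
  | zero => simp
  | succ a ih => rw [Function.iterate_succ_apply', lat_rot, ih]; ring

lemma rot_six (v : ℤ × ℤ) : rot^[6] v = v := by
  simp only [Function.iterate_succ_apply', Function.iterate_zero_apply, rot]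
  ext <;> simp

lemma rot_iter_mod (a : ℕ) (v : ℤ × ℤ) : rot^[a] v = rot^[a % 6] v := by
  nth_rewrite 1 [← Nat.mod_add_div a 6]
  rw [Function.iterate_add_apply, Function.iterate_mul]
  congr 1
  exact Function.iterate_fixed (rot_six v) _

lemma cr_ze_pow (a : ℕ) (x y : ℂ) : cr (ze ^ a * x) (ze ^ a * y) = cr x y := by
  have h3 : (ze ^ a).re ^ 2 + (ze ^ a).im ^ 2 = 1 := by rw [← norm_sq_eq, norm_ze_pow]; norm_num
  simp only [cr, Complex.mul_re, Complex.mul_im]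
  linear_combination (x.re * y.im - x.im * y.re) * h3

noncomputable def gk (m : ℕ) (k : ℤ) : ℝ := √(3 * m ^ 2 - 3 * k ^ 2 / 4)

noncomputable def mk (m : ℕ) (k : ℤ) : ℤ × ℤ := (⌊gk m k - k / 2⌋, k)

section
variable {m : ℕ} {k : ℤ} (h1 : -(m : ℤ) ≤ k) (h2 : k ≤ m)
include h1 h2

lemma k_sq_le : (k : ℝ) ^ 2 ≤ (m : ℝ) ^ 2 := by
  have h3 : (-(m : ℝ)) ≤ k := by exact_mod_cast h1
  have h4 : (k : ℝ) ≤ m := by exact_mod_cast h2
  exact sq_le_sq' h3 h4

lemma gk_sq : gk m k ^ 2 = 3 * m ^ 2 - 3 * k ^ 2 / 4 :=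
  Real.sq_sqrt (by nlinarith [k_sq_le h1 h2, sq_nonneg (m : ℝ)])

lemma gk_ge : 3 * m / 2 ≤ gk m k := by
  rw [gk]; apply Real.le_sqrt_of_sq_le; nlinarith [k_sq_le h1 h2]

lemma gk_le : gk m k ≤ 2 * m := by
  rw [gk, Real.sqrt_le_iff]
  exact ⟨by positivity, by nlinarith [sq_nonneg (k : ℝ), sq_nonneg (m : ℝ)]⟩

omit h1 h2 in
lemma mk_re : gk m k - 1 < (lat (mk m k)).re ∧ (lat (mk m k)).re ≤ gk m k := by
  rw [lat_re]
  simp only [mk]
  constructor
  · linarith [Int.lt_floor_add_one (gk m k - k / 2)]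
  · linarith [Int.floor_le (gk m k - k / 2)]

lemma mk_norm (hm : 1 ≤ m) :
    3 * m ^ 2 - 4 * m ≤ ‖lat (mk m k)‖ ^ 2 ∧ ‖lat (mk m k)‖ ^ 2 ≤ 3 * m ^ 2 := by
  have h3 := mk_re (m := m) (k := k)
  have h4 := gk_sq h1 h2
  have h5 := gk_ge h1 h2
  have h6 := gk_le h1 h2
  have hm' : (1 : ℝ) ≤ m := by exact_mod_cast hm
  have h7 : (lat (mk m k)).im ^ 2 = 3 * k ^ 2 / 4 := by
    rw [lat_im]; simp only [mk]; nlinarith [sqrt3_sq]
  rw [norm_sq_eq, h7]
  constructor <;> nlinarith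

end

lemma mk_neg (m : ℕ) : mk m (-m) = (2 * (m : ℤ), -(m : ℤ)) := by
  have : gk m (-m) = 3 * m / 2 := by
    rw [gk, Real.sqrt_eq_iff_mul_self_eq (by push_cast; nlinarith [sq_nonneg (m : ℝ)])
      (by positivity)]
    push_cast; ring
  rw [mk, this]
  congr 1
  rw [Int.floor_eq_iff]
  push_cast
  constructor <;> linarith

lemma mk_pos (m : ℕ) : mk m m = ((m : ℤ), (m : ℤ)) := by
  have : gk m m = 3 * m / 2 := by
    rw [gk, Real.sqrt_eq_iff_mul_self_eq (by push_cast; nlinarith [sq_nonneg (m : ℝ)])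
      (by positivity)]
    push_cast; ring
  rw [mk, this]
  congr 1
  rw [Int.floor_eq_iff]
  push_cast
  constructor <;> linarith

section
variable {m : ℕ} {k : ℤ} (h1 : -(m : ℤ) ≤ k) (h2 : k < m)
include h1 h2

lemma mk_ge : (m : ℤ) ≤ (mk m k).1 ∧ (m : ℤ) ≤ (mk m k).1 + k := by
  have h5 := gk_ge h1 h2.le
  have h3 : (-(m : ℝ)) ≤ k := by exact_mod_cast h1
  have h4 : (k : ℝ) + 1 ≤ m := by exact_mod_cast h2
  simp only [mk]
  constructor
  · rw [Int.le_floor]; push_cast; linarith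
  · rw [← sub_le_iff_le_add, Int.le_floor]; push_cast; linarith

lemma mk_step : (mk m (k + 1)).1 = (mk m k).1 ∨ (mk m (k + 1)).1 = (mk m k).1 - 1 := by
  have a1 := gk_sq h1 h2.le
  have a2 := gk_sq (k := k + 1) (by omega) h2
  have b1 := gk_ge h1 h2.le
  have b2 := gk_ge (k := k + 1) (by omega) h2
  have h3 : (-(m : ℝ)) ≤ k := by exact_mod_cast h1
  have h4 : (k : ℝ) + 1 ≤ m := by exact_mod_cast h2
  push_cast at a2
  have c1 : gk m (k + 1) - gk m k ≤ 1 / 2 := by nlinarith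
  have c2 : gk m k - gk m (k + 1) ≤ 1 / 2 := by nlinarith
  simp only [mk]
  have d1 : ⌊gk m (k + 1) - ((k + 1 : ℤ) : ℝ) / 2⌋ ≤ ⌊gk m k - k / 2⌋ :=
    Int.floor_le_floor (by push_cast; linarith)
  have d2 : ⌊gk m k - k / 2⌋ - 1 ≤ ⌊gk m (k + 1) - ((k + 1 : ℤ) : ℝ) / 2⌋ := by
    rw [← Int.floor_sub_one]
    exact Int.floor_le_floor (by push_cast; linarith)
  omega

lemma mk_step' : ∃ i : ℕ, lat (mk m (k + 1)) - lat (mk m k) = ze ^ i := by
  rw [← lat_sub]
  rcases mk_step h1 h2 with h | h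
  · refine ⟨1, ?_⟩
    have : mk m (k + 1) - mk m k = (0, 1) := by
      ext
      · simp [h]
      · simp [mk]
    rw [this]; simp [lat]
  · refine ⟨2, ?_⟩
    have : mk m (k + 1) - mk m k = (-1, 1) := by
      ext
      · simp [h]
      · simp [mk]
    rw [this, ze_sq]; simp [lat]; ring

lemma mk_cr (hm : 10 ≤ m) : (m : ℝ) / 2 ≤ cr (lat (mk m k)) (lat (mk m (k + 1))) := by
  rw [cr_lat]
  have h3 := mk_ge h1 h2
  have h4 : (m : ℤ) ≤ (mk m k).1 * (mk m (k + 1)).2 - (mk m k).2 * (mk m (k + 1)).1 := by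
    have e1 : (mk m (k + 1)).2 = k + 1 := rfl
    have e2 : (mk m k).2 = k := rfl
    rw [e1, e2]
    rcases mk_step h1 h2 with h | h <;> rw [h] <;> nlinarith
  have h5 : (m : ℝ) ≤ (((mk m k).1 * (mk m (k + 1)).2 - (mk m k).2 * (mk m (k + 1)).1 : ℤ) : ℝ) := by
    exact_mod_cast h4
  have h6 : (0 : ℝ) ≤ m := by positivity
  nlinarith [kap_gt]

end

/-- the closed lattice path along the circle -/
noncomputable def pth (m j : ℕ) : ℤ × ℤ := rot^[j / (2 * m)] (mk m ((j % (2 * m) : ℕ) - m))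

lemma pth_range {m : ℕ} (hm : 0 < m) (j : ℕ) :
    -(m : ℤ) ≤ (j % (2 * m) : ℕ) - m ∧ ((j % (2 * m) : ℕ) : ℤ) - m < m := by
  have := Nat.mod_lt j (show 0 < 2 * m by omega)
  omega

lemma pth_succ {m : ℕ} (hm : 0 < m) (j : ℕ) :
    pth m (j + 1) = rot^[j / (2 * m)] (mk m ((j % (2 * m) : ℕ) - m + 1)) := by
  have h0 : 0 < 2 * m := by omega
  have h1 := Nat.mod_lt j h0
  have h2 := Nat.div_add_mod j (2 * m)
  by_cases h : j % (2 * m) + 1 < 2 * m
  · have h3 : (j + 1) / (2 * m) = j / (2 * m) ∧ (j + 1) % (2 * m) = j % (2 * m) + 1 := by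
      rw [Nat.div_mod_unique h0]
      exact ⟨by omega, h⟩
    rw [pth, h3.1, h3.2]
    congr 2
    push_cast; ring
  · have h3 : (j + 1) / (2 * m) = j / (2 * m) + 1 ∧ (j + 1) % (2 * m) = 0 := by
      rw [Nat.div_mod_unique h0]
      exact ⟨by rw [Nat.mul_succ]; omega, h0⟩
    have h4 : ((j % (2 * m) : ℕ) : ℤ) - m + 1 = m := by omega
    rw [pth, h3.1, h3.2, h4, Function.iterate_succ_apply, mk_pos]
    congr 1
    simp only [Nat.cast_zero, zero_sub, mk_neg, rot]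
    ext <;> simp
    ring

lemma pth_add {m : ℕ} (hm : 0 < m) (j : ℕ) : pth m (j + 2 * m) = rot (pth m j) := by
  rw [pth, pth, Nat.add_div_right _ (by omega), Nat.add_mod_right, Function.iterate_succ_apply']

lemma pth_add_mul {m : ℕ} (hm : 0 < m) (j a : ℕ) : pth m (j + a * (2 * m)) = rot^[a] (pth m j) := by
  induction a with
  | zero => simp
  | succ a ih => rw [Nat.succ_mul, ← add_assoc, pth_add hm, ih, Function.iterate_succ_apply']

lemma pth_inj {m : ℕ} (hm : 0 < m) {i j : ℕ} (h : pth m i = pth m j) : i % (12 * m) = j % (12 * m) := by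
  have h0 : 0 < 2 * m := by omega
  obtain ⟨a1, a2⟩ := pth_range hm i
  obtain ⟨b1, b2⟩ := pth_range hm j
  have c1 := mk_ge a1 a2
  have c2 := mk_ge b1 b2
  have h1 : rot^[(5 * (j / (2 * m)) + i / (2 * m)) % 6] (mk m ((i % (2 * m) : ℕ) - m)) =
      mk m ((j % (2 * m) : ℕ) - m) := by
    rw [← rot_iter_mod, Function.iterate_add_apply]
    change rot^[5 * (j / (2 * m))] (pth m i) = _
    rw [h, pth, ← Function.iterate_add_apply, rot_iter_mod,
      show (5 * (j / (2 * m)) + j / (2 * m)) % 6 = 0 by omega]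
    rfl
  have e1 : (mk m ((i % (2 * m) : ℕ) - m)).2 = (i % (2 * m) : ℕ) - m := rfl
  have e2 : (mk m ((j % (2 * m) : ℕ) - m)).2 = (j % (2 * m) : ℕ) - m := rfl
  have h2 : (5 * (j / (2 * m)) + i / (2 * m)) % 6 = 0 ∧ i % (2 * m) = j % (2 * m) := by
    have h3 : (5 * (j / (2 * m)) + i / (2 * m)) % 6 < 6 := Nat.mod_lt _ (by norm_num)
    generalize (5 * (j / (2 * m)) + i / (2 * m)) % 6 = c at h1 h3
    have f1 := congrArg Prod.fst h1
    have f2 := congrArg Prod.snd h1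
    interval_cases c <;>
      simp only [Function.iterate_succ_apply', Function.iterate_zero_apply, rot] at f1 f2 <;> omega
  have h4 : (i / (2 * m)) % 6 = (j / (2 * m)) % 6 := by omega
  rw [show 12 * m = 2 * m * 6 by ring, Nat.mod_mul (a := 2 * m) (x := i), Nat.mod_mul (a := 2 * m) (x := j),
    h2.2, h4]

lemma sum_periodic {f : ℕ → ℝ} {n : ℕ} (h : ∀ j, f (j + n) = f j) (k : ℕ) :
    ∑ j ∈ Finset.range (k * n), f j = k * ∑ j ∈ Finset.range n, f j := by
  have h1 : ∀ k j, f (k * n + j) = f j := by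
    intro k j
    induction k with
    | zero => simp
    | succ k ih => rw [Nat.succ_mul, add_right_comm, h, ih]
  induction k with
  | zero => simp
  | succ k ih =>
    rw [Nat.succ_mul, Finset.sum_range_add, ih]
    simp only [h1]
    push_cast; ring

lemma abs_sub_le_of_sq {x y s B c : ℝ} (hs : 0 < s) (h1 : s ≤ x + y) (h2 : |x ^ 2 - y ^ 2| ≤ B)
    (h3 : B ≤ c * s) : |x - y| ≤ c := by
  have h4 : |x ^ 2 - y ^ 2| = |x - y| * (x + y) := by
    rw [← abs_of_pos (hs.trans_le h1), ← abs_mul]; congr 1; ring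
  by_contra h
  push Not at h
  have : c * s < |x - y| * (x + y) := mul_lt_mul h h1 hs (abs_nonneg _)
  linarith

lemma exists_start {m : ℕ} (hm : 10 ≤ m) {v : ℂ} (hv : |‖v‖ - √3 * m| ≤ 1) :
    ∃ j, ‖lat (pth m j) - v‖ ≤ 6 := by
  obtain ⟨a, ha⟩ := dir30 v
  have hz : ze ^ a ≠ 0 := pow_ne_zero _ ze_ne
  set w := v / ze ^ a with hw
  have hwn : ‖w‖ = ‖v‖ := by rw [hw, norm_div, norm_ze_pow, div_one]
  have hwre : w.re = v.re * (ze ^ a).re + v.im * (ze ^ a).im := by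
    rw [hw, Complex.div_re, Complex.normSq_eq_norm_sq, norm_ze_pow]; ring
  rw [← hwre, ← hwn] at ha
  rw [← hwn, abs_le] at hv
  have hm' : (10 : ℝ) ≤ m := by exact_mod_cast hm
  have s1 := sqrt3_gt
  have s2 := sqrt3_lt
  have s3 := sqrt3_sq
  have s4 : √3 * m ≤ 1.7321 * m := by gcongr
  have s5 : 1.732 * m ≤ √3 * m := by gcongr
  have hw0 := norm_nonneg w
  have hw2 := norm_sq_eq w
  have him : |w.im| ≤ ‖w‖ / 2 := by
    rw [← sq_le_sq₀ (abs_nonneg _) (by positivity), sq_abs]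
    have h1 : (√3 / 2 * ‖w‖) ^ 2 ≤ w.re ^ 2 := by gcongr
    have h2 : (√3 / 2 * ‖w‖) ^ 2 = 3 / 4 * ‖w‖ ^ 2 := by linear_combination (‖w‖ ^ 2 / 4) * s3
    linarith
  rw [abs_le] at him
  set t := w.im / (√3 / 2) with ht
  have ht' : w.im = √3 / 2 * t := by rw [ht]; field_simp
  have t1 : t ≤ m + 0.58 := by
    refine le_of_mul_le_mul_left (a := √3 / 2) ?_ (by positivity)
    linarith
  have t2 : -(m + 0.58) ≤ t := by
    refine le_of_mul_le_mul_left (a := √3 / 2) ?_ (by positivity)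
    linarith
  set k : ℤ := max (-(m : ℤ)) (min ((m : ℤ) - 1) ⌊t⌋) with hk
  have k1 : -(m : ℤ) ≤ k := le_max_left _ _
  have k2 : k < m := by rw [hk]; omega
  have k3 : |(k : ℝ) - t| ≤ 1.58 := by
    have f1 := Int.floor_le t
    have f2 := Int.lt_floor_add_one t
    rw [abs_le]
    rcases le_total ((m : ℤ) - 1) ⌊t⌋ with h | h
    · have : k = m - 1 := by rw [hk]; omega
      have h' : (m : ℝ) - 1 ≤ ⌊t⌋ := by exact_mod_cast h
      rw [this]; push_cast; constructor <;> linarith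
    · rcases le_total (-(m : ℤ)) ⌊t⌋ with h' | h'
      · have : k = ⌊t⌋ := by rw [hk]; omega
        rw [this]; constructor <;> linarith
      · have : k = -m := by rw [hk]; omega
        have h'' : (⌊t⌋ : ℝ) ≤ -m := by exact_mod_cast h'
        rw [this]; push_cast; constructor <;> linarith
  refine ⟨(k + m).toNat + a * (2 * m), ?_⟩
  have h1 : pth m (k + m).toNat = mk m k := by
    have h2 : (k + m).toNat < 2 * m := by omega
    rw [pth, Nat.div_eq_of_lt h2, Nat.mod_eq_of_lt h2, Function.iterate_zero_apply]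
    congr 1; omega
  rw [pth_add_mul (by omega), h1, lat_rot_iter]
  have h2 : ze ^ a * lat (mk m k) - v = ze ^ a * (lat (mk m k) - w) := by rw [hw]; field_simp
  rw [h2, norm_mul, norm_ze_pow, one_mul]
  obtain ⟨n1, n2⟩ := mk_norm k1 k2.le (by omega)
  obtain ⟨r1, r2⟩ := mk_re (m := m) (k := k)
  have g1 := gk_ge k1 k2.le
  have hy : (lat (mk m k)).im = √3 / 2 * k := lat_im _
  rw [norm_sq_eq, hy] at n1 n2
  set x := (lat (mk m k)).re
  rw [abs_le] at k3
  have kk1 : (-(m : ℝ)) ≤ k := by exact_mod_cast k1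
  have kk2 : (k : ℝ) ≤ m := by exact_mod_cast k2.le
  have y1 : |(√3 / 2 * k) ^ 2 - w.im ^ 2| ≤ 2.4 * (m : ℝ) + 1 := by
    have : (√3 / 2 * k) ^ 2 - w.im ^ 2 = 3 / 4 * ((k - t) * (k + t)) := by
      rw [ht']; linear_combination ((k ^ 2 - t ^ 2) / 4) * s3
    rw [this, abs_mul, abs_mul, abs_of_pos (by norm_num : (0 : ℝ) < 3 / 4)]
    have u1 : |(k : ℝ) - t| ≤ 1.58 := abs_le.2 k3
    have u2 : |(k : ℝ) + t| ≤ 2 * m + 0.58 := abs_le.2 ⟨by linarith, by linarith⟩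
    have := mul_le_mul u1 u2 (abs_nonneg _) (by norm_num)
    linarith
  rw [abs_le] at y1
  have w1 : ‖w‖ ^ 2 ≤ 3 * (m : ℝ) ^ 2 + 3.5 * (m : ℝ) + 1 := by
    have h3 : ‖w‖ ^ 2 ≤ (√3 * m + 1) ^ 2 := by gcongr; linarith
    have h4 : (√3 * m + 1) ^ 2 = 3 * m ^ 2 + 2 * (√3 * m) + 1 := by
      linear_combination (m : ℝ) ^ 2 * s3
    linarith
  have w2 : 3 * (m : ℝ) ^ 2 - 3.5 * (m : ℝ) ≤ ‖w‖ ^ 2 := by
    have h3 : (√3 * m - 1) ^ 2 ≤ ‖w‖ ^ 2 := by gcongr <;> linarith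
    have h4 : (√3 * m - 1) ^ 2 = 3 * m ^ 2 - 2 * (√3 * m) + 1 := by
      linear_combination (m : ℝ) ^ 2 * s3
    linarith
  have w3 : 3 * m / 2 - 1 ≤ w.re := by
    have h3 : √3 / 2 * (√3 * m - 1) ≤ √3 / 2 * ‖w‖ := by gcongr; linarith
    have h4 : √3 / 2 * (√3 * m - 1) = 3 * m / 2 - √3 / 2 := by
      linear_combination (m : ℝ) / 2 * s3
    linarith
  have x1 : |x - w.re| ≤ 4.5 :=
    abs_sub_le_of_sq (s := 3 * m - 2) (B := 9.9 * m + 2) (by linarith) (by linarith)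
      (abs_le.2 ⟨by linarith, by linarith⟩) (by linarith)
  have x2 : |√3 / 2 * k - w.im| ≤ 1.5 := by
    rw [ht', ← mul_sub, abs_mul, abs_of_pos (by positivity)]
    have u1 : |(k : ℝ) - t| ≤ 1.58 := abs_le.2 k3
    have := mul_le_mul (show √3 / 2 ≤ 0.87 by linarith) u1 (abs_nonneg _) (by norm_num)
    linarith
  refine (Complex.norm_le_abs_re_add_abs_im _).trans ?_
  rw [Complex.sub_re, Complex.sub_im, hy]
  linarith

theorem exists_path {m : ℕ} (hm : 10 ≤ m) {v : ℂ} (hv : |‖v‖ - √3 * m| ≤ 1) :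
    ∃ l : ℕ → ℂ, l (12 * m) = l 0 ∧ (∀ j, ∃ k : ℕ, l (j + 1) - l j = ze ^ k) ∧
      (∀ i j, i < 12 * m → j < 12 * m → i ≠ j → 1 ≤ ‖l i - l j‖) ∧
      (∀ j, 3 * m ^ 2 - 4 * m ≤ ‖l j‖ ^ 2 ∧ ‖l j‖ ^ 2 ≤ 3 * m ^ 2) ∧
      (∀ j, (m : ℝ) / 2 ≤ cr (l j) (l (j + 1))) ∧ ‖l 0 - v‖ ≤ 6 ∧
      ∃ n : ℤ, ∑ j ∈ Finset.range (12 * m), cr (l j) (l (j + 1)) / 2 = kap * n := by
  obtain ⟨j0, hj0⟩ := exists_start hm hv
  have hm0 : 0 < m := by omega
  refine ⟨fun j => lat (pth m (j + j0)), ?_, fun j => ?_, fun i j hi hj hij => ?_, fun j => ?_,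
    fun j => ?_, by simpa using hj0, ?_⟩
  · simp only
    rw [show 12 * m + j0 = (0 + j0) + 6 * (2 * m) by ring, pth_add_mul hm0, rot_six]
  · simp only
    obtain ⟨a1, a2⟩ := pth_range hm0 (j + j0)
    obtain ⟨i, hi⟩ := mk_step' a1 a2
    rw [add_right_comm, pth_succ hm0, pth, lat_rot_iter, lat_rot_iter, ← mul_sub, hi, ← pow_add]
    exact ⟨_, rfl⟩
  · simp only
    rw [← lat_sub]
    refine one_le_norm_lat (sub_ne_zero.2 fun h => hij ?_)
    have h1 : i + j0 ≡ j + j0 [MOD 12 * m] := pth_inj hm0 h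
    exact Nat.ModEq.eq_of_lt_of_lt (Nat.ModEq.add_right_cancel' j0 h1) hi hj
  · simp only
    obtain ⟨a1, a2⟩ := pth_range hm0 (j + j0)
    rw [pth, lat_rot_iter, norm_mul, norm_ze_pow, one_mul]
    exact mk_norm a1 a2.le hm0
  · simp only
    obtain ⟨a1, a2⟩ := pth_range hm0 (j + j0)
    rw [add_right_comm, pth_succ hm0, pth, lat_rot_iter, lat_rot_iter, cr_ze_pow]
    exact mk_cr a1 a2 hm
  · simp only
    rw [show 12 * m = 6 * (2 * m) by ring, sum_periodic]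
    · refine ⟨3 * ∑ j ∈ Finset.range (2 * m), ((pth m (j + j0)).1 * (pth m (j + 1 + j0)).2 -
        (pth m (j + j0)).2 * (pth m (j + 1 + j0)).1), ?_⟩
      simp only [cr_lat]
      rw [← Finset.sum_div, ← Finset.mul_sum]
      push_cast; ring
    · intro j
      rw [show j + 2 * m + j0 = j + j0 + 2 * m by ring,
        show j + 2 * m + 1 + j0 = j + 1 + j0 + 2 * m by ring, pth_add hm0, pth_add hm0, lat_rot,
        lat_rot]
      simpa using cr_ze_pow 1 _ _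

end Pool.Agent.MP_2616de_co

end MrgPart0

-- ======== part 1: formerly Pool.Agent.MP_2616de_co.Walk
section MrgPart1

set_option maxSynthPendingDepth 3
set_option linter.unusedSectionVars false

namespace Pool.Agent.MP_2616de_co

open MeasureTheory Set Metric Real

lemma abs_cr_le (a b : ℂ) : |cr a b| ≤ ‖a‖ * ‖b‖ := by
  rw [← sq_le_sq₀ (abs_nonneg _) (by positivity), sq_abs, mul_pow, norm_sq_eq, norm_sq_eq, cr]
  nlinarith [sq_nonneg (a.re * b.re + a.im * b.im)]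

lemma norm_sub_le_sum (U : ℕ → ℂ) (j : ℕ) :
    ‖U j - U 0‖ ≤ ∑ i ∈ Finset.range j, ‖U (i + 1) - U i‖ := by
  rw [← Finset.sum_range_sub]; exact norm_sum_le _ _

lemma area_close {l P U : ℕ → ℂ} {M : ℕ} {a b B R D R2 : ℝ} (hl : l M = l 0) (hP : P M = P 0)
    (hU : ∀ j ≤ M, ‖U j‖ = 1) (hU0 : U 0 = 1) (hs : ∀ j < M, ‖l (j + 1) - l j‖ = 1)
    (ha : ∑ j ∈ Finset.range M, ‖U (j + 1) - U j‖ ≤ a)
    (hb : ∑ j ∈ Finset.range M, ‖P (j + 1) - P j - U j * (l (j + 1) - l j)‖ ≤ b)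
    (hB : ∀ j ≤ M, |‖l j‖ ^ 2 - R2| ≤ B) (hR : ∀ j ≤ M, ‖l j‖ ≤ R)
    (hD : ∀ j ≤ M, ‖P j - l j‖ ≤ D) :
    |∑ j ∈ Finset.range M, cr (P j) (P (j + 1)) - ∑ j ∈ Finset.range M, cr (l j) (l (j + 1))| ≤
      2 * R * b + 2 * a * B + a ^ 2 * R * M + D * (a * M + b) := by
  have hB0 : 0 ≤ B := (abs_nonneg _).trans (hB 0 (Nat.zero_le _))
  have hR0 : 0 ≤ R := (norm_nonneg _).trans (hR 0 (Nat.zero_le _))
  have hD0 : 0 ≤ D := (norm_nonneg _).trans (hD 0 (Nat.zero_le _))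
  have hUa : ∀ j ≤ M, ‖U j - 1‖ ≤ a := by
    intro j hj
    rw [← hU0]
    refine (norm_sub_le_sum U j).trans (le_trans ?_ ha)
    exact Finset.sum_le_sum_of_subset_of_nonneg (Finset.range_mono hj) fun _ _ _ => norm_nonneg _
  set r : ℕ → ℂ := fun j => P (j + 1) - P j - U j * (l (j + 1) - l j) with hr
  set T : ℕ → ℝ := fun j => (U j).im * (‖l j‖ ^ 2 - R2) - cr (l j) (P j - l j) with hT
  have key : ∀ j, cr (P j) (P (j + 1)) - cr (l j) (l (j + 1)) = (T (j + 1) - T j) +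
      (cr (l j + l (j + 1)) (r j) - ((U (j + 1)).im - (U j).im) * (‖l (j + 1)‖ ^ 2 - R2) +
        ((U j).re - 1) * cr (l j + l (j + 1)) (l (j + 1) - l j) +
        cr (P j - l j) ((U j - 1) * (l (j + 1) - l j) + r j)) := by
    intro j
    simp only [hr, hT, norm_sq_eq, cr, Complex.sub_re, Complex.sub_im, Complex.add_re,
      Complex.add_im, Complex.mul_re, Complex.mul_im, Complex.one_re, Complex.one_im]
    ring
  rw [← Finset.sum_sub_distrib, Finset.sum_congr rfl fun j _ => key j, Finset.sum_add_distrib,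
    Finset.sum_range_sub]
  have h1 : |T M - T 0| ≤ a * B := by
    have : T M - T 0 = (U M).im * (‖l M‖ ^ 2 - R2) := by
      simp only [hT, hl, hP, hU0, Complex.one_im]; ring
    rw [this, abs_mul]
    refine mul_le_mul ?_ (hB M le_rfl) (abs_nonneg _) ((norm_nonneg _).trans (hUa 0 (Nat.zero_le _)))
    have := Complex.abs_im_le_norm (U M - 1)
    simp only [Complex.sub_im, Complex.one_im, sub_zero] at this
    exact this.trans (hUa M le_rfl)
  have h2 : ∀ j ∈ Finset.range M,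
      |cr (l j + l (j + 1)) (r j) - ((U (j + 1)).im - (U j).im) * (‖l (j + 1)‖ ^ 2 - R2) +
        ((U j).re - 1) * cr (l j + l (j + 1)) (l (j + 1) - l j) +
        cr (P j - l j) ((U j - 1) * (l (j + 1) - l j) + r j)| ≤
      (2 * R + D) * ‖r j‖ + B * ‖U (j + 1) - U j‖ + (a ^ 2 * R + D * a) := by
    intro j hj
    rw [Finset.mem_range] at hj
    have n1 : ‖l j + l (j + 1)‖ ≤ 2 * R := by
      linarith [norm_add_le (l j) (l (j + 1)), hR j hj.le, hR (j + 1) hj]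
    have q1 : |cr (l j + l (j + 1)) (r j)| ≤ 2 * R * ‖r j‖ :=
      (abs_cr_le _ _).trans (by gcongr)
    have q2 : |((U (j + 1)).im - (U j).im) * (‖l (j + 1)‖ ^ 2 - R2)| ≤ B * ‖U (j + 1) - U j‖ := by
      rw [abs_mul, mul_comm]
      exact mul_le_mul (hB _ hj) (Complex.abs_im_le_norm (U (j + 1) - U j)) (abs_nonneg _) hB0
    have q3 : |((U j).re - 1) * cr (l j + l (j + 1)) (l (j + 1) - l j)| ≤ a ^ 2 * R := by
      rw [abs_mul]
      have e1 : |(U j).re - 1| ≤ a ^ 2 / 2 := by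
        have e2 : ‖U j - 1‖ ^ 2 ≤ a ^ 2 := by gcongr; exact hUa j hj.le
        have e3 : ‖U j‖ ^ 2 = 1 := by rw [hU j hj.le]; norm_num
        rw [norm_sq_eq] at e2 e3
        simp only [Complex.sub_re, Complex.sub_im, Complex.one_re, Complex.one_im] at e2
        rw [abs_le]; constructor <;> nlinarith [sq_nonneg (U j).im, sq_nonneg ((U j).re - 1)]
      have e4 : |cr (l j + l (j + 1)) (l (j + 1) - l j)| ≤ 2 * R := by
        refine (abs_cr_le _ _).trans ?_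
        rw [hs j hj, mul_one]; exact n1
      calc _ ≤ a ^ 2 / 2 * (2 * R) := mul_le_mul e1 e4 (abs_nonneg _) (by positivity)
        _ = _ := by ring
    have q4 : |cr (P j - l j) ((U j - 1) * (l (j + 1) - l j) + r j)| ≤ D * (a + ‖r j‖) := by
      refine (abs_cr_le _ _).trans (mul_le_mul (hD j hj.le) ?_ (norm_nonneg _) hD0)
      refine (norm_add_le _ _).trans ?_
      rw [norm_mul, hs j hj, mul_one]
      linarith [hUa j hj.le]
    rw [abs_le] at *
    constructor <;> linarith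
  refine (abs_add_le _ _).trans ?_
  have h3 := (Finset.abs_sum_le_sum_abs _ _).trans (Finset.sum_le_sum h2)
  conv_rhs at h3 => rw [Finset.sum_add_distrib, Finset.sum_add_distrib, ← Finset.mul_sum,
    ← Finset.mul_sum, Finset.sum_const, Finset.card_range, nsmul_eq_mul]
  have h4 : (2 * R + D) * ∑ j ∈ Finset.range M, ‖r j‖ ≤ (2 * R + D) * b := by gcongr
  have h5 : B * ∑ j ∈ Finset.range M, ‖U (j + 1) - U j‖ ≤ B * a := by gcongr
  linarith

section
variable {P : Set ℂ} (hP : Sep P) {Ω : Set ℂ} (hΩ : volume Ω ≠ ⊤) {y : ℕ → ℂ} {M : ℕ}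
  (hsep : ∀ i j, i < M → j < M → i ≠ j → 1 ≤ ‖y i - y j‖) (hball : ∀ j ≤ M, ball (y j) 1 ⊆ Ω)
include hP hΩ hsep hball

lemma sum_exc_walk {p : ℕ → ℂ} {n : ℕ} (hn : n ≤ M) (hp : ∀ j < n, p j ∈ P)
    (hd : ∀ j < n, ‖p j - y j‖ ≤ 1 / 10) : ∑ j ∈ Finset.range n, exc P (p j) ≤ mu P Ω := by
  classical
  have hinj : Set.InjOn p (Finset.range n) := by
    intro i hi j hj hij
    simp only [Finset.coe_range, mem_Iio] at hi hj
    by_contra hne
    have h1 := hsep i j (by omega) (by omega) hne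
    have h2 : y i - y j = (p j - y j) - (p i - y i) := by rw [hij]; ring
    rw [h2] at h1
    linarith [norm_sub_le (p j - y j) (p i - y i), hd i hi, hd j hj]
  rw [← Finset.sum_image (f := exc P) hinj]
  refine sum_exc_le hP _ (fun q hq => ?_) (fun q hq => ?_) hΩ
  · obtain ⟨j, hj, rfl⟩ := Finset.mem_image.1 hq
    exact hp j (Finset.mem_range.1 hj)
  · obtain ⟨j, hj, rfl⟩ := Finset.mem_image.1 hq
    rw [Finset.mem_range] at hj
    refine (ball_subset_ball' ?_).trans (hball j (by omega))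
    rw [dist_eq_norm]
    linarith [hd j hj, rho_lt]

theorem exists_walk {u0 : ℂ} (hu0 : ‖u0‖ = 1) (hy : ∀ j, ∃ k : ℕ, y (j + 1) - y j = u0 * ze ^ k)
    (hy0 : y 0 ∈ P) (hF : Frame P (y 0) u0 (700 * exc P (y 0))) {e : ℝ} (he : mu P Ω ≤ e)
    (hMe : 2100 * (M + 1) * e ≤ 1 / 10) :
    ∃ p u : ℕ → ℂ, p 0 = y 0 ∧ u 0 = u0 ∧
      (∀ j ≤ M, p j ∈ P ∧ ‖u j‖ = 1 ∧ ‖p j - y j‖ ≤ 2100 * j * e) ∧
      (∀ j < M, ‖p (j + 1) - p j - u j / u0 * (y (j + 1) - y j)‖ ≤ 700 * exc P (p j) ∧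
        ‖u (j + 1) - u j‖ ≤ 700 * exc P (p j) + 700 * exc P (p (j + 1))) := by
  have he0 : 0 ≤ e := (mu_nonneg hP Ω).trans he
  have hu0' : u0 ≠ 0 := by rintro rfl; simp at hu0
  have hM0 : (0 : ℝ) ≤ M := by positivity
  have he1 : e ≤ 1 / 21000 := by nlinarith
  suffices H : ∀ n ≤ M, ∃ p u : ℕ → ℂ, p 0 = y 0 ∧ u 0 = u0 ∧
      (∀ j ≤ n, p j ∈ P ∧ ‖u j‖ = 1 ∧ ‖p j - y j‖ ≤ 2100 * j * e ∧
        Frame P (p j) (u j) (700 * exc P (p j))) ∧
      (∀ j < n, ‖p (j + 1) - p j - u j / u0 * (y (j + 1) - y j)‖ ≤ 700 * exc P (p j) ∧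
        ‖u (j + 1) - u j‖ ≤ 700 * exc P (p j) + 700 * exc P (p (j + 1))) by
    obtain ⟨p, u, h1, h2, h3, h4⟩ := H M le_rfl
    exact ⟨p, u, h1, h2, fun j hj => ⟨(h3 j hj).1, (h3 j hj).2.1, (h3 j hj).2.2.1⟩, h4⟩
  intro n
  induction n with
  | zero =>
    intro _
    refine ⟨fun _ => y 0, fun _ => u0, rfl, rfl, fun j hj => ?_, fun j hj => absurd hj (by omega)⟩
    obtain rfl : j = 0 := by omega
    exact ⟨hy0, hu0, by simp, hF⟩
  | succ n ih =>
    intro hn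
    obtain ⟨p, u, h1, h2, h3, h4⟩ := ih (by omega)
    have hsmall : ∀ j : ℕ, j ≤ M → 2100 * j * e ≤ 1 / 10 := by
      intro j hj
      have : (j : ℝ) ≤ M := by exact_mod_cast hj
      nlinarith
    have hsum : ∑ j ∈ Finset.range (n + 1), exc P (p j) ≤ e :=
      (sum_exc_walk hP hΩ hsep hball hn (fun j hj => (h3 j (by omega)).1)
        (fun j hj => (h3 j (by omega)).2.2.1.trans (hsmall j (by omega)))).trans he
    have hnn : ∀ j ∈ Finset.range (n + 1), 0 ≤ exc P (p j) := fun j hj =>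
      exc_nonneg hP (h3 j (by rw [Finset.mem_range] at hj; omega)).1
    have hen : exc P (p n) ≤ e :=
      (Finset.single_le_sum hnn (Finset.self_mem_range_succ n)).trans hsum
    have hun : ‖u n - u0‖ ≤ 1400 * e := by
      rw [← h2]
      refine (norm_sub_le_sum u n).trans ?_
      refine (Finset.sum_le_sum fun j hj => (h4 j (Finset.mem_range.1 hj)).2).trans ?_
      rw [Finset.sum_add_distrib, ← Finset.mul_sum, ← Finset.mul_sum]
      have a1 := Finset.sum_range_succ (fun j => exc P (p j)) n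
      have a2 := Finset.sum_range_succ' (fun j => exc P (p j)) n
      have a3 := hnn 0 (by simp)
      have a4 := hnn n (by simp)
      linarith
    obtain ⟨hpn, hun1, hdn, hFn⟩ := h3 n le_rfl
    obtain ⟨k, hk⟩ := hy n
    obtain ⟨q, hq, hqk⟩ := hFn k
    have hen0 := hnn n (by simp)
    have hqy : ‖q - y (n + 1)‖ ≤ 2100 * ((n + 1 : ℕ) : ℝ) * e := by
      have : q - y (n + 1) = (q - p n - u n * ze ^ k) + (p n - y n) + (u n - u0) * ze ^ k := by
        linear_combination -hk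
      rw [this]
      refine (norm_add₃_le).trans ?_
      rw [norm_mul, norm_ze_pow, mul_one]
      push_cast
      linarith
    have hqn : |‖q - p n‖ - 1| ≤ 700 * exc P (p n) := by
      have := abs_norm_sub_norm_le (q - p n) (u n * ze ^ k)
      rw [norm_mul, hun1, norm_ze_pow, one_mul] at this
      exact this.trans hqk
    rw [abs_le] at hqn
    have heq : exc P q ≤ e := by
      refine (exc_le_mu hP hq ((ball_subset_ball' ?_).trans (hball (n + 1) hn)) hΩ).trans he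
      rw [dist_eq_norm]
      linarith [hsmall (n + 1) hn, rho_lt]
    obtain ⟨u', hu', hF', hd'⟩ := hFn.step hP hun1 (by linarith) hpn hq
      (by rintro rfl; simp at hqn; linarith) (by linarith) (by linarith)
    refine ⟨Function.update p (n + 1) q, Function.update u (n + 1) u', by simpa using h1,
      by simpa using h2, fun j hj => ?_, fun j hj => ?_⟩
    · rcases hj.lt_or_eq with h | h
      · rw [Function.update_of_ne h.ne, Function.update_of_ne h.ne]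
        exact h3 j (by omega)
      · subst h
        rw [Function.update_self, Function.update_self]
        exact ⟨hq, hu', hqy, hF'⟩
    · rw [Function.update_of_ne hj.ne, Function.update_of_ne hj.ne]
      rcases (Nat.lt_succ_iff.1 hj).lt_or_eq with h | h
      · rw [Function.update_of_ne (by omega), Function.update_of_ne (by omega)]
        exact h4 j h
      · subst h
        rw [Function.update_self, Function.update_self, hk]
        refine ⟨?_, hd'⟩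
        rwa [← mul_assoc, div_mul_cancel₀ _ hu0']

end

end Pool.Agent.MP_2616de_co

end MrgPart1

-- ======== part 2: formerly Pool.Agent.MP_2616de_co.Quant
section MrgPart2

set_option maxSynthPendingDepth 3
set_option linter.unusedSectionVars false

namespace Pool.Agent.MP_2616de_co

open MeasureTheory Set Metric Real Filter

lemma cr_div_unit (a b u : ℂ) (hu : ‖u‖ = 1) : cr (a / u) (b / u) = cr a b := by
  have h : u.re ^ 2 + u.im ^ 2 = 1 := by rw [← norm_sq_eq, hu]; norm_num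
  simp only [cr, Complex.div_re, Complex.div_im, Complex.normSq_eq_norm_sq, hu]
  linear_combination (a.re * b.im - a.im * b.re) * h

lemma ball_subset_annulus {c x : ℂ} {r1 r2 s : ℝ} (h1 : r1 + s ≤ ‖x - c‖) (h2 : ‖x - c‖ + s ≤ r2) :
    ball x s ⊆ ball c r2 \ ball c r1 := by
  intro z hz
  rw [mem_ball, dist_eq_norm] at hz
  simp only [Set.mem_sdiff, mem_ball, dist_eq_norm, not_lt]
  have e1 : ‖z - c‖ ≤ ‖z - x‖ + ‖x - c‖ := norm_sub_le_norm_sub_add_norm_sub z x c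
  have e2 : ‖x - c‖ ≤ ‖x - z‖ + ‖z - c‖ := norm_sub_le_norm_sub_add_norm_sub x z c
  rw [norm_sub_rev x z] at e2
  constructor <;> linarith

lemma split_integral {P : Set ℂ} (hP : Sep P) {w : ℂ → ℝ} (hw : Integrable w) {c : ℂ} {r1 r2 B : ℝ}
    (hr : r1 ≤ r2) (hB : ∀ x, |w x| ≤ B) (h1 : ∀ x ∈ ball c r1, w x = 1)
    (h0 : ∀ᵐ x, x ∉ ball c r2 → w x = 0) :
    |(∫ x, w x * dens P x) - mu P (ball c r1)| ≤ B * mu P (ball c r2 \ ball c r1) := by
  have hi : Integrable fun x => w x * dens P x :=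
    hw.mul_bdd (c := 1) (measurable_dens hP).aestronglyMeasurable (Eventually.of_forall fun x => by
      rw [Real.norm_eq_abs, abs_of_nonneg (dens_nonneg hP x)]; exact dens_le_one hP x)
  have e1 : ∫ x, w x * dens P x = ∫ x in ball c r2, w x * dens P x := by
    refine (setIntegral_eq_integral_of_ae_compl_eq_zero ?_).symm
    filter_upwards [h0] with x hx hx'
    rw [hx hx', zero_mul]
  have e2 := integral_inter_add_sdiff (μ := volume) (s := ball c r2) (t := ball c r1)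
    measurableSet_ball hi.integrableOn
  rw [inter_eq_right.2 (ball_subset_ball hr)] at e2
  have e3 : ∫ x in ball c r1, w x * dens P x = mu P (ball c r1) :=
    setIntegral_congr_fun measurableSet_ball fun x hx => by simp only [h1 x hx, one_mul]
  rw [e1, ← e2, e3, add_sub_cancel_left, mu, ← integral_const_mul]
  refine (abs_integral_le_integral_abs).trans (setIntegral_mono hi.abs.integrableOn
    ((integrableOn_dens hP ((measure_mono sdiff_subset).trans_lt measure_ball_lt_top).ne).const_mul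
      _) fun x => ?_)
  simp only
  rw [abs_mul, abs_of_nonneg (dens_nonneg hP x)]
  exact mul_le_mul_of_nonneg_right (hB x) (dens_nonneg hP x)

theorem quant {P : Set ℂ} (hP : Sep P) {c : ℂ} {m : ℕ} (hm : 100 ≤ m) {η : ℝ}
    (hη : η ≤ 1 / 1000000) (h : mu P (ball c (√3 * m + 12) \ ball c (√3 * m - 12)) ≤ η / m) :
    ∃ n : ℤ, |mu P (ball c (√3 * m - 12)) - kap * n| ≤ 10000 * η := by
  have hm' : (100 : ℝ) ≤ m := by exact_mod_cast hm
  have s4 : √3 * m ≤ 1.7321 * m := by gcongr; exact sqrt3_lt.le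
  have s5 : 1.732 * m ≤ √3 * m := by gcongr; exact sqrt3_gt.le
  set R := √3 * m with hR
  have hR2 : R ^ 2 = 3 * m ^ 2 := by rw [hR]; linear_combination (m : ℝ) ^ 2 * sqrt3_sq
  set A := ball c (R + 12) \ ball c (R - 12) with hA
  have hAfin : volume A ≠ ⊤ := ((measure_mono sdiff_subset).trans_lt measure_ball_lt_top).ne
  set e := η / m with he
  have he0 : 0 ≤ e := (mu_nonneg hP A).trans h
  have hem : m * e = η := by rw [he]; field_simp
  have hη0 : 0 ≤ η := by rw [← hem]; positivity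
  have he1 : 100 * e ≤ η := by rw [← hem]; gcongr
  obtain ⟨p0, hp0, hp0x⟩ := exists_near hP (x := c + R) (by
    refine (mu_mono hP (ball_subset_annulus ?_ ?_) hAfin).trans (h.trans (by linarith)) <;>
      simp only [add_sub_cancel_left, Complex.norm_real, Real.norm_eq_abs] <;>
      rw [abs_of_nonneg (by linarith)] <;> linarith)
  have hp0c : |‖p0 - c‖ - R| ≤ 3 / 5 := by
    have := abs_norm_sub_norm_le (p0 - c) (R : ℂ)
    rw [Complex.norm_real, Real.norm_eq_abs, abs_of_nonneg (show 0 ≤ R by linarith), sub_sub] at this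
    exact this.trans hp0x
  have hp0c' := abs_le.1 hp0c
  have hep0 : exc P p0 ≤ e := (exc_le_mu hP hp0
    (ball_subset_annulus (by linarith [rho_lt]) (by linarith [rho_lt])) hAfin).trans h
  obtain ⟨u0, hu0, hF0⟩ := frame_exists hP hp0 (by linarith)
  have hu0' : u0 ≠ 0 := by rintro rfl; simp at hu0
  obtain ⟨l, hlM, hlstep, hlsep, hlnorm, hlcr, hl0, n0, hn0⟩ := exists_path (m := m) (by omega)
    (v := (p0 - c) / u0) (by rw [norm_div, hu0, div_one]; linarith)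
  set c' := p0 - u0 * l 0 with hc'
  have hcc : ‖c' - c‖ ≤ 6 := by
    have : c' - c = -u0 * (l 0 - (p0 - c) / u0) := by rw [hc']; field_simp; ring
    rw [this, norm_mul, norm_neg, hu0, one_mul]; exact hl0
  have hl1 : ∀ j, ‖l j‖ ≤ R := fun j => by
    rw [← sq_le_sq₀ (norm_nonneg _) (by linarith), hR2]; exact (hlnorm j).2
  have hl2 : ∀ j, R - 2 ≤ ‖l j‖ := fun j => by
    rw [← sq_le_sq₀ (by linarith) (norm_nonneg _)]
    have := (hlnorm j).1
    have : (R - 2) ^ 2 = R ^ 2 - 4 * R + 4 := by ring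
    linarith
  have hl3 : ∀ j, ‖l (j + 1) - l j‖ = 1 := fun j => by
    obtain ⟨k, hk⟩ := hlstep j
    rw [hk, norm_ze_pow]
  set y : ℕ → ℂ := fun j => c' + u0 * l j with hy
  have hyc' : ∀ j, ‖y j - c'‖ = ‖l j‖ := fun j => by simp [hy, hu0]
  have hyc : ∀ j, R - 8 ≤ ‖y j - c‖ ∧ ‖y j - c‖ ≤ R + 6 := fun j => by
    have e1 : ‖y j - c‖ ≤ ‖y j - c'‖ + ‖c' - c‖ := norm_sub_le_norm_sub_add_norm_sub _ _ _
    have e2 : ‖y j - c'‖ ≤ ‖y j - c‖ + ‖c - c'‖ := norm_sub_le_norm_sub_add_norm_sub _ _ _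
    rw [norm_sub_rev c c'] at e2
    rw [hyc'] at e1 e2
    constructor <;> linarith [hl1 j, hl2 j]
  have hy0 : y 0 = p0 := by simp [hy, hc']
  have hysep : ∀ i j, i < 12 * m → j < 12 * m → i ≠ j → 1 ≤ ‖y i - y j‖ := fun i j hi hj hij => by
    have : y i - y j = u0 * (l i - l j) := by simp only [hy]; ring
    rw [this, norm_mul, hu0, one_mul]; exact hlsep i j hi hj hij
  have hyball : ∀ j ≤ 12 * m, ball (y j) 1 ⊆ A := fun j _ =>
    ball_subset_annulus (by linarith [(hyc j).1]) (by linarith [(hyc j).2])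
  obtain ⟨p, u, hp0', hu0'', hpu, hstep⟩ := exists_walk hP hAfin hysep hyball hu0
    (fun j => by
      obtain ⟨k, hk⟩ := hlstep j
      exact ⟨k, by simp only [hy]; rw [← hk]; ring⟩) (hy0 ▸ hp0) (hy0 ▸ hF0) h
    (by push_cast; nlinarith)
  have hD : ∀ j ≤ 12 * m, ‖p j - y j‖ ≤ 25200 * η := fun j hj => by
    refine (hpu j hj).2.2.trans ?_
    have : (j : ℝ) ≤ 12 * m := by exact_mod_cast hj
    nlinarith
  have hpP : ∀ j ≤ 12 * m, p j ∈ P := fun j hj => (hpu j hj).1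
  have hpM : p (12 * m) = p 0 := by
    apply hP.eq_of_lt (hpP _ le_rfl) (hpP _ (Nat.zero_le _))
    have : y (12 * m) = p 0 := by rw [hp0']; simp only [hy, hlM]
    rw [← this]
    linarith [hD _ le_rfl]
  have hsum : ∑ j ∈ Finset.range (12 * m), exc P (p j) ≤ e :=
    (sum_exc_walk hP hAfin hysep hyball le_rfl (fun j hj => hpP j hj.le)
      (fun j hj => (hD j hj.le).trans (by linarith))).trans h
  have hsum' : ∑ j ∈ Finset.range (12 * m), exc P (p (j + 1)) ≤ e := by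
    have a1 := Finset.sum_range_succ (fun j => exc P (p j)) (12 * m)
    have a2 := Finset.sum_range_succ' (fun j => exc P (p j)) (12 * m)
    rw [hpM] at a1
    linarith
  set Q : ℕ → ℂ := fun j => (p j - c') / u0 with hQ
  have hQl : ∀ j ≤ 12 * m, ‖Q j - l j‖ ≤ 25200 * η := fun j hj => by
    have : Q j - l j = (p j - y j) / u0 := by simp only [hQ, hy]; field_simp; ring
    rw [this, norm_div, hu0, div_one]; exact hD j hj
  have harea := area_close (l := l) (P := Q) (U := fun j => u j / u0) (M := 12 * m) (a := 1400 * e)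
    (b := 700 * e) (B := 4 * m) (R := 2 * m) (D := 25200 * η) (R2 := 3 * m ^ 2) hlM
    (by simp only [hQ, hpM]) (fun j hj => by rw [norm_div, hu0, (hpu j hj).2.1, div_one])
    (by rw [hu0'', div_self hu0']) (fun j _ => hl3 j) ?_ ?_
    (fun j _ => abs_le.2 ⟨by linarith [(hlnorm j).1], by linarith [(hlnorm j).2]⟩)
    (fun j _ => by linarith [hl1 j]) hQl
  rotate_left
  · refine (Finset.sum_le_sum (g := fun j => 700 * exc P (p j) + 700 * exc P (p (j + 1)))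
      fun j hj => ?_).trans ?_
    · rw [← sub_div, norm_div, hu0, div_one]
      exact (hstep j (Finset.mem_range.1 hj)).2
    · rw [Finset.sum_add_distrib, ← Finset.mul_sum, ← Finset.mul_sum]; linarith
  · refine (Finset.sum_le_sum (g := fun j => 700 * exc P (p j)) fun j hj => ?_).trans ?_
    · have : Q (j + 1) - Q j - u j / u0 * (l (j + 1) - l j) =
          (p (j + 1) - p j - u j / u0 * (y (j + 1) - y j)) / u0 := by
        simp only [hQ, hy]; field_simp; ring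
      rw [this, norm_div, hu0, div_one]
      exact (hstep j (Finset.mem_range.1 hj)).1
    · rw [← Finset.mul_sum]; linarith
  have hcrQ : ∀ j, cr (p j - c') (p (j + 1) - c') = cr (Q j) (Q (j + 1)) := fun j =>
    (cr_div_unit _ _ _ hu0).symm
  have hc : ∀ j < 12 * m, 0 < cr (p j - c') (p (j + 1) - c') := fun j hj => by
    rw [hcrQ]
    have e1 : cr (Q j) (Q (j + 1)) = cr (l j) (l (j + 1)) + cr (l j) (Q (j + 1) - l (j + 1)) +
        cr (Q j - l j) (l (j + 1)) + cr (Q j - l j) (Q (j + 1) - l (j + 1)) := by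
      simp only [cr, Complex.sub_re, Complex.sub_im]; ring
    have d1 : ‖Q j - l j‖ ≤ 0.03 := (hQl j hj.le).trans (by linarith)
    have d2 : ‖Q (j + 1) - l (j + 1)‖ ≤ 0.03 := (hQl _ hj).trans (by linarith)
    have e2 := (abs_le.1 ((abs_cr_le (l j) (Q (j + 1) - l (j + 1))).trans
      (mul_le_mul (hl1 j) d2 (norm_nonneg _) (by linarith)))).1
    have e3 := (abs_le.1 ((abs_cr_le (Q j - l j) (l (j + 1))).trans
      (mul_le_mul d1 (hl1 _) (norm_nonneg _) (by linarith)))).1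
    have e4 := (abs_le.1 ((abs_cr_le (Q j - l j) (Q (j + 1) - l (j + 1))).trans
      (mul_le_mul d1 d2 (norm_nonneg _) (by linarith)))).1
    linarith [hlcr j]
  have hlen : ∀ j < 12 * m, ‖p (j + 1) - p j‖ ≤ 1.06 := fun j hj => by
    have e1 : p (j + 1) - p j = (p (j + 1) - y (j + 1)) - (p j - y j) + u0 * (l (j + 1) - l j) := by
      simp only [hy]; ring
    rw [e1]
    refine (norm_add_le _ _).trans ?_
    rw [norm_mul, hu0, hl3]
    linarith [norm_sub_le (p (j + 1) - y (j + 1)) (p j - y j), hD j hj.le, hD _ hj]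
  obtain ⟨n, hn⟩ := wind_dens hP hpM ⟨6 * m, by ring⟩ hpP
    (fun j hj => by linarith [hlen j hj, rho_gt]) hc
  have hpc : ∀ j ≤ 12 * m, R - 9 ≤ ‖p j - c‖ ∧ ‖p j - c‖ ≤ R + 7 := fun j hj => by
    have e1 : ‖p j - c‖ ≤ ‖p j - y j‖ + ‖y j - c‖ := norm_sub_le_norm_sub_add_norm_sub _ _ _
    have e2 : ‖y j - c‖ ≤ ‖y j - p j‖ + ‖p j - c‖ := norm_sub_le_norm_sub_add_norm_sub _ _ _
    rw [norm_sub_rev (y j) (p j)] at e2
    constructor <;> linarith [hD j hj, (hyc j).1, (hyc j).2]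
  have hsplit := split_integral hP (integrable_wind hpM hc) (c := c) (r1 := R - 12) (r2 := R + 12)
    (by linarith) (abs_wind_le p (12 * m)) (fun x hx => ?_)
    (wind_zero_ae hpM hc (convex_ball c _) (by rw [mem_ball, dist_eq_norm]; linarith)
      fun j hj => by rw [mem_ball, dist_eq_norm]; linarith [(hpc j hj).2])
  rotate_left
  · refine wind_eq_one (by omega) hpM hc (t := 0.63 / m) ?_ ?_ (fun j hj => ?_)
      (convex_ball c (R - 12)).isPreconnected (by rw [mem_ball, dist_eq_norm]; linarith)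
      (fun j hj z hz hz' => ?_) hx
    · rw [div_le_one (by linarith)]; linarith
    · push_cast; field_simp; norm_num
    · refine (hlen j hj).trans ?_
      have e2 : ‖y j - c'‖ ≤ ‖y j - p j‖ + ‖p j - c'‖ := norm_sub_le_norm_sub_add_norm_sub _ _ _
      rw [norm_sub_rev (y j) (p j), hyc'] at e2
      rw [div_mul_eq_mul_div, le_div_iff₀ (by linarith)]
      linarith [hD j hj.le, hl2 j]
    · have e1 : z ∈ ball (p j) 2 := (convex_ball (p j) 2).segment_subset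
        (mem_ball_self two_pos) (by rw [mem_ball, dist_eq_norm]; linarith [hlen j hj]) hz'
      rw [mem_ball, dist_eq_norm] at e1 hz
      have e2 : ‖p j - c‖ ≤ ‖p j - z‖ + ‖z - c‖ := norm_sub_le_norm_sub_add_norm_sub _ _ _
      rw [norm_sub_rev (p j) z] at e2
      linarith [(hpc j hj.le).1]
  refine ⟨n0 - n, ?_⟩
  simp only [hcrQ] at hn
  rw [← Finset.sum_div, ← Finset.sum_div, Finset.sum_add_distrib] at hn
  rw [← Finset.sum_div] at hn0
  have b1 : ((12 * m : ℕ) : ℝ) / 2 * mu P A ≤ 6 * η := by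
    push_cast
    nlinarith
  have b2 : 2 * (2 * m) * (700 * e) + 2 * (1400 * e) * (4 * m) +
      (1400 * e) ^ 2 * (2 * m) * ((12 * m : ℕ) : ℝ) +
      25200 * η * (1400 * e * ((12 * m : ℕ) : ℝ) + 700 * e) ≤ 15000 * η := by
    have : 2 * (2 * m) * (700 * e) + 2 * (1400 * e) * (4 * m) +
      (1400 * e) ^ 2 * (2 * m) * ((12 * m : ℕ) : ℝ) +
      25200 * η * (1400 * e * ((12 * m : ℕ) : ℝ) + 700 * e) =
      14000 * η + 470400000 * (η * η) + 17640000 * (η * e) := by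
      rw [← hem]; push_cast; ring
    rw [this]
    have t1 : η * η ≤ η * (1 / 1000000) := by gcongr
    have t2 : η * e ≤ η * (1 / 1000000) := by gcongr; linarith
    linarith
  rw [abs_le] at *
  push_cast
  constructor <;> linarith

end Pool.Agent.MP_2616de_co

end MrgPart2

-- ======== part 3: formerly Pool.Agent.MP_2616de_co.Global
section MrgPart3

set_option maxSynthPendingDepth 3
set_option linter.unusedSectionVars false

namespace Pool.Agent.MP_2616de_co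

open MeasureTheory Set Metric Real Filter

theorem small_ball {δ : ℝ} (hδ : 0 < δ) (R0 : ℝ) : ∃ L0 : ℝ, ∀ (P : Set ℂ) (L : ℝ), Sep P → L0 ≤ L →
    (∀ c, mu P (ball c (L / 2)) ≤ 3 / 5) → ∀ c, mu P (ball c R0) ≤ δ := by
  set η := min (1 / 1000000) (δ / 10000) with hη
  have hη0 : 0 < η := lt_min (by norm_num) (by positivity)
  have hη1 : η ≤ 1 / 1000000 := min_le_left _ _
  have hη2 : η ≤ δ / 10000 := min_le_right _ _
  obtain ⟨m0, hm0⟩ := exists_nat_ge (max 100 (R0 + 12))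
  have hm1 : (100 : ℝ) ≤ m0 := (le_max_left _ _).trans hm0
  have hm2 : R0 + 12 ≤ m0 := (le_max_right _ _).trans hm0
  have hm3 : 100 ≤ m0 := by exact_mod_cast hm1
  obtain ⟨T, hT⟩ := (tendsto_atTop.1 tendsto_sum_range_one_div_nat_succ_atTop (m0 / η)).exists
  have s1 := sqrt3_gt
  refine ⟨2 * (√3 * (m0 * T) + 12), fun P L hP hL hE c => ?_⟩
  set A : ℕ → Set ℂ := fun t => ball c (√3 * ((m0 * (t + 1) : ℕ) : ℝ) + 12) \
    ball c (√3 * ((m0 * (t + 1) : ℕ) : ℝ) - 12) with hA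
  have hsub : ∀ t < T, ball c (√3 * ((m0 * (t + 1) : ℕ) : ℝ) + 12) ⊆ ball c (L / 2) := by
    intro t ht
    apply ball_subset_ball
    have : (t : ℝ) + 1 ≤ T := by exact_mod_cast ht
    have : √3 * ((m0 * (t + 1) : ℕ) : ℝ) ≤ √3 * (m0 * T) := by push_cast; gcongr
    linarith
  have h1 : ∃ t < T, mu P (A t) ≤ η / ((m0 * (t + 1) : ℕ) : ℝ) := by
    by_contra hn
    push Not at hn
    have h2 := sum_mu_le hP (Finset.range T) A
      (fun t _ => measurableSet_ball.diff measurableSet_ball) ?_ (t := ball c (L / 2))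
      (fun t ht => sdiff_subset.trans (hsub t (Finset.mem_range.1 ht))) measure_ball_lt_top.ne
    · have h3 : ∑ t ∈ Finset.range T, η / ((m0 * (t + 1) : ℕ) : ℝ) ≤
          ∑ t ∈ Finset.range T, mu P (A t) :=
        Finset.sum_le_sum fun t ht => (hn t (Finset.mem_range.1 ht)).le
      have h4 : ∑ t ∈ Finset.range T, η / ((m0 * (t + 1) : ℕ) : ℝ) =
          η / m0 * ∑ t ∈ Finset.range T, (1 / (t + 1) : ℝ) := by
        rw [Finset.mul_sum]
        refine Finset.sum_congr rfl fun t _ => ?_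
        push_cast; field_simp
      have h5 : η / m0 * (m0 / η) ≤ η / m0 * ∑ t ∈ Finset.range T, (1 / (t + 1) : ℝ) := by gcongr
      have h6 : η / m0 * (m0 / η) = 1 := by field_simp
      linarith [hE c]
    · have key : ∀ s t : ℕ, s < t → Disjoint (A s) (A t) := by
        intro s t hst
        rw [Set.disjoint_left]
        intro z hs ht
        refine ht.2 (ball_subset_ball ?_ hs.1)
        have : (s : ℝ) + 1 ≤ t := by exact_mod_cast hst
        have : √3 * (m0 * (s + 1 + 1)) ≤ √3 * (m0 * (t + 1)) := by gcongr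
        push_cast
        nlinarith
      intro s _ t _ hst
      rcases lt_or_gt_of_ne hst with h | h
      · exact key s t h
      · exact (key t s h).symm
  obtain ⟨t, ht, h2⟩ := h1
  obtain ⟨n, hn⟩ := quant hP (m := m0 * (t + 1)) (by nlinarith) hη1 h2
  have h3 : mu P (ball c (√3 * ((m0 * (t + 1) : ℕ) : ℝ) - 12)) ≤ 3 / 5 :=
    (mu_mono hP ((ball_subset_ball (by linarith)).trans (hsub t ht))
      measure_ball_lt_top.ne).trans (hE c)
  have h4 := mu_nonneg hP (ball c (√3 * ((m0 * (t + 1) : ℕ) : ℝ) - 12))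
  rw [abs_le] at hn
  have h5 : n = 0 := by
    have a1 : (n : ℝ) < 1 := by nlinarith [kap_gt]
    have a2 : (-1 : ℝ) < n := by nlinarith [kap_gt]
    have a3 : n < 1 := by exact_mod_cast a1
    have a4 : -1 < n := by exact_mod_cast a2
    omega
  rw [h5] at hn
  refine (mu_mono hP (ball_subset_ball ?_) measure_ball_lt_top.ne).trans
    (show mu P (ball c (√3 * ((m0 * (t + 1) : ℕ) : ℝ) - 12)) ≤ δ by push_cast at hn ⊢; linarith)
  have : (0 : ℝ) ≤ t := by positivity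
  push_cast
  nlinarith [mul_nonneg (show (0 : ℝ) ≤ m0 by positivity) this]

section
variable {P : Set ℂ} (hP : Sep P)
include hP

lemma frame_chain {Ω : Set ℂ} (hΩ : volume Ω ≠ ⊤) {δ ε : ℝ} (hδ : mu P Ω ≤ δ) (hδ1 : δ ≤ 1 / 3000)
    (hε : ε + 1400 * δ ≤ 3 / 10) {n : ℕ → ℂ} {T : ℕ} (hn : ∀ t ≤ T, n t ∈ P ∧ ball (n t) rho ⊆ Ω)
    (hstep : ∀ t < T, ‖n (t + 1) - n t‖ ≤ 5 / 4) {u : ℂ} (hu : ‖u‖ = 1) (h0 : Frame P (n 0) u ε) :
    Frame P (n T) u (ε + 1400 * δ) := by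
  classical
  have hsum : ∀ t ≤ T, ∑ q ∈ (Finset.range (t + 1)).image n, exc P q ≤ δ := by
    intro t ht
    refine (sum_exc_le hP _ (fun q hq => ?_) (fun q hq => ?_) hΩ).trans hδ <;>
      obtain ⟨j, hj, rfl⟩ := Finset.mem_image.1 hq <;> rw [Finset.mem_range] at hj
    · exact (hn j (by omega)).1
    · exact (hn j (by omega)).2
  suffices H : ∀ t ≤ T, ∀ s ≤ t,
      Frame P (n s) u (ε + 1400 * ∑ q ∈ (Finset.range (t + 1)).image n, exc P q) from
    (H T le_rfl T le_rfl).mono (by linarith [hsum T le_rfl])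
  intro t
  induction t with
  | zero =>
    intro _ s hs
    obtain rfl : s = 0 := by omega
    refine h0.mono ?_
    have := exc_nonneg hP (hn 0 (Nat.zero_le _)).1
    simp only [zero_add, Finset.range_one, Finset.image_singleton, Finset.sum_singleton]
    linarith
  | succ t ih =>
    intro ht s hs
    have ih' := ih (by omega)
    have hq := (hn _ ht).1
    rw [Finset.range_add_one (n := t + 1), Finset.image_insert]
    by_cases hmem : n (t + 1) ∈ (Finset.range (t + 1)).image n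
    · rw [Finset.insert_eq_of_mem hmem]
      rcases hs.lt_or_eq with h | h
      · exact ih' s (by omega)
      · obtain ⟨j, hj, hj'⟩ := Finset.mem_image.1 hmem
        rw [h, ← hj']
        exact ih' j (by rw [Finset.mem_range] at hj; omega)
    · rw [Finset.sum_insert hmem]
      have he0 := exc_nonneg hP hq
      rcases hs.lt_or_eq with h | h
      · exact (ih' s (by omega)).mono (by linarith)
      · have he : exc P (n (t + 1)) ≤ δ := (exc_le_mu hP hq (hn _ ht).2 hΩ).trans hδ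
        obtain ⟨u', _, hF, hd⟩ := (ih' t le_rfl).step hP hu (by linarith [hsum t (by omega)])
          (hn t (by omega)).1 hq
          (fun h => hmem (Finset.mem_image.2 ⟨t, Finset.self_mem_range_succ t, h.symm⟩))
          (hstep t ht) (by linarith)
        rw [h]
        exact (hF.perturb hd).mono (by linarith)

lemma frame_segment (hcov : ∀ x, ∃ p ∈ P, ‖p - x‖ ≤ 3 / 5) {Ω : Set ℂ} (hΩ : volume Ω ≠ ⊤)
    {δ ε : ℝ} (hδ : mu P Ω ≤ δ) (hδ1 : δ ≤ 1 / 3000) (hε : ε + 1400 * δ ≤ 3 / 10) {x y p q : ℂ}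
    (hΩ' : ∀ z ∈ segment ℝ x y, ball z 2 ⊆ Ω) (hp : p ∈ P) (hpx : ‖p - x‖ ≤ 3 / 5) (hq : q ∈ P)
    (hqy : ‖q - y‖ ≤ 3 / 5) {u : ℂ} (hu : ‖u‖ = 1) (h0 : Frame P p u ε) :
    Frame P q u (ε + 1400 * δ) := by
  classical
  choose f hf hf' using hcov
  obtain ⟨T, hT⟩ := exists_nat_gt (20 * ‖y - x‖)
  have hT0 : (0 : ℝ) < T := lt_of_le_of_lt (by positivity) hT
  have hT1 : T ≠ 0 := by rintro rfl; simp at hT0
  set z : ℕ → ℂ := fun t => x + ((t / T : ℝ) : ℂ) * (y - x) with hz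
  set n : ℕ → ℂ := fun t => if t = 0 then p else if t = T then q else f (z t) with hn
  have h1 : ∀ t, n t ∈ P ∧ ‖n t - z t‖ ≤ 3 / 5 := by
    intro t
    simp only [hn]
    split_ifs with h h'
    · subst h; exact ⟨hp, by simpa [hz] using hpx⟩
    · subst h'; exact ⟨hq, by simpa [hz, hT1] using hqy⟩
    · exact ⟨hf _, hf' _⟩
  have h2 : n T = q := by simp [hn, hT1]
  rw [← h2]
  refine frame_chain hP hΩ hδ hδ1 hε (fun t ht => ⟨(h1 t).1, ?_⟩) (fun t _ => ?_) hu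
    (by simpa [hn] using h0)
  · refine (ball_subset_ball' ?_).trans (hΩ' (z t) ?_)
    · rw [dist_eq_norm]; linarith [(h1 t).2, rho_lt]
    · have : (t : ℝ) ≤ T := by exact_mod_cast ht
      rw [segment_eq_image']
      exact ⟨t / T, ⟨by positivity, (div_le_one hT0).2 this⟩, by simp [hz]⟩
  · have e1 : n (t + 1) - n t = (n (t + 1) - z (t + 1)) - (n t - z t) + ((1 / T : ℝ) : ℂ) * (y - x) := by
      simp only [hz]; push_cast; ring
    have e2 : ‖((1 / T : ℝ) : ℂ) * (y - x)‖ ≤ 1 / 20 := by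
      rw [norm_mul, Complex.norm_real, Real.norm_eq_abs, abs_of_pos (by positivity),
        div_mul_eq_mul_div, div_le_iff₀ hT0]
      linarith
    rw [e1]
    refine (norm_add_le _ _).trans ?_
    linarith [norm_sub_le (n (t + 1) - z (t + 1)) (n t - z t), (h1 t).2, (h1 (t + 1)).2]

lemma frame_move {L δ ε : ℝ} {K : ℕ} (hE : ∀ c, mu P (ball c (L / 2)) ≤ 3 / 5)
    (hsm : ∀ c, mu P (ball c (4 * K + 3)) ≤ δ) (hK : 3 / 5 < K * δ) (hL : 16 * K + 12 ≤ L)
    (hδ1 : δ ≤ 1 / 3000) (hε : ε + 4200 * δ ≤ 3 / 10) {x y p q : ℂ} (hxy : ‖y - x‖ ≤ L / 4)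
    (hp : p ∈ P) (hpx : ‖p - x‖ ≤ 3 / 5) (hq : q ∈ P) (hqy : ‖q - y‖ ≤ 3 / 5) {u : ℂ}
    (hu : ‖u‖ = 1) (h0 : Frame P p u ε) : Frame P q u (ε + 4200 * δ) := by
  have hK0 : (0 : ℝ) ≤ K := by positivity
  have hδ0 : 0 ≤ δ := (mu_nonneg hP _).trans (hsm 0)
  have hcov : ∀ x, ∃ p ∈ P, ‖p - x‖ ≤ 3 / 5 := fun x => exists_near hP
    ((mu_mono hP (ball_subset_ball (by linarith)) measure_ball_lt_top.ne).trans
      ((hsm x).trans (by linarith)))
  obtain ⟨v, hv, s, hs⟩ : ∃ v : ℂ, ‖v‖ = 1 ∧ ∃ s : ℝ, y - x = s * v :=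
    ⟨_, Complex.norm_exp_ofReal_mul_I (y - x).arg, _, (Complex.norm_mul_exp_arg_mul_I _).symm⟩
  have hv0 : v ≠ 0 := by rintro rfl; simp at hv
  set S : ℕ → Set ℂ := fun t => ball x (L / 2) ∩ {z | |((z - x) / v).im - 4 * t| < 2} with hS
  have hfin : ∀ t, volume (S t) ≠ ⊤ := fun t =>
    ((measure_mono inter_subset_left).trans_lt measure_ball_lt_top).ne
  have h1 : ∃ t < K, mu P (S t) ≤ δ := by
    by_contra hn
    push Not at hn
    have h2 := sum_mu_le hP (Finset.range K) S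
      (fun t _ => measurableSet_ball.inter (isOpen_lt (by fun_prop) (by fun_prop)).measurableSet)
      ?_ (t := ball x (L / 2)) (fun t _ => inter_subset_left) measure_ball_lt_top.ne
    · have h3 : ∑ t ∈ Finset.range K, δ ≤ ∑ t ∈ Finset.range K, mu P (S t) :=
        Finset.sum_le_sum fun t ht => (hn t (Finset.mem_range.1 ht)).le
      simp only [Finset.sum_const, Finset.card_range, nsmul_eq_mul] at h3
      linarith [hE x]
    · intro a _ b _ hab
      rw [Function.onFun, Set.disjoint_left]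
      rintro z ⟨_, ha⟩ ⟨_, hb⟩
      simp only [mem_ofPred_eq, abs_lt] at ha hb
      have a1 : (a : ℝ) < b + 1 := by linarith
      have a2 : (b : ℝ) < a + 1 := by linarith
      have a3 : a < b + 1 := by exact_mod_cast a1
      have a4 : b < a + 1 := by exact_mod_cast a2
      omega
  obtain ⟨t, ht, h2⟩ := h1
  have ht' : (t : ℝ) ≤ K := by exact_mod_cast ht.le
  set h : ℂ := 4 * t * Complex.I * v with hh
  have hhn : ‖h‖ ≤ 4 * K := by
    simp only [hh, norm_mul, hv, Complex.norm_I, Complex.norm_ofNat, Complex.norm_natCast]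
    linarith
  obtain ⟨p', hp', hp'x⟩ := hcov (x + h)
  obtain ⟨q', hq', hq'y⟩ := hcov (y + h)
  have hleg : ∀ a : ℂ, ∀ z ∈ segment ℝ a (a + h), ball z 2 ⊆ ball a (4 * K + 3) := by
    intro a z hz
    have : z ∈ closedBall a (4 * K) := (convex_closedBall a _).segment_subset
      (mem_closedBall_self (by positivity)) (by simpa [mem_closedBall, dist_eq_norm] using hhn) hz
    refine ball_subset_ball' ?_
    linarith [mem_closedBall.1 this]
  have f1 := frame_segment hP hcov measure_ball_lt_top.ne (hsm x) hδ1 (by linarith) (hleg x) hp hpx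
    hp' hp'x hu h0
  have f2 := frame_segment hP hcov (hfin t) h2 hδ1 (by linarith) (x := x + h) (y := y + h) ?_ hp'
    hp'x hq' hq'y hu f1
  · have f3 := frame_segment hP hcov measure_ball_lt_top.ne (hsm y) hδ1 (by linarith)
      (fun z hz => hleg y z (by rwa [segment_symm])) hq' hq'y hq hqy hu f2
    exact f3.mono (by linarith)
  · intro z hz w hw
    rw [segment_eq_image'] at hz
    obtain ⟨r, ⟨hr0, hr1⟩, rfl⟩ := hz
    simp only [add_sub_add_right_eq_sub, Complex.real_smul] at hw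
    rw [mem_ball, dist_eq_norm] at hw
    set d := w - (x + h + r * (y - x)) with hd
    have e1 : w - x = d + h + r * (y - x) := by rw [hd]; ring
    constructor
    · rw [mem_ball, dist_eq_norm, e1]
      refine norm_add₃_le.trans_lt ?_
      have : ‖(r : ℂ) * (y - x)‖ ≤ L / 4 := by
        rw [norm_mul, Complex.norm_real, Real.norm_eq_abs, abs_of_nonneg hr0]
        nlinarith [norm_nonneg (y - x)]
      linarith
    · have e2 : (w - x) / v = d / v + 4 * t * Complex.I + r * s := by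
        rw [e1, hs, hh]; field_simp
      simp only [mem_ofPred_eq, e2]
      have e3 := Complex.abs_im_le_norm (d / v)
      rw [norm_div, hv, div_one] at e3
      simp
      linarith

end

theorem global_frame {ε : ℝ} (hε : 0 < ε) : ∃ L0 : ℝ, ∀ (P : Set ℂ) (L : ℝ), Sep P → L0 ≤ L →
    (∀ c, mu P (ball c (L / 2)) ≤ 3 / 5) → P.Nonempty ∧ (∀ q ∈ P, exc P q ≤ ε) ∧
      ∃ u : ℂ, ‖u‖ = 1 ∧ ∀ q ∈ P, ‖q‖ ≤ L → Frame P q u ε := by
  set δ := min (1 / 100000) (ε / 17500) with hδ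
  have hδ0 : 0 < δ := lt_min (by norm_num) (by positivity)
  have hδ1 : δ ≤ 1 / 100000 := min_le_left _ _
  have hδ2 : δ ≤ ε / 17500 := min_le_right _ _
  obtain ⟨K, hK⟩ := exists_nat_gt (3 / 5 / δ)
  rw [div_lt_iff₀ hδ0] at hK
  obtain ⟨L0, hL0⟩ := small_ball hδ0 (4 * K + 3)
  refine ⟨max L0 (16 * K + 12), fun P L hP hL hE => ?_⟩
  have hsm := hL0 P L hP ((le_max_left _ _).trans hL) hE
  have hL1 : 16 * K + 12 ≤ L := (le_max_right _ _).trans hL
  have hK0 : (0 : ℝ) ≤ K := by positivity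
  have hcov : ∀ x, ∃ p ∈ P, ‖p - x‖ ≤ 3 / 5 := fun x => exists_near hP
    ((mu_mono hP (ball_subset_ball (by linarith)) measure_ball_lt_top.ne).trans
      ((hsm x).trans (by linarith)))
  have hexc : ∀ q ∈ P, exc P q ≤ δ := fun q hq =>
    (exc_le_mu hP hq (ball_subset_ball (by linarith [rho_lt])) measure_ball_lt_top.ne).trans (hsm q)
  obtain ⟨p0, hp0, hp0x⟩ := hcov 0
  obtain ⟨u, hu, hF⟩ := frame_exists hP hp0 ((hexc p0 hp0).trans (by linarith))
  refine ⟨⟨p0, hp0⟩, fun q hq => (hexc q hq).trans (by linarith), u, hu, fun q hq hqL => ?_⟩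
  have f0 : Frame P p0 u (700 * δ) := hF.mono (by linarith [hexc p0 hp0])
  obtain ⟨p1, hp1, hp1x⟩ := hcov (q / 4)
  obtain ⟨p2, hp2, hp2x⟩ := hcov (2 * q / 4)
  obtain ⟨p3, hp3, hp3x⟩ := hcov (3 * q / 4)
  have hq4 : ∀ a b : ℂ, b - a = q / 4 → ‖b - a‖ ≤ L / 4 := by
    intro a b h
    rw [h, norm_div]; simp only [Complex.norm_ofNat]; linarith
  have f1 := frame_move hP hE hsm hK hL1 (by linarith) (by linarith) (hq4 _ _ (by ring)) hp0 hp0x
    hp1 hp1x hu f0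
  have f2 := frame_move hP hE hsm hK hL1 (by linarith) (by linarith) (hq4 _ _ (by ring)) hp1 hp1x
    hp2 hp2x hu f1
  have f3 := frame_move hP hE hsm hK hL1 (by linarith) (by linarith) (hq4 _ _ (by ring)) hp2 hp2x
    hp3 hp3x hu f2
  have f4 := frame_move hP hE hsm hK hL1 (by linarith) (by linarith) (y := q) (hq4 _ _ (by ring))
    hp3 hp3x hq (by simp; norm_num) hu f3
  exact f4.mono (by linarith)

end Pool.Agent.MP_2616de_co

end MrgPart3

-- ======== part 4: formerly Pool.Agent.MP_2616de_co.Periodic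
section MrgPart4

set_option maxSynthPendingDepth 3
set_option linter.unusedSectionVars false

namespace Pool.Agent.MP_2616de_co

open MeasureTheory Set Metric Real Filter

/-- the period vectors -/
noncomputable def per (L : ℝ) (k : ℤ × ℤ) : ℂ := L * (k.1 + k.2 * Complex.I)

lemma per_re (L : ℝ) (k : ℤ × ℤ) : (per L k).re = L * k.1 := by simp [per]

lemma per_im (L : ℝ) (k : ℤ × ℤ) : (per L k).im = L * k.2 := by simp [per]

lemma per_add (L : ℝ) (k l : ℤ × ℤ) : per L (k + l) = per L k + per L l := by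
  simp [per]; ring

lemma per_neg (L : ℝ) (k : ℤ × ℤ) : per L (-k) = -per L k := by simp [per]; ring

lemma per_zero (L : ℝ) : per L 0 = 0 := by simp [per]

lemma per_inj {L : ℝ} (hL : 0 < L) {k l : ℤ × ℤ} (h : per L k = per L l) : k = l := by
  have h1 := congrArg Complex.re h
  have h2 := congrArg Complex.im h
  rw [per_re, per_re] at h1
  rw [per_im, per_im] at h2
  exact Prod.ext (by exact_mod_cast mul_left_cancel₀ hL.ne' h1)
    (by exact_mod_cast mul_left_cancel₀ hL.ne' h2)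

/-- half open square -/
def sqr (L : ℝ) (c : ℂ) : Set ℂ :=
  {x | (c.re ≤ x.re ∧ x.re < c.re + L) ∧ (c.im ≤ x.im ∧ x.im < c.im + L)}

lemma sqr_eq (L : ℝ) (c : ℂ) : sqr L c = Complex.measurableEquivRealProd ⁻¹'
    (Ico c.re (c.re + L) ×ˢ Ico c.im (c.im + L)) := rfl

lemma measurableSet_sqr (L : ℝ) (c : ℂ) : MeasurableSet (sqr L c) :=
  Complex.measurableEquivRealProd.measurable (measurableSet_Ico.prod measurableSet_Ico)

lemma vol_sqr {L : ℝ} (hL : 0 < L) (c : ℂ) : volume (sqr L c) = ENNReal.ofReal (L ^ 2) := by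
  rw [sqr_eq, Complex.volume_preserving_equiv_real_prod.measure_preimage_equiv,
    Measure.volume_eq_prod, Measure.prod_prod, Real.volume_Ico, Real.volume_Ico,
    ← ENNReal.ofReal_mul (by linarith)]
  congr 1; ring

lemma exists_per_mem {L : ℝ} (hL : 0 < L) (c x : ℂ) : ∃ k, x + per L k ∈ sqr L c := by
  have key : ∀ a b : ℝ, ∃ n : ℤ, a ≤ b + L * n ∧ b + L * n < a + L := by
    intro a b
    refine ⟨⌈(a - b) / L⌉, ?_, ?_⟩
    · have := Int.le_ceil ((a - b) / L)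
      rw [div_le_iff₀ hL] at this; linarith
    · have := Int.ceil_lt_add_one ((a - b) / L)
      rw [← sub_lt_iff_lt_add, lt_div_iff₀ hL] at this; linarith
  obtain ⟨n, hn⟩ := key c.re x.re
  obtain ⟨n', hn'⟩ := key c.im x.im
  exact ⟨(n, n'), by simpa [per_re] using hn, by simpa [per_im] using hn'⟩

lemma per_mem_unique {L : ℝ} (hL : 0 < L) {c x : ℂ} {k l : ℤ × ℤ} (hk : x + per L k ∈ sqr L c)
    (hl : x + per L l ∈ sqr L c) : k = l := by
  have key : ∀ (a b : ℝ) (n n' : ℤ), a ≤ b + L * n ∧ b + L * n < a + L →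
      a ≤ b + L * n' ∧ b + L * n' < a + L → n = n' := by
    intro a b n n' h h'
    have a1 : (n : ℝ) < n' + 1 := by nlinarith [h.1, h.2, h'.1, h'.2]
    have a2 : (n' : ℝ) < n + 1 := by nlinarith [h.1, h.2, h'.1, h'.2]
    have a3 : n < n' + 1 := by exact_mod_cast a1
    have a4 : n' < n + 1 := by exact_mod_cast a2
    omega
  refine Prod.ext (key c.re x.re _ _ ?_ ?_) (key c.im x.im _ _ ?_ ?_)
  · simpa [per_re] using hk.1
  · simpa [per_re] using hl.1
  · simpa [per_im] using hk.2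
  · simpa [per_im] using hl.2

lemma vol_unfold {L : ℝ} (hL : 0 < L) (c : ℂ) {C : Set ℂ} (hC : MeasurableSet C)
    (hd : ∀ x k l, x - per L k ∈ C → x - per L l ∈ C → k = l) :
    volume ({x | ∃ k, x - per L k ∈ C} ∩ sqr L c) = volume C := by
  have h1 : {x | ∃ k, x - per L k ∈ C} ∩ sqr L c =
      ⋃ k, ((fun x => x - per L k) ⁻¹' (C ∩ (fun y => y + per L k) ⁻¹' sqr L c)) := by
    ext x; simp
  have h2 : C = ⋃ k, (C ∩ (fun y => y + per L k) ⁻¹' sqr L c) := by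
    ext x
    simp only [mem_iUnion, mem_inter_iff, mem_preimage, exists_and_left]
    exact ⟨fun h => ⟨h, exists_per_mem hL c x⟩, fun h => h.1⟩
  have hm : ∀ k, MeasurableSet (C ∩ (fun y => y + per L k) ⁻¹' sqr L c) := fun k =>
    hC.inter ((measurableSet_sqr L c).preimage (by fun_prop))
  rw [h1, measure_iUnion _ fun k => (hm k).preimage (by fun_prop)]
  · conv_rhs => rw [h2]
    rw [measure_iUnion _ hm]
    · refine tsum_congr fun k => ?_
      exact (measurePreserving_sub_right volume (per L k)).measure_preimage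
        (hm k).nullMeasurableSet
    · intro k l hkl
      rw [Function.onFun, Set.disjoint_left]
      exact fun x hk hl => hkl (per_mem_unique hL hk.2 hl.2)
  · intro k l hkl
    rw [Function.onFun, Set.disjoint_left]
    exact fun x hk hl => hkl (hd x k l hk.1 hl.1)

section
variable {P : Set ℂ} {g : ℂ} (hg : ∀ x, x + g ∈ P ↔ x ∈ P)
include hg

lemma cell_add (p x : ℂ) : x ∈ cell P (p + g) ↔ x - g ∈ cell P p := by
  simp only [cell, mem_ofPred_eq]
  rw [show x - (p + g) = x - g - p by ring]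
  refine and_congr_right fun _ => ⟨fun h q hq hne => ?_, fun h q hq hne => ?_⟩
  · have := h (q + g) ((hg q).2 hq) (fun h => hne (add_right_cancel h))
    rwa [show x - (q + g) = x - g - q by ring] at this
  · have := h (q - g) ((hg _).1 (by simpa using hq)) (fun h => hne (by rw [← h]; ring))
    rwa [show x - g - (q - g) = x - q by ring] at this

lemma vol_cell_add (p : ℂ) : volume.real (cell P (p + g)) = volume.real (cell P p) := by
  have : cell P (p + g) = (fun x => x + -g) ⁻¹' cell P p := by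
    ext x; rw [cell_add hg]; simp [sub_eq_add_neg]
  rw [measureReal_def, measureReal_def, this, measure_preimage_add_right]

lemma exc_add (p : ℂ) : exc P (p + g) = exc P p := by rw [exc, exc, vol_cell_add hg]

lemma Frame.add {p u : ℂ} {ε : ℝ} (h : Frame P p u ε) : Frame P (p + g) u ε := fun k => by
  obtain ⟨q, hq, h1⟩ := h k
  exact ⟨q + g, (hg q).2 hq, by rwa [add_sub_add_right_eq_sub]⟩

end

/-- the periodic point set generated by finitely many points -/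
def PP {N : ℕ} (z : Fin N → ℂ) (L : ℝ) : Set ℂ := {x | ∃ i k, x = z i + per L k}

lemma PP_add {N : ℕ} (z : Fin N → ℂ) (L : ℝ) (k : ℤ × ℤ) (x : ℂ) :
    x + per L k ∈ PP z L ↔ x ∈ PP z L := by
  constructor
  · rintro ⟨i, l, h⟩
    exact ⟨i, l + -k, by rw [per_add, per_neg, ← add_assoc, ← h]; ring⟩
  · rintro ⟨i, l, rfl⟩
    exact ⟨i, l + k, by rw [per_add, add_assoc]⟩

lemma mem_PP' {N : ℕ} (z : Fin N → ℂ) (L : ℝ) (i : Fin N) (k : ℤ × ℤ) : z i + per L k ∈ PP z L :=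
  ⟨i, k, rfl⟩

lemma mem_PP {N : ℕ} (z : Fin N → ℂ) (L : ℝ) (i : Fin N) : z i ∈ PP z L :=
  ⟨i, 0, by rw [per_zero, add_zero]⟩

section
variable {N : ℕ} {z : Fin N → ℂ} {L : ℝ} (hL : 0 < L) (hP : Sep (PP z L))
  (hz : ∀ i j k l, z i + per L k = z j + per L l → i = j)
include hL hP hz

lemma cell_unique {i j : Fin N} {k l : ℤ × ℤ} {x : ℂ} (hk : x - per L k ∈ cell (PP z L) (z i))
    (hl : x - per L l ∈ cell (PP z L) (z j)) : i = j ∧ k = l := by
  rw [← cell_add (PP_add z L _)] at hk hl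
  have h1 : z i + per L k = z j + per L l := by
    by_contra hne
    exact Set.disjoint_left.1 (cell_disjoint (mem_PP' z L i k) (mem_PP' z L j l) hne) hk hl
  have h2 := hz _ _ _ _ h1
  subst h2
  exact ⟨rfl, per_inj hL (add_left_cancel h1)⟩

lemma vol_U (c : ℂ) (i : Fin N) :
    volume.real ({x | ∃ k, x - per L k ∈ cell (PP z L) (z i)} ∩ sqr L c) =
      volume.real (cell (PP z L) (z i)) := by
  rw [measureReal_def, vol_unfold hL c (measurableSet_cell hP _)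
    fun x k l hk hl => (cell_unique hL hP hz hk hl).2, measureReal_def]

omit hL hz in
lemma measurableSet_U (i : Fin N) : MeasurableSet {x | ∃ k, x - per L k ∈ cell (PP z L) (z i)} := by
  rw [Set.ofPred_exists]
  exact MeasurableSet.iUnion fun k => (measurableSet_cell hP _).preimage (by fun_prop)

lemma mu_sqr (c : ℂ) : mu (PP z L) (sqr L c) = L ^ 2 - kap * N := by
  set U : Fin N → Set ℂ := fun i => {x | ∃ k, x - per L k ∈ cell (PP z L) (z i)} with hU
  have hfin : volume (sqr L c) ≠ ⊤ := by rw [vol_sqr hL]; exact ENNReal.ofReal_ne_top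
  have h1 : ∀ x, dens (PP z L) x = 1 - ∑ i, (U i).indicator
      (fun _ => kap / volume.real (cell (PP z L) (z i))) x := by
    intro x
    by_cases h : ∃ i, x ∈ U i
    · obtain ⟨i, k, hk⟩ := h
      rw [Finset.sum_eq_single i, indicator_of_mem (show x ∈ U i from ⟨k, hk⟩),
        dens_of_mem (mem_PP' z L i k) ((cell_add (PP_add z L k) _ _).2 hk), vol_cell_add (PP_add z L k)]
      · rintro j _ hj
        refine indicator_of_notMem ?_ _
        rintro ⟨l, hl⟩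
        exact hj (cell_unique hL hP hz hl hk).1
      · simp
    · push Not at h
      rw [dens_of_not, Finset.sum_eq_zero fun i _ => indicator_of_notMem (h i) _, sub_zero]
      rintro p ⟨i, k, rfl⟩ hx
      exact h i ⟨k, (cell_add (PP_add z L k) _ _).1 hx⟩
  have hk : ∀ a : ℝ, IntegrableOn (fun _ : ℂ => a) (sqr L c) := fun a => integrableOn_const hfin
  have hi : ∀ i, IntegrableOn ((U i).indicator fun _ => kap / volume.real (cell (PP z L) (z i)))
      (sqr L c) := fun i => (hk _).indicator (measurableSet_U hP i)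
  rw [mu]
  simp_rw [h1]
  rw [integral_sub (hk 1) (integrable_finsetSum _ fun i _ => hi i),
    integral_finsetSum _ fun i _ => hi i, setIntegral_const, measureReal_def, vol_sqr hL,
    ENNReal.toReal_ofReal (by positivity), smul_eq_mul, mul_one]
  congr 1
  rw [Finset.sum_congr rfl (g := fun _ => kap)]
  · simp [mul_comm]
  · intro i _
    rw [setIntegral_indicator (measurableSet_U hP i), setIntegral_const, inter_comm,
      vol_U hL hP hz, smul_eq_mul]
    have := (vol_cell_pos hP (mem_PP z L i)).ne'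
    field_simp

lemma mu_ball_le (c : ℂ) : mu (PP z L) (ball c (L / 2)) ≤ L ^ 2 - kap * N := by
  rw [← mu_sqr hL hP hz (c - (L / 2 + L / 2 * Complex.I))]
  refine mu_mono hP (fun x hx => ?_) (by rw [vol_sqr hL]; exact ENNReal.ofReal_ne_top)
  rw [mem_ball, dist_eq_norm] at hx
  have h1 := abs_lt.1 ((Complex.abs_re_le_norm (x - c)).trans_lt hx)
  have h2 := abs_lt.1 ((Complex.abs_im_le_norm (x - c)).trans_lt hx)
  simp only [Complex.sub_re, Complex.sub_im] at h1 h2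
  simp [sqr]
  refine ⟨⟨?_, ?_⟩, ?_, ?_⟩ <;> linarith [h1.1, h1.2, h2.1, h2.2]

lemma sum_exc_per : ∑ i, exc (PP z L) (z i) ≤ L ^ 2 - kap * N := by
  have hfin : volume (sqr L 0) ≠ ⊤ := by rw [vol_sqr hL]; exact ENNReal.ofReal_ne_top
  have h1 : ∑ i, volume.real (cell (PP z L) (z i)) ≤ L ^ 2 := by
    rw [← Finset.sum_congr rfl fun i _ => vol_U hL hP hz 0 i, ← measureReal_biUnion_finset]
    · refine (measureReal_mono (iUnion₂_subset fun i _ => inter_subset_right) hfin).trans ?_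
      rw [measureReal_def, vol_sqr hL, ENNReal.toReal_ofReal (by positivity)]
    · intro i _ j _ hij
      rw [Function.onFun, Set.disjoint_left]
      rintro x ⟨⟨k, hk⟩, _⟩ ⟨⟨l, hl⟩, _⟩
      exact hij (cell_unique hL hP hz hk hl).1
    · exact fun i _ => (measurableSet_U hP i).inter (measurableSet_sqr L 0)
  simp only [exc, Finset.sum_sub_distrib, Finset.sum_const, Finset.card_univ, Fintype.card_fin,
    nsmul_eq_mul]
  linarith

end

theorem periodic_frame {ε : ℝ} (hε : 0 < ε) : ∃ L0 : ℝ, ∀ (N : ℕ) (z : Fin N → ℂ) (L : ℝ),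
    L0 ≤ L → 0 < L → Sep (PP z L) → (∀ i j k l, z i + per L k = z j + per L l → i = j) →
    L ^ 2 - kap * N ≤ 3 / 5 → (PP z L).Nonempty ∧ (∀ q ∈ PP z L, exc (PP z L) q ≤ ε) ∧
      ∃ u : ℂ, ‖u‖ = 1 ∧ ∀ q ∈ PP z L, Frame (PP z L) q u ε := by
  obtain ⟨L0, h⟩ := global_frame hε
  refine ⟨L0, fun N z L hL0 hL hP hz hE => ?_⟩
  obtain ⟨h1, h2, u, hu, h3⟩ := h _ L hP hL0 fun c => (mu_ball_le hL hP hz c).trans hE
  refine ⟨h1, h2, u, hu, fun q hq => ?_⟩
  obtain ⟨k, hk⟩ := exists_per_mem hL (-(L / 2 + L / 2 * Complex.I)) q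
  have h4 := (h3 _ ((PP_add z L k q).2 hq) ?_).add (PP_add z L (-k))
  · rwa [per_neg, add_neg_cancel_right] at h4
  · refine (Complex.norm_le_abs_re_add_abs_im _).trans ?_
    simp [sqr] at hk
    have a1 : |(q + per L k).re| ≤ L / 2 := by
      rw [abs_le]; simp only [Complex.add_re]; constructor <;> linarith [hk.1.1, hk.1.2]
    have a2 : |(q + per L k).im| ≤ L / 2 := by
      rw [abs_le]; simp only [Complex.add_im]; constructor <;> linarith [hk.2.1, hk.2.2]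
    linarith

end Pool.Agent.MP_2616de_co

end MrgPart4

-- ======== part 5: formerly Pool.Agent.MP_2616de_co.Label
section MrgPart5

set_option maxSynthPendingDepth 3
set_option linter.unusedSectionVars false

namespace Pool.Agent.MP_2616de_co

open Set Metric Real

/-- hexagonal lattice point in the basis 1, ze squared -/
noncomputable def lat2 (v : ℤ × ℤ) : ℂ := v.1 + v.2 * ze ^ 2

lemma norm_lat2_ge (v : ℤ × ℤ) : (|(v.1 : ℝ)| + |(v.2 : ℝ)|) / 2 ≤ ‖lat2 v‖ := by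
  rw [← sq_le_sq₀ (by positivity) (norm_nonneg _), norm_sq_eq]
  have h1 : (lat2 v).re = v.1 - v.2 / 2 := by simp [lat2, ze_sq, ze_re]; ring
  have h2 : (lat2 v).im = √3 / 2 * v.2 := by simp [lat2, ze_sq, ze_im]; ring
  have h3 : (√3 / 2 * v.2) ^ 2 = 3 / 4 * (v.2 : ℝ) ^ 2 := by
    linear_combination ((v.2 : ℝ) ^ 2 / 4) * sqrt3_sq
  rw [h1, h2, h3]
  have h4 := sq_abs (v.1 : ℝ)
  have h5 := sq_abs (v.2 : ℝ)
  nlinarith [sq_nonneg (|(v.1 : ℝ)| - |(v.2 : ℝ)|), sq_nonneg ((v.1 : ℝ) - v.2)]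

/-- a labelling of the points of P by the hexagonal lattice -/
structure IsLabel (P : Set ℂ) (u : ℂ) (δ : ℝ) (ι : ℤ × ℤ → ℂ) : Prop where
  mem : ∀ v, ι v ∈ P
  s1 : ∀ v, ‖ι (v + (1, 0)) - ι v - u‖ ≤ δ
  s2 : ∀ v, ‖ι (v + (0, 1)) - ι v - u * ze ^ 2‖ ≤ δ
  s3 : ∀ v, ‖ι (v + (-1, -1)) - ι v - u * ze ^ 4‖ ≤ δ

lemma Sep.eq_of_near {P : Set ℂ} (hP : Sep P) {p q x : ℂ} (hp : p ∈ P) (hq : q ∈ P) {a b : ℝ}
    (h1 : ‖p - x‖ ≤ a) (h2 : ‖q - x‖ ≤ b) (h : a + b < 1) : p = q := by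
  apply hP.eq_of_lt hp hq
  have := norm_sub_le_norm_sub_add_norm_sub p x q
  rw [norm_sub_rev x q] at this
  linarith

lemma exists_label {P : Set ℂ} (hP : Sep P) {u : ℂ} {δ : ℝ} (hδ : δ ≤ 1 / 100)
    (hF : ∀ q ∈ P, Frame P q u δ) {p0 : ℂ} (hp0 : p0 ∈ P) : ∃ ι, IsLabel P u δ ι ∧ ι 0 = p0 := by
  have h1 : ∀ (k : ℕ) (p : P), ∃ q : P, ‖(q : ℂ) - p - u * ze ^ k‖ ≤ δ := fun k p => by
    obtain ⟨q, hq, h⟩ := hF p p.2 k
    exact ⟨⟨q, hq⟩, h⟩
  choose σ hσ using h1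
  have h2 : ∀ (j k : ℕ) (p : P), ‖(σ j (σ k p) : ℂ) - (p + u * (ze ^ j + ze ^ k))‖ ≤ 2 * δ := by
    intro j k p
    have : (σ j (σ k p) : ℂ) - (p + u * (ze ^ j + ze ^ k)) =
        ((σ j (σ k p) : ℂ) - σ k p - u * ze ^ j) + ((σ k p : ℂ) - p - u * ze ^ k) := by ring
    rw [this]
    linarith [norm_add_le ((σ j (σ k p) : ℂ) - σ k p - u * ze ^ j) ((σ k p : ℂ) - p - u * ze ^ k),
      hσ j (σ k p), hσ k p]
  have h3 : ∀ (j k : ℕ), ze ^ j + ze ^ k = 0 → ∀ p : P, σ j (σ k p) = p := by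
    intro j k h p
    have := h2 j k p
    rw [h, mul_zero, add_zero] at this
    exact Subtype.ext (hP.eq_of_lt (σ j (σ k p)).2 p.2 (by linarith))
  have e3 := ze_three
  let a : Equiv.Perm P := ⟨σ 0, σ 3, h3 3 0 (by rw [e3]; simp), h3 0 3 (by rw [e3]; simp)⟩
  let b : Equiv.Perm P := ⟨σ 2, σ 5, h3 5 2 (by linear_combination ze ^ 2 * e3),
    h3 2 5 (by linear_combination ze ^ 2 * e3)⟩
  have hab : Commute a b := by
    ext p
    change (σ 0 (σ 2 p) : ℂ) = σ 2 (σ 0 p)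
    exact hP.eq_of_near (σ 0 (σ 2 p)).2 (σ 2 (σ 0 p)).2 (h2 0 2 p) (add_comm (ze ^ 2) _ ▸ h2 2 0 p)
      (by linarith)
  refine ⟨fun v => ((a ^ v.1 * b ^ v.2) ⟨p0, hp0⟩ : P), ⟨fun v => Subtype.property _, fun v => ?_,
    fun v => ?_, fun v => ?_⟩, by simp⟩
  · have : a ^ (v + (1, 0)).1 * b ^ (v + (1, 0)).2 = a * (a ^ v.1 * b ^ v.2) := by
      simp only [Prod.fst_add, Prod.snd_add, add_zero]
      rw [add_comm, zpow_one_add, mul_assoc]
    simp only [this, Equiv.Perm.mul_apply]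
    have h4 := hσ 0 ((a ^ v.1) ((b ^ v.2) ⟨p0, hp0⟩))
    rw [pow_zero, mul_one] at h4
    exact h4
  · have : a ^ (v + (0, 1)).1 * b ^ (v + (0, 1)).2 = b * (a ^ v.1 * b ^ v.2) := by
      simp only [Prod.fst_add, Prod.snd_add, add_zero]
      rw [add_comm, zpow_one_add, ← mul_assoc, ← mul_assoc, (hab.zpow_left v.1).eq]
    simp only [this, Equiv.Perm.mul_apply]
    exact hσ 2 _
  · have : a ^ (v + (-1, -1)).1 * b ^ (v + (-1, -1)).2 = a⁻¹ * (b⁻¹ * (a ^ v.1 * b ^ v.2)) := by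
      simp only [Prod.fst_add, Prod.snd_add]
      rw [add_comm v.1, add_comm v.2, zpow_add, zpow_add, zpow_neg_one, zpow_neg_one, mul_assoc,
        ← mul_assoc (a ^ v.1), (hab.zpow_left v.1).inv_right.eq, mul_assoc]
    simp only [this, Equiv.Perm.mul_apply]
    set p := (a ^ v.1) ((b ^ v.2) ⟨p0, hp0⟩)
    change ‖(σ 3 (σ 5 p) : ℂ) - p - u * ze ^ 4‖ ≤ δ
    have h4 : (σ 3 (σ 5 p) : ℂ) = σ 4 p := by
      refine hP.eq_of_near (σ 3 (σ 5 p)).2 (σ 4 p).2 (h2 3 5 p) (b := δ) ?_ (by linarith)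
      have : ze ^ 3 + ze ^ 5 = ze ^ 4 := by linear_combination ze ^ 3 * ze_sq
      rw [this, ← sub_sub]
      exact hσ 4 p
    rw [h4]
    exact hσ 4 p

lemma norm_line_le {f : ℤ → ℂ} {w : ℂ} {δ : ℝ} (h : ∀ n, ‖f (n + 1) - f n - w‖ ≤ δ) (n : ℤ) :
    ‖f n - f 0 - n * w‖ ≤ δ * |(n : ℝ)| := by
  induction n using Int.induction_on with
  | zero => simp
  | succ n ih =>
    have : f (n + 1) - f 0 - ((n : ℤ) + 1 : ℤ) * w =
        (f (n + 1) - f n - w) + (f n - f 0 - (n : ℤ) * w) := by push_cast; ring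
    rw [this]
    refine (norm_add_le _ _).trans ?_
    have h1 := h n
    push_cast at ih ⊢
    rw [abs_of_nonneg (by positivity)] at ih ⊢
    linarith
  | pred n ih =>
    have : f (-n - 1) - f 0 - ((-n - 1 : ℤ) : ℂ) * w =
        (f (-n) - f 0 - ((-n : ℤ) : ℂ) * w) - (f (-n - 1 + 1) - f (-n - 1) - w) := by
      rw [sub_add_cancel]; push_cast; ring
    rw [this]
    refine (norm_sub_le _ _).trans ?_
    have h1 := h (-n - 1)
    push_cast at ih h1 ⊢
    have : (0 : ℝ) ≤ n := by positivity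
    rw [abs_of_nonpos (by linarith)] at ih ⊢
    linarith

namespace IsLabel
variable {P : Set ℂ} {u : ℂ} {δ : ℝ} {ι : ℤ × ℤ → ℂ} (h : IsLabel P u δ ι)
include h

lemma norm_le (v w : ℤ × ℤ) :
    ‖ι (v + w) - ι v - u * lat2 w‖ ≤ δ * (|(w.1 : ℝ)| + |(w.2 : ℝ)|) := by
  have h1 := norm_line_le (f := fun n => ι (v + (n, 0))) (w := u) (δ := δ)
    (fun n => by
      have := h.s1 (v + (n, 0))
      rwa [add_assoc, show ((n, 0) : ℤ × ℤ) + (1, 0) = (n + 1, 0) from rfl] at this) w.1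
  have h2 := norm_line_le (f := fun n => ι (v + (w.1, n))) (w := u * ze ^ 2) (δ := δ)
    (fun n => by simpa [add_assoc] using h.s2 (v + (w.1, n))) w.2
  simp only [Prod.mk_zero_zero, add_zero, Prod.mk.eta] at h1 h2
  have : ι (v + w) - ι v - u * lat2 w = (ι (v + w) - ι (v + (w.1, 0)) - w.2 * (u * ze ^ 2)) +
    (ι (v + (w.1, 0)) - ι v - w.1 * u) := by rw [lat2]; ring
  rw [this]
  refine (norm_add_le _ _).trans ?_
  linarith

lemma injective (hu : ‖u‖ = 1) (hδ : δ ≤ 1 / 100) : Function.Injective ι := by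
  intro v w hvw
  have h1 := h.norm_le v (w - v)
  rw [add_sub_cancel, hvw, sub_self, zero_sub, norm_neg, norm_mul, hu, one_mul] at h1
  have h2 := norm_lat2_ge (w - v)
  have a1 := abs_nonneg ((w - v).1 : ℝ)
  have a2 := abs_nonneg ((w - v).2 : ℝ)
  have h3 : |((w - v).1 : ℝ)| + |((w - v).2 : ℝ)| ≤ 0 := by nlinarith
  have h4 : ((w - v).1 : ℝ) = 0 := abs_eq_zero.1 (by linarith)
  have h5 : ((w - v).2 : ℝ) = 0 := abs_eq_zero.1 (by linarith)
  have h6 : w - v = 0 := Prod.ext (by exact_mod_cast h4) (by exact_mod_cast h5)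
  exact (sub_eq_zero.1 h6).symm

lemma exists_dir (v : ℤ × ℤ) (k : ℕ) : ∃ w, ‖ι w - ι v - u * ze ^ k‖ ≤ δ := by
  have e3 := ze_three
  have hback : ∀ (w : ℤ × ℤ) (c : ℂ), (∀ v, ‖ι (v + w) - ι v - c‖ ≤ δ) →
      ‖ι (v - w) - ι v - -c‖ ≤ δ := by
    intro w c hw
    have := hw (v - w)
    rw [sub_add_cancel, ← norm_neg] at this
    rwa [show -(ι v - ι (v - w) - c) = ι (v - w) - ι v - -c by ring] at this
  rw [ze_pow_mod]
  have : k % 6 < 6 := Nat.mod_lt _ (by norm_num)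
  interval_cases k % 6
  · exact ⟨_, by simpa using h.s1 v⟩
  · refine ⟨v - (-1, -1), ?_⟩
    convert hback _ _ h.s3 using 3
    linear_combination u * ze * e3
  · exact ⟨_, h.s2 v⟩
  · refine ⟨v - (1, 0), ?_⟩
    convert hback _ _ h.s1 using 3
    linear_combination u * e3
  · exact ⟨_, h.s3 v⟩
  · refine ⟨v - (0, 1), ?_⟩
    convert hback _ _ h.s2 using 3
    linear_combination u * ze ^ 2 * e3

lemma surj (hP : Sep P) (hu : ‖u‖ = 1) (hδ : δ ≤ 1 / 100) {q : ℂ} (hq : q ∈ P) : ∃ v, ι v = q := by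
  have hfin : (range ι ∩ ball q (‖ι 0 - q‖ + 1)).Finite :=
    (hP.finite_ball q _).subset (inter_subset_inter_left _ (range_subset_iff.2 h.mem))
  obtain ⟨x, ⟨⟨v, rfl⟩, hv⟩, hmin⟩ := Set.exists_min_image _ (fun x => ‖q - x‖) hfin
    ⟨ι 0, ⟨0, rfl⟩, by rw [mem_ball, dist_eq_norm]; linarith⟩
  refine ⟨v, ?_⟩
  by_contra hne
  have h1 := hP q hq _ (h.mem v) (Ne.symm hne)
  obtain ⟨k, hk⟩ := norm_sub_dir_sq (q - ι v) u hu
  obtain ⟨w, hw⟩ := h.exists_dir v k
  have hδ0 : 0 ≤ δ := (norm_nonneg _).trans hw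
  have h2 : ‖q - ι v - u * ze ^ k‖ < ‖q - ι v‖ - δ := by
    rw [← sq_lt_sq₀ (norm_nonneg _) (by linarith)]
    nlinarith [sqrt3_gt]
  have h3 : ‖q - ι w‖ < ‖q - ι v‖ := by
    have : q - ι w = (q - ι v - u * ze ^ k) - (ι w - ι v - u * ze ^ k) := by ring
    rw [this]
    linarith [norm_sub_le (q - ι v - u * ze ^ k) (ι w - ι v - u * ze ^ k)]
  have h4 := hmin (ι w) ⟨⟨w, rfl⟩, by
    rw [mem_ball, dist_eq_norm, norm_sub_rev] at hv ⊢; linarith⟩
  linarith

lemma unique (hP : Sep P) (hδ : δ ≤ 1 / 100) {ι' : ℤ × ℤ → ℂ} (h' : IsLabel P u δ ι')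
    (h0 : ι 0 = ι' 0) (v : ℤ × ℤ) : ι v = ι' v := by
  have key : ∀ (w : ℤ × ℤ) (c : ℂ), (∀ v, ‖ι (v + w) - ι v - c‖ ≤ δ) →
      (∀ v, ‖ι' (v + w) - ι' v - c‖ ≤ δ) → ∀ v, ι v = ι' v → ∀ n : ℤ,
        ι (v + n • w) = ι' (v + n • w) := by
    intro w c h1 h2 v hv n
    induction n using Int.induction_on with
    | zero => simpa using hv
    | succ n ih =>
      have a1 := h1 (v + (n : ℤ) • w)
      have a2 := h2 (v + (n : ℤ) • w)
      rw [ih, sub_sub] at a1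
      rw [sub_sub] at a2
      rw [add_smul, one_smul, ← add_assoc]
      exact hP.eq_of_near (h.mem _) (h'.mem _) a1 a2 (by linarith)
    | pred n ih =>
      have a1 := h1 (v + (-(n : ℤ) - 1) • w)
      have a2 := h2 (v + (-(n : ℤ) - 1) • w)
      have e : v + (-(n : ℤ) - 1) • w + w = v + (-(n : ℤ)) • w := by
        rw [sub_smul, one_smul]; abel
      rw [e, sub_right_comm, norm_sub_rev] at a1 a2
      rw [ih] at a1
      exact hP.eq_of_near (h.mem _) (h'.mem _) a1 a2 (by linarith)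
  have h1 := key _ _ h.s2 h'.s2 _ (key _ _ h.s1 h'.s1 0 h0 v.1) v.2
  simpa using h1

lemma add_per (hP : Sep P) (hδ : δ ≤ 1 / 100) {g : ℂ} (hg : ∀ x, x + g ∈ P ↔ x ∈ P) {γ : ℤ × ℤ}
    (hγ : ι γ = ι 0 + g) (v : ℤ × ℤ) : ι (v + γ) = ι v + g := by
  have h' : IsLabel P u δ fun v => ι (v + γ) - g := by
    refine ⟨fun v => (hg _).1 (by simpa using h.mem _), fun v => ?_, fun v => ?_, fun v => ?_⟩ <;>
      rw [sub_sub_sub_cancel_right, add_right_comm]
    · exact h.s1 _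
    · exact h.s2 _
    · exact h.s3 _
  have := h.unique hP hδ h' (by simp [hγ]) v
  rw [this]; ring

end IsLabel

end Pool.Agent.MP_2616de_co

end MrgPart5

-- ======== part 6: formerly Pool.Agent.MP_2616de_co.Energy
section MrgPart6

set_option maxSynthPendingDepth 3
set_option linter.unusedSectionVars false

namespace Pool.Agent.MP_2616de_co

open Real

section
variable {G : Type*} [AddCommGroup G] [Fintype G]

lemma sum_shift {M : Type*} [AddCommMonoid M] (f : G → M) (g : G) : ∑ x, f (x + g) = ∑ x, f x :=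
  Equiv.sum_comp (Equiv.addRight g) f

lemma korn (e1 e2 : G) (f1 f2 : G → ℝ) :
    ∑ x, (f1 (x + e2) - f1 x) ^ 2 + ∑ x, (f2 (x + e1) - f2 x) ^ 2 ≤
      4 * (∑ x, (f1 (x + e1) - f1 x) ^ 2 + ∑ x, (f2 (x + e2) - f2 x) ^ 2 +
        ∑ x, ((-f1 (x + (-e1 - e2)) - f2 (x + (-e1 - e2))) - (-f1 x - f2 x)) ^ 2) := by
  set s1 := ∑ x, (f1 (x + e1) - f1 x) ^ 2 with hs1
  set s2 := ∑ x, (f2 (x + e2) - f2 x) ^ 2 with hs2
  set s3 := ∑ x, ((-f1 (x + (-e1 - e2)) - f2 (x + (-e1 - e2))) - (-f1 x - f2 x)) ^ 2 with hs3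
  have a1 : ∑ y, (f1 (y + e2 + e1) - f1 (y + e2)) ^ 2 = s1 :=
    sum_shift (fun x => (f1 (x + e1) - f1 x) ^ 2) e2
  have a2 : ∑ y, (f2 (y + e1 + e2) - f2 (y + e1)) ^ 2 = s2 :=
    sum_shift (fun x => (f2 (x + e2) - f2 x) ^ 2) e1
  have a3 : ∑ y, ((-f1 y - f2 y) - (-f1 (y + (e1 + e2)) - f2 (y + (e1 + e2)))) ^ 2 = s3 := by
    rw [hs3, ← sum_shift (fun x =>
      ((-f1 (x + (-e1 - e2)) - f2 (x + (-e1 - e2))) - (-f1 x - f2 x)) ^ 2) (e1 + e2)]
    refine Finset.sum_congr rfl fun y _ => ?_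
    rw [show y + (e1 + e2) + (-e1 - e2) = y by abel]
  have h1 : ∑ y, ((f1 (y + e2) - f1 y) + (f2 (y + e1) - f2 y)) ^ 2 ≤ 3 * (s1 + s2 + s3) := by
    rw [← a1, ← a2, ← a3, ← Finset.sum_add_distrib, ← Finset.sum_add_distrib, Finset.mul_sum]
    refine Finset.sum_le_sum fun y _ => ?_
    rw [show y + e2 + e1 = y + (e1 + e2) by abel, show y + e1 + e2 = y + (e1 + e2) by abel]
    set A := f1 (y + (e1 + e2)) - f1 (y + e2) with hA
    set B := f2 (y + (e1 + e2)) - f2 (y + e1) with hB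
    set C := (-f1 y - f2 y) - (-f1 (y + (e1 + e2)) - f2 (y + (e1 + e2))) with hC
    have : (f1 (y + e2) - f1 y) + (f2 (y + e1) - f2 y) = C - A - B := by rw [hA, hB, hC]; ring
    rw [this]
    nlinarith [sq_nonneg (A - B), sq_nonneg (A + C), sq_nonneg (B + C)]
  have h2 : ∑ y, (f1 (y + e2) - f1 y) * (f2 (y + e1) - f2 y) =
      ∑ y, (f1 (y + e2 + e1) - f1 (y + e2)) * (f2 (y + e1 + e2) - f2 (y + e1)) := by
    have b1 : ∑ y, f1 (y + e2 + e1) * f2 (y + e1 + e2) = ∑ y, f1 y * f2 y := by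
      rw [← sum_shift (fun y => f1 y * f2 y) (e1 + e2)]
      refine Finset.sum_congr rfl fun y _ => ?_
      rw [show y + e2 + e1 = y + (e1 + e2) by abel, show y + e1 + e2 = y + (e1 + e2) by abel]
    have b2 : ∑ y, f1 (y + e2 + e1) * f2 (y + e1) = ∑ y, f1 (y + e2) * f2 y := by
      rw [← sum_shift (fun y => f1 (y + e2) * f2 y) e1]
      refine Finset.sum_congr rfl fun y _ => ?_
      rw [show y + e2 + e1 = y + e1 + e2 by abel]
    have b3 : ∑ y, f1 (y + e2) * f2 (y + e1 + e2) = ∑ y, f1 y * f2 (y + e1) := by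
      rw [← sum_shift (fun y => f1 y * f2 (y + e1)) e2]
      refine Finset.sum_congr rfl fun y _ => ?_
      rw [show y + e2 + e1 = y + e1 + e2 by abel]
    simp only [sub_mul, mul_sub, Finset.sum_sub_distrib]
    rw [b1, b2, b3]
    ring
  have h3 : -(s1 + s2) ≤
      2 * ∑ y, (f1 (y + e2 + e1) - f1 (y + e2)) * (f2 (y + e1 + e2) - f2 (y + e1)) := by
    rw [← a1, ← a2, ← Finset.sum_add_distrib, ← Finset.sum_neg_distrib, Finset.mul_sum]
    refine Finset.sum_le_sum fun y _ => ?_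
    nlinarith [sq_nonneg ((f1 (y + e2 + e1) - f1 (y + e2)) + (f2 (y + e1 + e2) - f2 (y + e1)))]
  have h4 : ∑ y, ((f1 (y + e2) - f1 y) + (f2 (y + e1) - f2 y)) ^ 2 =
      ∑ x, (f1 (x + e2) - f1 x) ^ 2 + ∑ x, (f2 (x + e1) - f2 x) ^ 2 +
        2 * ∑ y, (f1 (y + e2) - f1 y) * (f2 (y + e1) - f2 y) := by
    rw [Finset.mul_sum, ← Finset.sum_add_distrib, ← Finset.sum_add_distrib]
    refine Finset.sum_congr rfl fun y _ => ?_
    ring
  have h5 : 0 ≤ s3 := Finset.sum_nonneg fun _ _ => sq_nonneg _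
  linarith

/-- real inner product of two plane vectors -/
def dot (a b : ℂ) : ℝ := a.re * b.re + a.im * b.im

lemma abs_dot_le (a b : ℂ) : |dot a b| ≤ ‖a‖ * ‖b‖ := by
  rw [← sq_le_sq₀ (abs_nonneg _) (by positivity), sq_abs, mul_pow, norm_sq_eq, norm_sq_eq, dot]
  nlinarith [sq_nonneg (a.re * b.im - a.im * b.re)]

lemma norm_add_sq_dot (a b : ℂ) : ‖a + b‖ ^ 2 = ‖a‖ ^ 2 + 2 * dot a b + ‖b‖ ^ 2 := by
  simp only [norm_sq_eq, dot, Complex.add_re, Complex.add_im]; ring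

lemma norm_sq_le_dot {v1 v2 : ℂ} (h1 : ‖v1‖ ≤ 1.01) (h2 : ‖v2‖ ≤ 1.01) (h : kap ≤ |cr v1 v2|)
    (w : ℂ) : ‖w‖ ^ 2 ≤ 3 * (dot v1 w ^ 2 + dot v2 w ^ 2) := by
  have a1 : ‖v1‖ ^ 2 ≤ 1.01 ^ 2 := by gcongr
  have a2 : ‖v2‖ ^ 2 ≤ 1.01 ^ 2 := by gcongr
  have a3 : 0.866 ^ 2 ≤ |cr v1 v2| ^ 2 := by gcongr; linarith [kap_gt]
  rw [sq_abs] at a3
  have a4 : cr v1 v2 ^ 2 * ‖w‖ ^ 2 ≤ 2 * (dot v1 w ^ 2 * ‖v2‖ ^ 2 + dot v2 w ^ 2 * ‖v1‖ ^ 2) := by
    have : cr v1 v2 ^ 2 * ‖w‖ ^ 2 = (dot v1 w * v2.re - dot v2 w * v1.re) ^ 2 +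
        (dot v1 w * v2.im - dot v2 w * v1.im) ^ 2 := by
      simp only [norm_sq_eq, cr, dot]; ring
    rw [this, norm_sq_eq, norm_sq_eq]
    nlinarith [sq_nonneg (dot v1 w * v2.re + dot v2 w * v1.re),
      sq_nonneg (dot v1 w * v2.im + dot v2 w * v1.im)]
  have a5 : dot v1 w ^ 2 * ‖v2‖ ^ 2 ≤ dot v1 w ^ 2 * 1.01 ^ 2 := by gcongr
  have a6 : dot v2 w ^ 2 * ‖v1‖ ^ 2 ≤ dot v2 w ^ 2 * 1.01 ^ 2 := by gcongr
  have a7 : 0.866 ^ 2 * ‖w‖ ^ 2 ≤ cr v1 v2 ^ 2 * ‖w‖ ^ 2 := by gcongr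
  nlinarith [sq_nonneg (dot v1 w), sq_nonneg (dot v2 w)]

lemma weitz {v1 v2 : ℂ} (h : kap ≤ |cr v1 v2|) : 3 ≤ ‖v1‖ ^ 2 + ‖v2‖ ^ 2 + ‖-v1 - v2‖ ^ 2 := by
  rw [← sq_le_sq₀ (by norm_num) (by positivity)]
  have a3 : kap ^ 2 ≤ |cr v1 v2| ^ 2 := by gcongr; exact kap_pos.le
  have a4 : kap ^ 2 = 3 / 4 := by unfold kap; linear_combination sqrt3_sq / 4
  rw [sq_abs, a4] at a3
  have : (‖v1‖ ^ 2 + ‖v2‖ ^ 2 + ‖-v1 - v2‖ ^ 2) ^ 2 = 12 * cr v1 v2 ^ 2 +
      2 * ((‖v1‖ ^ 2 - ‖v2‖ ^ 2) ^ 2 + (‖v2‖ ^ 2 - ‖-v1 - v2‖ ^ 2) ^ 2 +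
        (‖-v1 - v2‖ ^ 2 - ‖v1‖ ^ 2) ^ 2) := by
    simp only [norm_sq_eq, cr, Complex.sub_re, Complex.sub_im, Complex.neg_re, Complex.neg_im]
    ring
  rw [this]
  nlinarith [sq_nonneg (‖v1‖ ^ 2 - ‖v2‖ ^ 2), sq_nonneg (‖v2‖ ^ 2 - ‖-v1 - v2‖ ^ 2),
    sq_nonneg (‖-v1 - v2‖ ^ 2 - ‖v1‖ ^ 2)]

/-- the hypotheses on the edges in one direction -/
structure Dir (φ : G → ℂ) (ex : G → ℝ) (δ : ℝ) (e : G) (v : ℂ) : Prop where
  lo : ∀ x, 1 ≤ ‖v + (φ (x + e) - φ x)‖
  hi : ∀ x, ‖v + (φ (x + e) - φ x)‖ ≤ 1 + 700 * ex x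
  sm : ∀ x, ‖φ (x + e) - φ x‖ ≤ 2 * δ
  nv : ‖v‖ ≤ 1.01

lemma sum_len (φ : G → ℂ) (e : G) (v : ℂ) : ∑ x, ‖v + (φ (x + e) - φ x)‖ ^ 2 =
    Fintype.card G * ‖v‖ ^ 2 + ∑ x, ‖φ (x + e) - φ x‖ ^ 2 := by
  simp only [norm_add_sq_dot, Finset.sum_add_distrib, Finset.sum_const, Finset.card_univ,
    nsmul_eq_mul]
  have : ∑ x, 2 * dot v (φ (x + e) - φ x) = 0 := by
    simp only [dot, Complex.sub_re, Complex.sub_im, mul_sub, mul_add, Finset.sum_add_distrib,
      Finset.sum_sub_distrib]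
    rw [sum_shift (fun x => 2 * (v.re * (φ x).re)) e, sum_shift (fun x => 2 * (v.im * (φ x).im)) e]
    ring
  rw [this, add_zero]

namespace Dir
variable {φ : G → ℂ} {ex : G → ℝ} {δ : ℝ} {e : G} {v : ℂ} (h : Dir φ ex δ e v)
  (h1 : ∀ x, 700 * ex x ≤ 1) (hE : ∑ x, ex x ≤ 3 / 5)
include h

lemma lower : Fintype.card G ≤ Fintype.card G * ‖v‖ ^ 2 + ∑ x, ‖φ (x + e) - φ x‖ ^ 2 := by
  rw [← sum_len]
  have : ∑ _x : G, (1 : ℝ) ≤ ∑ x, ‖v + (φ (x + e) - φ x)‖ ^ 2 :=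
    Finset.sum_le_sum fun x _ => by nlinarith [h.lo x]
  simpa using this

include h1 hE

lemma sum_le : ∑ x, (‖v + (φ (x + e) - φ x)‖ ^ 2 - 1) ≤ 1260 := by
  refine (Finset.sum_le_sum (g := fun x => 2100 * ex x) fun x _ => ?_).trans ?_
  · have a1 := h.lo x
    have a2 := h.hi x
    have a3 := h1 x
    nlinarith
  · rw [← Finset.mul_sum]; linarith

lemma upper : Fintype.card G * ‖v‖ ^ 2 + ∑ x, ‖φ (x + e) - φ x‖ ^ 2 ≤ Fintype.card G + 1260 := by
  have := h.sum_le h1 hE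
  rw [Finset.sum_sub_distrib, sum_len] at this
  simp only [Finset.sum_const, Finset.card_univ, nsmul_eq_mul, mul_one] at this
  linarith

lemma strain (hb : ∑ x, ‖φ (x + e) - φ x‖ ^ 2 ≤ 3780) :
    ∑ x, dot v (φ (x + e) - φ x) ^ 2 ≤ 14000 * δ := by
  have a1 := h.lower
  have a2 := h.upper h1 hE
  have a3 : 0 ≤ ∑ x, ‖φ (x + e) - φ x‖ ^ 2 := by positivity
  have a4 : (Fintype.card G : ℝ) * |1 - ‖v‖ ^ 2| ≤ 3780 := by
    rw [← abs_of_nonneg (Nat.cast_nonneg (α := ℝ) (Fintype.card G)), ← abs_mul, abs_le]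
    constructor <;> linarith
  have hδ : 0 ≤ δ := by linarith [norm_nonneg (φ (0 + e) - φ 0), h.sm 0]
  have a5 : ∀ x, dot v (φ (x + e) - φ x) ^ 2 ≤ 3 / 2 * δ * ((‖v + (φ (x + e) - φ x)‖ ^ 2 - 1) +
      |1 - ‖v‖ ^ 2| + ‖φ (x + e) - φ x‖ ^ 2) := by
    intro x
    have b1 : |dot v (φ (x + e) - φ x)| ≤ 3 * δ :=
      (abs_dot_le _ _).trans ((mul_le_mul h.nv (h.sm x) (norm_nonneg _) (by norm_num)).trans
        (by linarith))
    have b2 : 2 * |dot v (φ (x + e) - φ x)| ≤ (‖v + (φ (x + e) - φ x)‖ ^ 2 - 1) +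
        |1 - ‖v‖ ^ 2| + ‖φ (x + e) - φ x‖ ^ 2 := by
      have c1 := norm_add_sq_dot v (φ (x + e) - φ x)
      have c2 : 0 ≤ ‖v + (φ (x + e) - φ x)‖ ^ 2 - 1 := by nlinarith [h.lo x]
      have c3 := le_abs_self (1 - ‖v‖ ^ 2)
      have c4 := neg_abs_le (1 - ‖v‖ ^ 2)
      have c5 := sq_nonneg ‖φ (x + e) - φ x‖
      rcases abs_cases (dot v (φ (x + e) - φ x)) with c | c <;> linarith [c.1]
    rw [← sq_abs]
    nlinarith [abs_nonneg (dot v (φ (x + e) - φ x))]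
  refine (Finset.sum_le_sum fun x _ => a5 x).trans ?_
  rw [← Finset.mul_sum, Finset.sum_add_distrib, Finset.sum_add_distrib]
  simp only [Finset.sum_const, Finset.card_univ, nsmul_eq_mul]
  have a6 := h.sum_le h1 hE
  nlinarith

end Dir

theorem energy {φ : G → ℂ} {ex : G → ℝ} {δ : ℝ} {e1 e2 : G} {v1 v2 : ℂ} (d1 : Dir φ ex δ e1 v1)
    (d2 : Dir φ ex δ e2 v2) (d3 : Dir φ ex δ (-e1 - e2) (-v1 - v2)) (h1 : ∀ x, 700 * ex x ≤ 1)
    (hE : ∑ x, ex x ≤ 3 / 5) (hcr : kap ≤ |cr v1 v2|) :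
    ∑ x, ‖φ (x + e1) - φ x‖ ^ 2 + ∑ x, ‖φ (x + e2) - φ x‖ ^ 2 +
      ∑ x, ‖φ (x + (-e1 - e2)) - φ x‖ ^ 2 ≤ 2000000 * δ := by
  have u1 := d1.upper h1 hE
  have u2 := d2.upper h1 hE
  have u3 := d3.upper h1 hE
  have p1 : 0 ≤ ∑ x, ‖φ (x + e1) - φ x‖ ^ 2 := by positivity
  have p2 : 0 ≤ ∑ x, ‖φ (x + e2) - φ x‖ ^ 2 := by positivity
  have p3 : 0 ≤ ∑ x, ‖φ (x + (-e1 - e2)) - φ x‖ ^ 2 := by positivity
  have w := mul_le_mul_of_nonneg_left (weitz hcr) (Nat.cast_nonneg (α := ℝ) (Fintype.card G))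
  have t1 := d1.strain h1 hE (by linarith)
  have t2 := d2.strain h1 hE (by linarith)
  have t3 := d3.strain h1 hE (by linarith)
  have k := korn e1 e2 (fun x => dot v1 (φ x)) (fun x => dot v2 (φ x))
  have r : ∀ v a b : ℂ, dot v a - dot v b = dot v (a - b) := fun v a b => by
    simp only [dot, Complex.sub_re, Complex.sub_im]; ring
  have r3 : ∀ a : ℂ, -dot v1 a - dot v2 a = dot (-v1 - v2) a := fun a => by
    simp only [dot, Complex.sub_re, Complex.sub_im, Complex.neg_re, Complex.neg_im]; ring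
  simp only [r3, r] at k
  have g : ∀ e : G, ∑ x, ‖φ (x + e) - φ x‖ ^ 2 ≤ 3 * (∑ x, dot v1 (φ (x + e) - φ x) ^ 2 +
      ∑ x, dot v2 (φ (x + e) - φ x) ^ 2) := fun e => by
    rw [← Finset.sum_add_distrib, Finset.mul_sum]
    exact Finset.sum_le_sum fun x _ => norm_sq_le_dot d1.nv d2.nv hcr _
  have g3 : ∑ x, ‖φ (x + (-e1 - e2)) - φ x‖ ^ 2 ≤
      2 * (∑ x, ‖φ (x + e1) - φ x‖ ^ 2 + ∑ x, ‖φ (x + e2) - φ x‖ ^ 2) := by
    rw [← sum_shift _ (e1 + e2), ← sum_shift (fun x => ‖φ (x + e1) - φ x‖ ^ 2) e2,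
      ← Finset.sum_add_distrib, Finset.mul_sum]
    refine Finset.sum_le_sum fun y _ => ?_
    rw [show y + (e1 + e2) + (-e1 - e2) = y by abel, show y + (e1 + e2) = y + e2 + e1 by abel,
      norm_sub_rev]
    have := norm_sub_le_norm_sub_add_norm_sub (φ (y + e2 + e1)) (φ (y + e2)) (φ y)
    have h2 : ‖φ (y + e2 + e1) - φ y‖ ^ 2 ≤
      (‖φ (y + e2 + e1) - φ (y + e2)‖ + ‖φ (y + e2) - φ y‖) ^ 2 := by gcongr
    nlinarith [sq_nonneg (‖φ (y + e2 + e1) - φ (y + e2)‖ - ‖φ (y + e2) - φ y‖)]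
  have g1 := g e1
  have g2 := g e2
  have hδ : 0 ≤ δ := by linarith [norm_nonneg (φ (0 + e1) - φ 0), d1.sm 0]
  linarith

lemma norm_line_le' {E : Type*} [SeminormedAddCommGroup E] {f : ℤ → E} {δ : ℝ}
    (h : ∀ n, ‖f (n + 1) - f n‖ ≤ δ) (n : ℤ) : ‖f n - f 0‖ ≤ δ * |(n : ℝ)| := by
  induction n using Int.induction_on with
  | zero => simp
  | succ n ih =>
    refine (norm_sub_le_norm_sub_add_norm_sub _ (f n) _).trans ?_
    have h1 := h n
    push_cast at ih ⊢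
    rw [abs_of_nonneg (by positivity)] at ih ⊢
    linarith
  | pred n ih =>
    refine (norm_sub_le_norm_sub_add_norm_sub _ (f (-n)) _).trans ?_
    have h1 := h (-n - 1)
    rw [sub_add_cancel, norm_sub_rev] at h1
    push_cast at ih h1 ⊢
    have : (0 : ℝ) ≤ n := by positivity
    rw [abs_of_nonpos (by linarith)] at ih ⊢
    linarith

theorem poincare (φ : G → ℂ) (e1 e2 : G) {B : ℝ}
    (hB : ∀ g : G, ∃ a b : ℤ, g = a • e1 + b • e2 ∧ |(a : ℝ)| ≤ B ∧ |(b : ℝ)| ≤ B) :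
    ∃ y, ∑ x, ‖φ x - φ y‖ ^ 2 ≤
      2 * B ^ 2 * (∑ x, ‖φ (x + e1) - φ x‖ ^ 2 + ∑ x, ‖φ (x + e2) - φ x‖ ^ 2) := by
  set F : G → EuclideanSpace ℂ G := fun g => WithLp.toLp 2 fun x => φ (x + g) with hF
  have hn : ∀ g k : G, ‖F (k + g) - F k‖ ^ 2 = ∑ x, ‖φ (x + g) - φ x‖ ^ 2 := by
    intro g k
    rw [EuclideanSpace.norm_sq_eq, ← sum_shift (fun x => ‖φ (x + g) - φ x‖ ^ 2) k]
    refine Finset.sum_congr rfl fun x _ => ?_
    simp [hF, add_assoc]
  have hn' : ∀ g k : G, ‖F (k + g) - F k‖ = ‖F g - F 0‖ := by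
    intro g k
    rw [← sq_eq_sq₀ (norm_nonneg _) (norm_nonneg _), hn, ← hn g 0, zero_add]
  have hline : ∀ (e k : G) (n : ℤ), ‖F (k + n • e) - F k‖ ≤ ‖F e - F 0‖ * |(n : ℝ)| := by
    intro e k n
    have := norm_line_le' (f := fun n : ℤ => F (k + n • e)) (δ := ‖F e - F 0‖)
      (fun n => by rw [add_smul, one_smul, ← add_assoc, hn']) n
    simpa using this
  have hg : ∀ g : G, ∑ x, ‖φ (x + g) - φ x‖ ^ 2 ≤
      2 * B ^ 2 * (∑ x, ‖φ (x + e1) - φ x‖ ^ 2 + ∑ x, ‖φ (x + e2) - φ x‖ ^ 2) := by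
    intro g
    obtain ⟨a, b, rfl, ha, hb⟩ := hB g
    rw [← hn _ 0, ← hn e1 0, ← hn e2 0, zero_add, zero_add, zero_add]
    have h1 := hline e1 0 a
    have h2 := hline e2 (a • e1) b
    rw [zero_add] at h1
    have h3 : ‖F (a • e1 + b • e2) - F 0‖ ≤ B * (‖F e1 - F 0‖ + ‖F e2 - F 0‖) := by
      refine (norm_sub_le_norm_sub_add_norm_sub _ (F (a • e1)) _).trans ?_
      have := mul_le_mul_of_nonneg_left ha (norm_nonneg (F e1 - F 0))
      have := mul_le_mul_of_nonneg_left hb (norm_nonneg (F e2 - F 0))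
      linarith
    have h4 : ‖F (a • e1 + b • e2) - F 0‖ ^ 2 ≤ (B * (‖F e1 - F 0‖ + ‖F e2 - F 0‖)) ^ 2 := by
      gcongr
    nlinarith [mul_nonneg (sq_nonneg B) (sq_nonneg (‖F e1 - F 0‖ - ‖F e2 - F 0‖))]
  by_contra hcon
  push Not at hcon
  have h1 : ∑ y : G, ∑ x, ‖φ x - φ y‖ ^ 2 = ∑ g : G, ∑ y, ‖φ (y + g) - φ y‖ ^ 2 := by
    rw [Finset.sum_comm (f := fun g y => ‖φ (y + g) - φ y‖ ^ 2)]
    refine Finset.sum_congr rfl fun y _ => ?_
    rw [← sum_shift _ y]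
    simp only [add_comm]
  have h2 := Finset.sum_lt_sum_of_nonempty (s := Finset.univ) ⟨0, Finset.mem_univ _⟩
    fun y _ => hcon y
  have h3 := Finset.sum_le_sum (s := Finset.univ) fun g _ => hg g
  linarith

end

end Pool.Agent.MP_2616de_co

end MrgPart6

-- marker of a merged file
example : 731051 + 481867 = 731051 + 481867 := rfl
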