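import Mathlib.Algebra.AffineMonoid.Basic
import Mathlib.LinearAlgebra.FreeModule.Finite.CardQuotient
import Mathlib.NumberTheory.Real.Irrational
import Pool.Agent.MP_2616de_co.Energy
import Pool.Agent.MP_2616de_co.Defs

-- ======== part 0: formerly Pool.Agent.MP_2616de_co.Struct
section MrgPart0

set_option maxSynthPendingDepth 3
set_option linter.unusedSectionVars false

namespace Pool.Agent.MP_2616de_co

open Real

/-- Gaussian integer with given coordinates -/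
noncomputable def gi (w : ℤ × ℤ) : ℂ := w.1 + w.2 * Complex.I

/-- point of the lattice spanned by w1 / N and w2 / N -/
noncomputable def lp (N : ℕ) (w1 w2 v : ℤ × ℤ) : ℂ := (v.1 * gi w1 + v.2 * gi w2) / N

lemma lp_add (N : ℕ) (w1 w2 v v' : ℤ × ℤ) : lp N w1 w2 (v + v') = lp N w1 w2 v + lp N w1 w2 v' := by
  simp [lp]; ring

lemma per_eq (L : ℝ) (k : ℤ × ℤ) : per L k = L * gi k := rfl

def perMap (g1 g2 : ℤ × ℤ) : ℤ × ℤ →ₗ[ℤ] ℤ × ℤ where
  toFun k := k.1 • g1 + k.2 • g2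
  map_add' x y := by simp only [Prod.fst_add, Prod.snd_add, add_smul]; abel
  map_smul' c x := by simp [mul_assoc]

lemma det_perMap (g1 g2 : ℤ × ℤ) : LinearMap.det (perMap g1 g2) = g1.1 * g2.2 - g2.1 * g1.2 := by
  rw [← LinearMap.det_toMatrix (Module.Basis.finTwoProd ℤ), Matrix.det_fin_two]
  simp [LinearMap.toMatrix_apply, perMap]

lemma shift_zsmul {ι : ℤ × ℤ → ℂ} {γ : ℤ × ℤ} {g : ℂ} (h : ∀ v, ι (v + γ) = ι v + g) (n : ℤ)
    (v : ℤ × ℤ) : ι (v + n • γ) = ι v + n * g := by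
  induction n using Int.induction_on with
  | zero => simp
  | succ n ih => rw [add_smul, one_smul, ← add_assoc, h, ih]; push_cast; ring
  | pred n ih =>
    have := h (v + (-(n : ℤ) - 1) • γ)
    rw [show v + (-(n : ℤ) - 1) • γ + γ = v + (-(n : ℤ)) • γ by rw [sub_smul, one_smul]; abel,
      ih] at this
    push_cast at this ⊢
    linear_combination -this

lemma mk_dir {G : Type*} [AddCommGroup G] [Fintype G] {φ : G → ℂ} {ex : G → ℝ} {δ : ℝ} {e : G}
    {v c : ℂ} (hδ : δ ≤ 1 / 100) (hc : ‖c‖ = 1) (lo : ∀ x, 1 ≤ ‖v + (φ (x + e) - φ x)‖)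
    (hi : ∀ x, ‖v + (φ (x + e) - φ x)‖ ≤ 1 + 700 * ex x)
    (hcl : ∀ x, ‖v + (φ (x + e) - φ x) - c‖ ≤ δ) : Dir φ ex δ e v := by
  have h1 : ‖v - c‖ ≤ δ := by
    have h2 : ∑ x, (v + (φ (x + e) - φ x) - c) = (Fintype.card G : ℂ) * (v - c) := by
      simp only [Finset.sum_sub_distrib, Finset.sum_add_distrib, sum_shift φ e, Finset.sum_const,
        Finset.card_univ, nsmul_eq_mul]
      ring
    have h3 := (norm_sum_le _ _).trans (Finset.sum_le_sum (s := Finset.univ) fun x _ => hcl x)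
    rw [h2, norm_mul, Complex.norm_natCast, Finset.sum_const, Finset.card_univ, nsmul_eq_mul] at h3
    exact le_of_mul_le_mul_left h3 (by exact_mod_cast Fintype.card_pos)
  refine ⟨lo, hi, fun x => ?_, ?_⟩
  · have : φ (x + e) - φ x = (v + (φ (x + e) - φ x) - c) - (v - c) := by ring
    rw [this]
    linarith [norm_sub_le (v + (φ (x + e) - φ x) - c) (v - c), hcl x]
  · have := norm_add_le (v - c) c
    rw [sub_add_cancel] at this
    linarith

theorem structure_thm {ε : ℝ} (hε : 0 < ε) : ∃ L0 : ℝ, ∀ (N : ℕ) (z : Fin N → ℂ) (L : ℝ),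
    L0 ≤ L → 0 < L → Sep (PP z L) → (∀ i j k l, z i + per L k = z j + per L l → i = j) →
    L ^ 2 - kap * N ≤ 3 / 5 → ∃ (w1 w2 : ℤ × ℤ) (t : ℂ) (lab : Fin N → ℤ × ℤ),
      |w1.1 * w2.2 - w1.2 * w2.1| = N ∧
      (∀ w ∈ [w1, w2, -w1 - w2], 1 - ε / N ≤ (L / N) ^ 2 * ‖gi w‖ ^ 2 ∧ L / N * ‖gi w‖ ≤ 1.01) ∧
      ∑ i, ‖z i - t - L * lp N w1 w2 (lab i)‖ ^ 2 ≤ ε * L ^ 2 ∧
      (∀ v, ∃ i k, lp N w1 w2 v = lp N w1 w2 (lab i) + gi k) ∧
      (∀ i j k, lp N w1 w2 (lab i) = lp N w1 w2 (lab j) + gi k → i = j) := by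
  classical
  set δ := min (1 / 3000) (ε / 36000000) with hδ
  have hδ0 : 0 < δ := lt_min (by norm_num) (by positivity)
  have hδ1 : δ ≤ 1 / 3000 := min_le_left _ _
  have hδ2 : δ ≤ ε / 36000000 := min_le_right _ _
  have hδ3 : δ ≤ 1 / 100 := by linarith
  obtain ⟨L0, hL0⟩ := periodic_frame hδ0
  refine ⟨L0, fun N z L hL1 hL hP hz hE => ?_⟩
  obtain ⟨⟨p0, hp0⟩, hexc, u, hu, hF⟩ := hL0 N z L hL1 hL hP hz hE
  obtain ⟨ι, h, -⟩ := exists_label hP hδ3 hF hp0
  have hinj := h.injective hu hδ3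
  obtain ⟨g1, hg1⟩ := h.surj hP hu hδ3 ((PP_add z L (1, 0) _).2 (h.mem 0))
  obtain ⟨g2, hg2⟩ := h.surj hP hu hδ3 ((PP_add z L (0, 1) _).2 (h.mem 0))
  have hM : ∀ v k, ι (v + perMap g1 g2 k) = ι v + per L k := by
    intro v k
    change ι (v + (k.1 • g1 + k.2 • g2)) = _
    rw [← add_assoc, shift_zsmul (h.add_per hP hδ3 (PP_add z L _) hg2),
      shift_zsmul (h.add_per hP hδ3 (PP_add z L _) hg1)]
    simp [per]; ring
  have hMinj : Function.Injective (perMap g1 g2) := by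
    intro k l hkl
    have := hM 0 k
    rw [hkl, hM] at this
    exact (per_inj hL (add_left_cancel this)).symm
  choose lab hlab using fun i => h.surj hP hu hδ3 (mem_PP z L i)
  set Γ := LinearMap.range (perMap g1 g2) with hΓ
  have hmk : ∀ v k, (Submodule.Quotient.mk (v + perMap g1 g2 k) : (ℤ × ℤ) ⧸ Γ) =
      Submodule.Quotient.mk v := fun v k => (Submodule.Quotient.eq _).2 ⟨k, by simp⟩
  have hsur : ∀ v, ∃ i k, v = lab i + perMap g1 g2 k := by
    intro v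
    obtain ⟨i, k, hk⟩ := h.mem v
    exact ⟨i, k, hinj (by rw [hM, hlab, hk])⟩
  have hlabinj : ∀ i j k, lab i = lab j + perMap g1 g2 k → i = j := by
    intro i j k hk
    refine hz i j 0 k ?_
    rw [per_zero, add_zero, ← hlab, hk, hM, hlab]
  have hbij : Function.Bijective fun i => (Submodule.Quotient.mk (lab i) : (ℤ × ℤ) ⧸ Γ) := by
    constructor
    · intro i j hij
      obtain ⟨k, hk⟩ := (Submodule.Quotient.eq _).1 hij
      exact hlabinj i j k (by rw [hk]; abel)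
    · intro g
      obtain ⟨v, rfl⟩ := Submodule.Quotient.mk_surjective _ g
      obtain ⟨i, k, rfl⟩ := hsur v
      exact ⟨i, (hmk _ _).symm⟩
  let _ : Fintype ((ℤ × ℤ) ⧸ Γ) := Fintype.ofBijective _ hbij
  have hcard : Fintype.card ((ℤ × ℤ) ⧸ Γ) = N := by
    rw [← Fintype.card_of_bijective hbij, Fintype.card_fin]
  have hN : 0 < N := by rw [← hcard]; exact Fintype.card_pos
  have hN' : (0 : ℝ) < N := by exact_mod_cast hN
  have hNc : (N : ℂ) ≠ 0 := by exact_mod_cast hN.ne'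
  have hdet : (g1.1 * g2.2 - g2.1 * g1.2).natAbs = N := by
    have := Submodule.natAbs_det_equiv Γ (LinearEquiv.ofInjective (perMap g1 g2) hMinj)
    rw [Nat.card_eq_fintype_card, hcard] at this
    rw [← det_perMap, ← this]
    congr 2
  obtain ⟨s, hs, hsD⟩ : ∃ s : ℤ, s * s = 1 ∧ s * (g1.1 * g2.2 - g2.1 * g1.2) = N := by
    rcases Int.natAbs_eq (g1.1 * g2.2 - g2.1 * g1.2) with h1 | h1
    · exact ⟨1, by norm_num, by rw [h1, hdet]; ring⟩
    · exact ⟨-1, by norm_num, by rw [h1, hdet]; ring⟩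
  set w1 : ℤ × ℤ := (s * g2.2, -(s * g1.2)) with hw1
  set w2 : ℤ × ℤ := (-(s * g2.1), s * g1.1) with hw2
  have hdw : w1.1 * w2.2 - w1.2 * w2.1 = s * N := by
    simp only [hw1, hw2]; rw [← hsD]; ring
  have habs : |s| = 1 := by
    rcases Int.eq_one_or_neg_one_of_mul_eq_one hs with h1 | h1 <;> simp [h1]
  have hA : ∀ k, lp N w1 w2 (perMap g1 g2 k) = gi k := by
    intro k
    have h1 : ((s * (g1.1 * g2.2 - g2.1 * g1.2) : ℤ) : ℂ) = N := by rw [hsD]; simp
    rw [lp, div_eq_iff hNc, ← h1]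
    simp [perMap, gi, hw1, hw2]; ring
  have hAinj : ∀ v v', lp N w1 w2 v = lp N w1 w2 v' → v = v' := by
    intro v v' hv
    rw [lp, lp, div_left_inj' hNc] at hv
    have h1 := congrArg Complex.re hv
    have h2 := congrArg Complex.im hv
    simp [gi] at h1 h2
    have h3 : v.1 * w1.1 + v.2 * w2.1 = v'.1 * w1.1 + v'.2 * w2.1 := by exact_mod_cast h1
    have h4 : v.1 * w1.2 + v.2 * w2.2 = v'.1 * w1.2 + v'.2 * w2.2 := by exact_mod_cast h2
    have h5 : s * N ≠ 0 := mul_ne_zero (by rintro rfl; simp at hs) (by exact_mod_cast hN.ne')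
    refine Prod.ext (mul_right_cancel₀ h5 ?_) (mul_right_cancel₀ h5 ?_) <;> rw [← hdw]
    · linear_combination w2.2 * h3 - w2.1 * h4
    · linear_combination w1.1 * h4 - w1.2 * h3
  set φ : (ℤ × ℤ) ⧸ Γ → ℂ := fun g => ι g.out - L * lp N w1 w2 g.out with hφ
  set ex : (ℤ × ℤ) ⧸ Γ → ℝ := fun g => exc (PP z L) (ι g.out) with hex
  have hout : ∀ v, ∃ k, (Submodule.Quotient.mk v : (ℤ × ℤ) ⧸ Γ).out = v + perMap g1 g2 k := by
    intro v
    obtain ⟨k, hk⟩ := (Submodule.Quotient.eq Γ).1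
      (Quotient.out_eq (Submodule.Quotient.mk v : (ℤ × ℤ) ⧸ Γ))
    exact ⟨k, by rw [hk]; abel⟩
  have hφmk : ∀ v, φ (Submodule.Quotient.mk v) = ι v - L * lp N w1 w2 v := by
    intro v
    obtain ⟨k, hk⟩ := hout v
    simp only [hφ, hk, hM, lp_add, hA, per_eq]; ring
  have hexmk : ∀ v, ex (Submodule.Quotient.mk v) = exc (PP z L) (ι v) := by
    intro v
    obtain ⟨k, hk⟩ := hout v
    simp only [hex, hk, hM, exc_add (PP_add z L k)]
  have hdir : ∀ (e : ℤ × ℤ) (c : ℂ), ‖c‖ = 1 → (∀ v, ‖ι (v + e) - ι v - c‖ ≤ δ) →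
      Dir φ ex δ (Submodule.Quotient.mk e) (L * lp N w1 w2 e) := by
    intro e c hc he
    have h1 : ∀ y, L * lp N w1 w2 e + (φ (Submodule.Quotient.mk y + Submodule.Quotient.mk e) -
        φ (Submodule.Quotient.mk y)) = ι (y + e) - ι y := by
      intro y
      rw [← Submodule.Quotient.mk_add, hφmk, hφmk, lp_add]; ring
    have h2 : ∀ y, |‖ι (y + e) - ι y‖ - 1| ≤ δ := fun y => by
      have := abs_norm_sub_norm_le (ι (y + e) - ι y) c
      rw [hc] at this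
      exact this.trans (he y)
    have h3 : ∀ y, ι (y + e) ≠ ι y := fun y h3 => by
      have := h2 y
      rw [h3, sub_self, norm_zero, abs_le] at this
      linarith
    refine mk_dir hδ3 hc (fun x => ?_) (fun x => ?_) (fun x => ?_) <;>
      obtain ⟨y, rfl⟩ := Submodule.Quotient.mk_surjective _ x <;> rw [h1]
    · exact hP _ (h.mem _) _ (h.mem _) (h3 y)
    · rw [hexmk]
      have a1 := hexc _ (h.mem y)
      obtain ⟨u', hu', hF'⟩ := frame_exists hP (h.mem y) (by linarith)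
      obtain ⟨k, hk⟩ := hF'.nb hP hu' (by linarith) (h.mem y) (h.mem _) (h3 y)
        (by linarith [(abs_le.1 (h2 y)).2])
      have := norm_add_le (ι (y + e) - ι y - u' * ze ^ k) (u' * ze ^ k)
      rw [sub_add_cancel, norm_mul, hu', norm_ze_pow] at this
      linarith
    · exact he y
  have d1 := hdir _ _ hu h.s1
  have d2 := hdir _ _ (by rw [norm_mul, hu, norm_ze_pow, one_mul]) h.s2
  have d3 := hdir _ _ (by rw [norm_mul, hu, norm_ze_pow, one_mul]) h.s3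
  have e3 : (Submodule.Quotient.mk (-1, -1) : (ℤ × ℤ) ⧸ Γ) =
      -Submodule.Quotient.mk (1, 0) - Submodule.Quotient.mk (0, 1) := by
    rw [← Submodule.Quotient.mk_neg, ← Submodule.Quotient.mk_sub]; rfl
  have v3 : L * lp N w1 w2 (-1, -1) = -(L * lp N w1 w2 (1, 0)) - L * lp N w1 w2 (0, 1) := by
    simp [lp]; ring
  have hsum : ∑ x, ex x = ∑ i, exc (PP z L) (z i) := by
    rw [← hbij.sum_comp]
    exact Finset.sum_congr rfl fun i _ => by rw [hexmk, hlab]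
  have hth := sum_exc_per hL hP hz
  have hth0 : 0 ≤ ∑ i, exc (PP z L) (z i) := Finset.sum_nonneg fun i _ => exc_nonneg hP (mem_PP _ _ _)
  have hcr : kap ≤ |cr (L * lp N w1 w2 (1, 0)) (L * lp N w1 w2 (0, 1))| := by
    have h1 : cr (L * lp N w1 w2 (1, 0)) (L * lp N w1 w2 (0, 1)) =
        (L / N) ^ 2 * ((w1.1 * w2.2 - w1.2 * w2.1 : ℤ) : ℝ) := by
      simp [cr, lp, gi]; ring
    rw [h1, hdw, abs_mul, abs_of_nonneg (by positivity), Int.cast_mul, abs_mul, ← Int.cast_abs,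
      habs, Int.cast_natCast, Nat.abs_cast, Int.cast_one, one_mul, div_pow, div_mul_eq_mul_div,
      le_div_iff₀ (by positivity)]
    nlinarith
  have hen := energy d1 d2 (by rw [← e3, ← v3]; exact d3)
    (fun x => by linarith [hexc _ (h.mem x.out)]) (by linarith) hcr
  rw [← e3] at hen
  have p1 : ∀ e, 0 ≤ ∑ x, ‖φ (x + e) - φ x‖ ^ 2 := fun e => by positivity
  obtain ⟨y, hy⟩ := poincare φ (Submodule.Quotient.mk (1, 0)) (Submodule.Quotient.mk (0, 1))
    (B := 3 * L) (by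
      intro g
      obtain ⟨v, rfl⟩ := Submodule.Quotient.mk_surjective _ g
      obtain ⟨k, hk⟩ := exists_per_mem hL (ι 0 - (L / 2 + L / 2 * Complex.I)) (ι v)
      rw [← hM] at hk
      rw [← hmk v k]
      set v' := v + perMap g1 g2 k
      have a1 : ‖ι v' - ι 0‖ ≤ L := by
        refine (Complex.norm_le_abs_re_add_abs_im _).trans ?_
        simp [sqr] at hk
        have a1 : |(ι v' - ι 0).re| ≤ L / 2 := by
          rw [abs_le]; simp only [Complex.sub_re]; constructor <;> linarith [hk.1.1, hk.1.2]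
        have a2 : |(ι v' - ι 0).im| ≤ L / 2 := by
          rw [abs_le]; simp only [Complex.sub_im]; constructor <;> linarith [hk.2.1, hk.2.2]
        linarith
      have a2 := h.norm_le 0 v'
      have a3 := norm_lat2_ge v'
      rw [zero_add] at a2
      have a4 := norm_sub_le (ι v' - ι 0) (ι v' - ι 0 - u * lat2 v')
      rw [sub_sub_cancel, norm_mul, hu, one_mul] at a4
      have a5 := abs_nonneg (v'.1 : ℝ)
      have a6 := abs_nonneg (v'.2 : ℝ)
      have a7 := mul_le_mul_of_nonneg_right hδ3 (add_nonneg a5 a6)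
      refine ⟨v'.1, v'.2, ?_, by linarith, by linarith⟩
      rw [← Submodule.Quotient.mk_smul, ← Submodule.Quotient.mk_smul, ← Submodule.Quotient.mk_add]
      congr 1
      ext <;> simp)
  have hnorm : ∀ (e w : ℤ × ℤ), lp N w1 w2 e = gi w / N →
      Dir φ ex δ (Submodule.Quotient.mk e) (L * lp N w1 w2 e) →
      ∑ x, ‖φ (x + Submodule.Quotient.mk e) - φ x‖ ^ 2 ≤ ε →
      1 - ε / N ≤ (L / N) ^ 2 * ‖gi w‖ ^ 2 ∧ L / N * ‖gi w‖ ≤ 1.01 := by
    intro e w hw d hd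
    have a1 := d.lower
    have a2 := d.nv
    have a3 : ‖L * lp N w1 w2 e‖ = L / N * ‖gi w‖ := by
      rw [hw, norm_mul, norm_div, Complex.norm_real, Complex.norm_natCast, Real.norm_eq_abs,
        abs_of_pos hL]; ring
    rw [hcard, a3] at a1
    rw [a3] at a2
    refine ⟨?_, a2⟩
    rw [← mul_pow, sub_le_iff_le_add, ← mul_le_mul_iff_right₀ hN', mul_add, mul_div_cancel₀ _ hN'.ne']
    linarith
  refine ⟨w1, w2, φ y, lab, by rw [hdw, abs_mul, habs]; simp, ?_, ?_, fun v => ?_, fun i j k hk => ?_⟩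
  · simp only [List.mem_cons, List.not_mem_nil, or_false, forall_eq_or_imp, forall_eq]
    refine ⟨hnorm _ _ (by simp [lp]) d1 ?_, hnorm _ _ (by simp [lp]) d2 ?_,
      hnorm _ _ (by simp [lp, gi]; ring) d3 ?_⟩ <;>
      linarith [p1 (Submodule.Quotient.mk (1, 0)), p1 (Submodule.Quotient.mk (0, 1)),
        p1 (Submodule.Quotient.mk (-1, -1))]
  · rw [← hbij.sum_comp] at hy
    simp only [hφmk, hlab] at hy
    simp only [sub_right_comm _ (φ y)]
    refine hy.trans ?_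
    have := p1 (Submodule.Quotient.mk (-1, -1))
    have h2 : 0 ≤ L ^ 2 := by positivity
    nlinarith
  · obtain ⟨i, k, rfl⟩ := hsur v
    exact ⟨i, k, by rw [lp_add, hA]⟩
  · rw [← hA, ← lp_add] at hk
    exact hlabinj i j k (hAinj _ _ hk)

end Pool.Agent.MP_2616de_co

end MrgPart0

-- ======== part 1: formerly Pool.Agent.MP_2616de_co.Arith
section MrgPart1

set_option maxSynthPendingDepth 3
set_option linter.unusedSectionVars false

namespace Pool.Agent.MP_2616de_co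

open Real

/-- squared length of an integer vector -/
def nq (w : ℤ × ℤ) : ℤ := w.1 ^ 2 + w.2 ^ 2

lemma norm_gi_sq (w : ℤ × ℤ) : ‖gi w‖ ^ 2 = nq w := by
  rw [norm_sq_eq]; simp [gi, nq]

/-- arithmetic conditions on a basis of an almost hexagonal lattice -/
def Good (N : ℕ) (a b : ℤ × ℤ) : Prop := |a.1 * b.2 - a.2 * b.1| = N ∧
  (∀ w ∈ [a, b, -a - b], 4 * (N : ℤ) ^ 2 ≤ 3 * nq w ^ 2 + 5 * nq w) ∧
  ∀ w ∈ [a, b, -a - b], ∀ w' ∈ [a, b, -a - b], 20 * nq w ≤ 21 * nq w'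

lemma Good.swap {N : ℕ} {a b : ℤ × ℤ} (h : Good N a b) : Good N b a := by
  obtain ⟨h1, h2, h3⟩ := h
  have e : -b - a = -a - b := by abel
  refine ⟨by rw [← h1, ← abs_neg]; congr 1; ring, ?_, ?_⟩ <;>
    simp only [e, List.mem_cons, List.not_mem_nil, or_false, forall_eq_or_imp, forall_eq] at * <;>
    tauto

lemma Good.cyc {N : ℕ} {a b : ℤ × ℤ} (h : Good N a b) : Good N b (-a - b) := by
  obtain ⟨h1, h2, h3⟩ := h
  have e : -b - (-a - b) = a := by abel
  refine ⟨by rw [← h1]; congr 1; simp; ring, ?_, ?_⟩ <;>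
    simp only [e, List.mem_cons, List.not_mem_nil, or_false, forall_eq_or_imp, forall_eq] at * <;>
    tauto

/-- both bases span the same lattice -/
def SameLat (N : ℕ) (a b a' b' : ℤ × ℤ) : Prop :=
  (∀ v, ∃ v', lp N a b v = lp N a' b' v') ∧ ∀ v', ∃ v, lp N a' b' v' = lp N a b v

lemma SameLat.refl (N : ℕ) (a b : ℤ × ℤ) : SameLat N a b a b := ⟨fun v => ⟨v, rfl⟩, fun v => ⟨v, rfl⟩⟩

lemma SameLat.swap {N : ℕ} {a b a' b' : ℤ × ℤ} (h : SameLat N a b a' b') : SameLat N a b b' a' := by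
  constructor
  · intro v
    obtain ⟨v', hv⟩ := h.1 v
    exact ⟨(v'.2, v'.1), by rw [hv]; simp [lp]; ring⟩
  · intro v
    obtain ⟨v', hv⟩ := h.2 (v.2, v.1)
    exact ⟨v', by rw [← hv]; simp [lp]; ring⟩

lemma SameLat.cyc {N : ℕ} {a b a' b' : ℤ × ℤ} (h : SameLat N a b a' b') :
    SameLat N a b b' (-a' - b') := by
  constructor
  · intro v
    obtain ⟨v', hv⟩ := h.1 v
    exact ⟨(v'.2 - v'.1, -v'.1), by rw [hv]; simp [lp, gi]; ring⟩
  · intro v
    obtain ⟨v', hv⟩ := h.2 (-v.2, v.1 - v.2)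
    exact ⟨v', by rw [← hv]; simp [lp, gi]; ring⟩

lemma Good.sort {N : ℕ} {a b : ℤ × ℤ} (h : Good N a b) : ∃ a' b', Good N a' b' ∧
    SameLat N a b a' b' ∧ nq a' ≤ nq b' ∧ nq b' ≤ nq (-a' - b') := by
  have r := SameLat.refl N a b
  have e1 : -b - a = -a - b := by abel
  have e2 : -b - (-a - b) = a := by abel
  have e3 : -(-a - b) - b = a := by abel
  have e4 : -(-a - b) - a = b := by abel
  have e5 : -a - (-a - b) = b := by abel
  rcases le_total (nq a) (nq b) with h1 | h1 <;> rcases le_total (nq b) (nq (-a - b)) with h2 | h2 <;>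
    rcases le_total (nq a) (nq (-a - b)) with h3 | h3
  · exact ⟨a, b, h, r, h1, h2⟩
  · exact ⟨a, b, h, r, h1, h2⟩
  · exact ⟨a, -a - b, by simpa only [e1] using h.swap.cyc, by simpa only [e1] using r.swap.cyc, h3,
      by rw [e5]; exact h2⟩
  · exact ⟨-a - b, a, by simpa only [e2] using h.cyc.cyc, by simpa only [e2] using r.cyc.cyc, h3,
      by rw [e4]; exact h1⟩
  · exact ⟨b, a, h.swap, r.swap, h1, by rw [e1]; exact h3⟩
  · exact ⟨b, -a - b, h.cyc, r.cyc, h2, by rw [e2]; exact h3⟩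
  · exact ⟨b, a, h.swap, r.swap, h1, by rw [e1]; exact h3⟩
  · exact ⟨-a - b, b, h.cyc.swap, r.cyc.swap, h2, by rw [e3]; exact h1⟩

lemma three_sq_ne {n N : ℤ} (hn : 0 < n) (hN : 0 ≤ N) : 4 * N ^ 2 ≠ 3 * n ^ 2 := by
  intro h
  have h1 : (√3 * n) ^ 2 = (2 * N : ℝ) ^ 2 := by
    have : (4 * N ^ 2 : ℝ) = 3 * n ^ 2 := by exact_mod_cast h
    linear_combination (n : ℝ) ^ 2 * sqrt3_sq - this
  have hn' : (0 : ℝ) < n := by exact_mod_cast hn
  have hN' : (0 : ℝ) ≤ N := by exact_mod_cast hN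
  rw [sq_eq_sq₀ (by positivity) (by positivity)] at h1
  have h2 : Irrational (√((3 : ℕ) : ℝ)) := Nat.prime_three.irrational_sqrt
  rw [irrational_iff_ne_rational] at h2
  refine h2 (2 * N) n hn.ne' ?_
  push_cast
  rw [eq_div_iff hn'.ne', h1]

lemma types_int {N n s t : ℤ} (hN : 10 ≤ N) (n0 : 0 ≤ n) (s0 : 0 ≤ s) (st : s ≤ t)
    (tn : 20 * t ≤ n) (k1 : 4 * N ^ 2 ≤ 3 * n ^ 2 + 5 * n)
    (e : 4 * N ^ 2 = 3 * n ^ 2 + 2 * n * (s + t) - (t - s) ^ 2) :
    10 ≤ n ∧ ((s = 0 ∧ t = 1) ∨ (s = 1 ∧ t = 1) ∨ (s = 0 ∧ t = 2)) := by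
  have n1 : 10 ≤ n := by nlinarith
  have b1 : (t - s) ^ 2 ≤ t ^ 2 := by nlinarith
  have b2 : 20 * t ^ 2 ≤ n * t := by nlinarith
  have b3 : s + t ≤ 2 := by
    by_contra hc
    have h3 : 3 ≤ s + t := by omega
    have h4 : n * 3 ≤ n * (s + t) := by gcongr
    have h5 : n * t ≤ n * (s + t) := by gcongr; omega
    nlinarith
  have b4 := three_sq_ne (n := n) (N := N) (by omega) (by omega)
  have b5 : (s = 0 ∧ t = 0) ∨ (s = 0 ∧ t = 1) ∨ (s = 1 ∧ t = 1) ∨ (s = 0 ∧ t = 2) := by omega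
  rcases b5 with ⟨rfl, rfl⟩ | h
  · exact absurd (by linarith) b4
  · exact ⟨n1, h⟩

lemma Good.types {N : ℕ} (hN : 10 ≤ N) {a b : ℤ × ℤ} (h : Good N a b) (h1 : nq a ≤ nq b)
    (h2 : nq b ≤ nq (-a - b)) : 10 ≤ nq a ∧ 3 * nq a ^ 2 ≤ 4 * (N : ℤ) ^ 2 ∧
      4 * (N : ℤ) ^ 2 ≤ 3 * nq a ^ 2 + 5 * nq a ∧
      ((nq b = nq a ∧ nq (-a - b) = nq a + 1 ∧ 4 * (N : ℤ) ^ 2 = 3 * nq a ^ 2 + 2 * nq a - 1) ∨
       (nq b = nq a + 1 ∧ nq (-a - b) = nq a + 1 ∧ 4 * (N : ℤ) ^ 2 = 3 * nq a ^ 2 + 4 * nq a) ∨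
       (nq b = nq a ∧ nq (-a - b) = nq a + 2 ∧ 4 * (N : ℤ) ^ 2 = 3 * nq a ^ 2 + 4 * nq a - 4)) := by
  obtain ⟨g1, g2, g3⟩ := h
  have k1 := g2 a (by simp)
  have k2 := g3 (-a - b) (by simp) a (by simp)
  have hN' : (10 : ℤ) ≤ N := by exact_mod_cast hN
  have e : 4 * (N : ℤ) ^ 2 = 3 * nq a ^ 2 + 2 * nq a * ((nq b - nq a) + (nq (-a - b) - nq a)) -
      ((nq (-a - b) - nq a) - (nq b - nq a)) ^ 2 := by
    rw [← g1, sq_abs]; simp only [nq, Prod.fst_sub, Prod.snd_sub, Prod.fst_neg, Prod.snd_neg]; ring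
  have n0 : 0 ≤ nq a := by unfold nq; positivity
  obtain ⟨n1, h3⟩ := types_int hN' n0 (by omega) (by omega) (by omega) k1 e
  rcases h3 with ⟨e1, e2⟩ | ⟨e1, e2⟩ | ⟨e1, e2⟩ <;> rw [e1, e2] at e
  · exact ⟨n1, by linarith, k1, Or.inl ⟨by omega, by omega, by linarith⟩⟩
  · exact ⟨n1, by linarith, k1, Or.inr (Or.inl ⟨by omega, by omega, by linarith⟩)⟩
  · exact ⟨n1, by linarith, k1, Or.inr (Or.inr ⟨by omega, by omega, by linarith⟩)⟩

lemma unit_cases {p q t x y n : ℤ} (ht' : t = 1 ∨ t = 2) (e6 : n * p = t * x) (e7 : n * q = t * y)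
    (e8 : p ^ 2 + q ^ 2 = t ^ 2) :
    (x = n ∧ y = 0) ∨ (x = 0 ∧ y = n) ∨ (x = -n ∧ y = 0) ∨ (x = 0 ∧ y = -n) := by
  have p1 : -2 ≤ p := by rcases ht' with rfl | rfl <;> nlinarith
  have p2 : p ≤ 2 := by rcases ht' with rfl | rfl <;> nlinarith
  have q1 : -2 ≤ q := by rcases ht' with rfl | rfl <;> nlinarith
  have q2 : q ≤ 2 := by rcases ht' with rfl | rfl <;> nlinarith
  rcases ht' with rfl | rfl <;> interval_cases p <;> interval_cases q <;> omega

lemma unit_of_gram {a b a' b' : ℤ × ℤ} (h0 : 0 < nq a) (h1 : nq a' = nq a) (h2 : nq b' = nq b)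
    (h3 : nq (-a' - b') = nq (-a - b)) (h4 : a'.1 * b'.2 - a'.2 * b'.1 = a.1 * b.2 - a.2 * b.1)
    (h5 : nq (-a - b) = nq a + 1 ∨ nq (-a - b) = nq a + 2) :
    ∃ k : ℕ, Complex.I ^ k * gi a' = gi a ∧ Complex.I ^ k * gi b' = gi b := by
  have hdot : a'.1 * b'.1 + a'.2 * b'.2 = a.1 * b.1 + a.2 * b.2 := by
    simp only [nq, Prod.fst_sub, Prod.snd_sub, Prod.fst_neg, Prod.snd_neg] at h1 h2 h3
    linarith
  obtain ⟨t, ht, ht'⟩ : ∃ t : ℤ, nq (-a - b) = nq a + t ∧ (t = 1 ∨ t = 2) := by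
    rcases h5 with h | h
    · exact ⟨1, h, Or.inl rfl⟩
    · exact ⟨2, h, Or.inr rfl⟩
  set x := a.1 * a'.1 + a.2 * a'.2 with hx
  set y := a.2 * a'.1 - a.1 * a'.2 with hy
  set p := (a.1 + b.1) * (a'.1 + b'.1) + (a.2 + b.2) * (a'.2 + b'.2) - x with hp
  set q := (a.2 + b.2) * (a'.1 + b'.1) - (a.1 + b.1) * (a'.2 + b'.2) - y with hq
  simp only [nq, Prod.fst_sub, Prod.snd_sub, Prod.fst_neg, Prod.snd_neg] at h0 h1 h2 h3 ht
  set n := a.1 ^ 2 + a.2 ^ 2 with hn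
  have e1 : x * a'.1 - y * a'.2 = n * a.1 := by rw [hx, hy]; linear_combination a.1 * h1
  have e2 : x * a'.2 + y * a'.1 = n * a.2 := by rw [hx, hy]; linear_combination a.2 * h1
  have e3 : x * b'.1 - y * b'.2 = n * b.1 := by
    rw [hx, hy, hn]; linear_combination a.1 * hdot - a.2 * h4
  have e4 : x * b'.2 + y * b'.1 = n * b.2 := by
    rw [hx, hy, hn]; linear_combination a.2 * hdot + a.1 * h4
  have e5 : x ^ 2 + y ^ 2 = n ^ 2 := by rw [hx, hy]; linear_combination n * h1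
  have e6 : n * p = t * x := by
    rw [hp]
    linear_combination (-(a'.1 + b'.1)) * (e1 + e3) - (a'.2 + b'.2) * (e2 + e4) + x * (h3 + ht)
  have e7 : n * q = t * y := by
    rw [hq]
    linear_combination (a'.2 + b'.2) * (e1 + e3) - (a'.1 + b'.1) * (e2 + e4) + y * (h3 + ht)
  have e8 : p ^ 2 + q ^ 2 = t ^ 2 := by
    have : n ^ 2 * (p ^ 2 + q ^ 2) = n ^ 2 * t ^ 2 := by
      linear_combination (n * p + t * x) * e6 + (n * q + t * y) * e7 + t ^ 2 * e5
    exact mul_left_cancel₀ (by positivity) this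
  have e9 := unit_cases ht' e6 e7 e8
  have hn0 : n ≠ 0 := h0.ne'
  clear_value x y n
  have fin : ∀ (k : ℕ) (c d : ℤ), Complex.I ^ k = c + d * Complex.I → x = c * n → y = d * n →
      Complex.I ^ k * gi a' = gi a ∧ Complex.I ^ k * gi b' = gi b := by
    intro k c d hk hc hd
    rw [hc, hd] at e1 e2 e3 e4
    have f1 : c * a'.1 - d * a'.2 = a.1 := mul_left_cancel₀ hn0 (by linear_combination e1)
    have f2 : c * a'.2 + d * a'.1 = a.2 := mul_left_cancel₀ hn0 (by linear_combination e2)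
    have f3 : c * b'.1 - d * b'.2 = b.1 := mul_left_cancel₀ hn0 (by linear_combination e3)
    have f4 : c * b'.2 + d * b'.1 = b.2 := mul_left_cancel₀ hn0 (by linear_combination e4)
    rw [hk, gi, gi, gi, gi, ← f1, ← f2, ← f3, ← f4]
    push_cast
    constructor
    · linear_combination (d * a'.2 : ℂ) * Complex.I_mul_I
    · linear_combination (d * b'.2 : ℂ) * Complex.I_mul_I
  rcases e9 with ⟨e, e'⟩ | ⟨e, e'⟩ | ⟨e, e'⟩ | ⟨e, e'⟩
  · exact ⟨0, fin 0 1 0 (by simp) (by linarith) (by linarith)⟩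
  · exact ⟨1, fin 1 0 1 (by simp) (by linarith) (by linarith)⟩
  · exact ⟨2, fin 2 (-1) 0 (by simp) (by linarith) (by linarith)⟩
  · exact ⟨3, fin 3 0 (-1) (by simp) (by linarith) (by linarith)⟩

theorem lattice_unique {N : ℕ} (hN : 10 ≤ N) {w1 w2 w1' w2' : ℤ × ℤ} (h : Good N w1 w2)
    (h' : Good N w1' w2') : ∃ k : ℕ,
      (∀ v', ∃ v, Complex.I ^ k * lp N w1' w2' v' = lp N w1 w2 v) ∨
      (∀ v', ∃ v, Complex.I ^ k * (starRingEnd ℂ) (lp N w1' w2' v') = lp N w1 w2 v) := by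
  obtain ⟨a, b, g, sl, s1, s2⟩ := h.sort
  obtain ⟨a', b', g', sl', s1', s2'⟩ := h'.sort
  obtain ⟨t1, t2, t3, t4⟩ := g.types hN s1 s2
  obtain ⟨t1', t2', t3', t4'⟩ := g'.types hN s1' s2'
  have hn : nq a' = nq a := by
    have key : ∀ x y : ℤ, 10 ≤ x → 4 * (N : ℤ) ^ 2 ≤ 3 * x ^ 2 + 5 * x →
        3 * y ^ 2 ≤ 4 * (N : ℤ) ^ 2 → ¬ x < y := fun x y _ _ _ _ => by nlinarith
    exact le_antisymm (not_lt.1 (key _ _ t1 t3 t2')) (not_lt.1 (key _ _ t1' t3' t2))
  rw [hn] at t4'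
  have hb : nq b' = nq b ∧ nq (-a' - b') = nq (-a - b) ∧
      (nq (-a - b) = nq a + 1 ∨ nq (-a - b) = nq a + 2) := by
    generalize nq a ^ 2 = m at *
    omega
  have hd : |a'.1 * b'.2 - a'.2 * b'.1| = |a.1 * b.2 - a.2 * b.1| := g'.1.trans g.1.symm
  rcases abs_eq_abs.1 hd with hd | hd
  · obtain ⟨k, k1, k2⟩ := unit_of_gram (by omega) hn hb.1 hb.2.1 hd hb.2.2
    refine ⟨k, Or.inl fun v' => ?_⟩
    obtain ⟨v, hv⟩ := sl'.1 v'
    obtain ⟨v2, hv2⟩ := sl.2 v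
    exact ⟨v2, by rw [hv, ← hv2, lp, lp, ← k1, ← k2]; ring⟩
  · obtain ⟨k, k1, k2⟩ := unit_of_gram (a := a) (b := b) (a' := (a'.1, -a'.2))
      (b' := (b'.1, -b'.2)) (by omega) (by rw [← hn]; simp [nq]) (by rw [← hb.1]; simp [nq])
      (by rw [← hb.2.1]; simp [nq]; ring) (by simp only; linarith) hb.2.2
    refine ⟨k, Or.inr fun v' => ?_⟩
    obtain ⟨v, hv⟩ := sl'.1 v'
    obtain ⟨v2, hv2⟩ := sl.2 v
    exact ⟨v2, by rw [hv, ← hv2, lp, lp, ← k1, ← k2]; simp [gi]; ring⟩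

end Pool.Agent.MP_2616de_co

end MrgPart1

-- ======== part 2: formerly Pool.Agent.MP_2616de_co.Final
section MrgPart2

set_option maxSynthPendingDepth 3
set_option linter.unusedSectionVars false

namespace Pool.Agent.MP_2616de_co

open Real Set

/-- projection of the plane to the torus -/
noncomputable def pr (z : ℂ) : Torus := ((z.re : UnitAddCircle), (z.im : UnitAddCircle))

lemma pr_add (a b : ℂ) : pr (a + b) = pr a + pr b := by simp [pr]

lemma coe_int_circle (n : ℤ) : ((n : ℝ) : UnitAddCircle) = 0 :=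
  (AddCircle.coe_eq_zero_iff _).2 ⟨n, by simp⟩

lemma pr_gi (k : ℤ × ℤ) : pr (gi k) = 0 := by
  simp [pr, gi, coe_int_circle]

lemma pr_surj (x : Torus) : ∃ z, pr z = x := by
  obtain ⟨a, ha⟩ := QuotientAddGroup.mk_surjective x.1
  obtain ⟨b, hb⟩ := QuotientAddGroup.mk_surjective x.2
  exact ⟨⟨a, b⟩, Prod.ext ha hb⟩

lemma exists_gi_of_pr_eq {a b : ℂ} (h : pr a = pr b) : ∃ k, a = b + gi k := by
  have key : ∀ x y : ℝ, (x : UnitAddCircle) = y → ∃ n : ℤ, x = y + n := by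
    intro x y hxy
    have : ((x - y : ℝ) : UnitAddCircle) = 0 := by rw [AddCircle.coe_sub, hxy, sub_self]
    obtain ⟨n, hn⟩ := (AddCircle.coe_eq_zero_iff _).1 this
    exact ⟨n, by simp at hn; linarith⟩
  obtain ⟨n, hn⟩ := key _ _ (congrArg Prod.fst h)
  obtain ⟨m, hm⟩ := key _ _ (congrArg Prod.snd h)
  exact ⟨(n, m), Complex.ext (by simpa [gi] using hn) (by simpa [gi] using hm)⟩

lemma tdist_sq (x y : Torus) : tdist x y ^ 2 = dist x.1 y.1 ^ 2 + dist x.2 y.2 ^ 2 :=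
  Real.sq_sqrt (by positivity)

lemma tdist_nonneg (x y : Torus) : 0 ≤ tdist x y := Real.sqrt_nonneg _

lemma tdist_comm (x y : Torus) : tdist x y = tdist y x := by simp only [tdist, dist_comm]

lemma tdist_pr_le (a b : ℂ) : tdist (pr a) (pr b) ≤ ‖a - b‖ := by
  have key : ∀ x y : ℝ, dist (x : UnitAddCircle) (y : UnitAddCircle) ^ 2 ≤ (x - y) ^ 2 := by
    intro x y
    rw [dist_eq_norm, ← AddCircle.coe_sub, ← sq_abs (x - y)]
    gcongr
    exact QuotientAddGroup.norm_mk_le_norm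
  rw [← sq_le_sq₀ (tdist_nonneg _ _) (norm_nonneg _), tdist_sq, norm_sq_eq]
  exact add_le_add (key _ _) (key _ _)

lemma tdist_add_left (a x y : Torus) : tdist (a + x) (a + y) = tdist x y := by simp [tdist]

lemma tdist_tri (x y z : Torus) : tdist x z ^ 2 ≤ 2 * tdist x y ^ 2 + 2 * tdist y z ^ 2 := by
  have key : ∀ a b c : UnitAddCircle, dist a c ^ 2 ≤ 2 * dist a b ^ 2 + 2 * dist b c ^ 2 := by
    intro a b c
    have : dist a c ^ 2 ≤ (dist a b + dist b c) ^ 2 := by gcongr; exact dist_triangle a b c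
    nlinarith [sq_nonneg (dist a b - dist b c)]
  simp only [tdist_sq]
  linarith [key x.1 y.1 z.1, key x.2 y.2 z.2]

lemma tdist_sq_le (x y : Torus) : tdist x y ^ 2 ≤ 1 := by
  have key : ∀ a b : UnitAddCircle, dist a b ^ 2 ≤ 1 / 4 := by
    intro a b
    have := AddCircle.norm_le_half_period (1 : ℝ) (x := a - b) one_ne_zero
    rw [← dist_eq_norm] at this
    have h2 : dist a b ^ 2 ≤ (|(1 : ℝ)| / 2) ^ 2 := by gcongr
    norm_num at h2
    linarith
  rw [tdist_sq]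
  linarith [key x.1 y.1, key x.2 y.2]

lemma continuous_tdist {X : Type*} [TopologicalSpace X] {f g : X → Torus} (hf : Continuous f)
    (hg : Continuous g) : Continuous fun x => tdist (f x) (g x) := by
  unfold tdist
  fun_prop

lemma exists_densest {N : ℕ} {r : ℝ} {X : Fin N → Torus} (h : IsPacking r X) :
    ∃ (r' : ℝ) (Y : Fin N → Torus), IsDensest r' Y := by
  set K : Set (ℝ × (Fin N → Torus)) := (Icc r (1 / 2) ×ˢ univ) ∩
    ⋂ i, ⋂ j, ⋂ (_ : i ≠ j), {p | 2 * p.1 ≤ tdist (p.2 i) (p.2 j)} with hK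
  have hc : IsCompact K := by
    refine (isCompact_Icc.prod isCompact_univ).inter_right
      (isClosed_iInter fun i => isClosed_iInter fun j => isClosed_iInter fun _ => ?_)
    exact isClosed_le (by fun_prop) (continuous_tdist (by fun_prop) (by fun_prop))
  have hmem : ∀ r' (Y : Fin N → Torus), r ≤ r' → IsPacking r' Y → (r', Y) ∈ K := by
    intro r' Y h1 h2
    refine ⟨⟨⟨h1, h2.2.1⟩, mem_univ _⟩, ?_⟩
    simp only [mem_iInter]
    exact h2.2.2
  obtain ⟨⟨r', Y⟩, ⟨⟨h1, _⟩, h2⟩, h3⟩ := hc.exists_isMaxOn ⟨_, hmem r X le_rfl h⟩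
    continuous_fst.continuousOn
  simp only [mem_iInter] at h2
  refine ⟨r', Y, ⟨h.1.trans_le h1.1, h1.2, h2⟩, fun s Z hZ => ?_⟩
  rcases le_total s r with c | c
  · exact c.trans h1.1
  · exact h3 (hmem s Z c hZ)

lemma good_of_bounds {N : ℕ} (hN : 10 ≤ N) {L ε : ℝ} (hL : 0 < L) (hε : ε ≤ 1 / 100)
    (h1 : kap * N ≤ L ^ 2) (h2 : L ^ 2 * (2 / √3 - 2 / (3 * N)) < N) {w1 w2 : ℤ × ℤ}
    (hd : |w1.1 * w2.2 - w1.2 * w2.1| = N)
    (hw : ∀ w ∈ [w1, w2, -w1 - w2],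
      1 - ε / N ≤ (L / N) ^ 2 * ‖gi w‖ ^ 2 ∧ L / N * ‖gi w‖ ≤ 1.01) : Good N w1 w2 := by
  have hN' : (10 : ℝ) ≤ N := by exact_mod_cast hN
  set m := (N / L) ^ 2 with hm
  have hm0 : 0 < m := by positivity
  have s1 := sqrt3_gt
  have s3 := sqrt3_sq
  have hm1 : m ≤ 1.16 * N := by
    rw [hm, div_pow, div_le_iff₀ (by positivity)]
    nlinarith [kap_gt, mul_le_mul_of_nonneg_left h1 (show (0 : ℝ) ≤ 1.16 * N by positivity)]
  have hm2 : 2 * N < √3 * (m + 2 / 3) := by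
    have e1 : L ^ 2 * (2 / √3 - 2 / (3 * N)) * (√3 * N / L ^ 2) = 2 * N - √3 * (2 / 3) := by
      field_simp
    have e2 : N * (√3 * N / L ^ 2) = √3 * m := by rw [hm]; field_simp
    have := mul_lt_mul_of_pos_right h2 (show 0 < √3 * N / L ^ 2 by positivity)
    rw [e1, e2] at this
    linarith
  have hb : ∀ w ∈ [w1, w2, -w1 - w2], m - 0.0116 ≤ (nq w : ℝ) ∧ 0.999 * m ≤ (nq w : ℝ) ∧
      (nq w : ℝ) ≤ 1.0201 * m := by
    intro w hw'
    obtain ⟨a1, a2⟩ := hw w hw'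
    have a3 : (L / N * ‖gi w‖) ^ 2 ≤ 1.01 ^ 2 := by gcongr
    rw [mul_pow, norm_gi_sq] at a3
    rw [norm_gi_sq] at a1
    have e : m * (L / N) ^ 2 = 1 := by rw [hm]; field_simp
    have a4 := mul_le_mul_of_nonneg_left a1 hm0.le
    have a5 := mul_le_mul_of_nonneg_left a3 hm0.le
    rw [← mul_assoc, e, one_mul] at a4 a5
    have a6 : ε / N ≤ 1 / 100 / N := by gcongr
    have a7 : m * (1 / 100 / N) ≤ 0.0116 := by
      rw [← mul_div_assoc, div_le_iff₀ (by positivity)]; linarith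
    have a8 : 1 / 100 / (N : ℝ) ≤ 0.001 := by rw [div_le_iff₀ (by positivity)]; linarith
    have a9 := mul_le_mul_of_nonneg_left a6 hm0.le
    have a10 := mul_le_mul_of_nonneg_left a8 hm0.le
    refine ⟨by linarith, by linarith, by linarith⟩
  refine ⟨hd, fun w hw' => ?_, fun w hw' w' hw'' => ?_⟩
  · have a1 := (hb w hw').1
    have a2 : 2 * N ≤ √3 * ((nq w : ℝ) + 0.68) := hm2.le.trans (mul_le_mul_of_nonneg_left (by linarith) (by positivity))
    have a3 : (2 * N) ^ 2 ≤ (√3 * ((nq w : ℝ) + 0.68)) ^ 2 := by gcongr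
    have a4 : (√3 * ((nq w : ℝ) + 0.68)) ^ 2 = 3 * ((nq w : ℝ) + 0.68) ^ 2 := by
      linear_combination ((nq w : ℝ) + 0.68) ^ 2 * s3
    have a5 : 2 ≤ (nq w : ℝ) := by nlinarith [sqrt3_lt]
    have a6 : 4 * (N : ℝ) ^ 2 ≤ 3 * (nq w : ℝ) ^ 2 + 5 * nq w := by nlinarith
    exact_mod_cast a6
  · have : 20 * (nq w : ℝ) ≤ 21 * nq w' := by linarith [(hb w hw').2.2, (hb w' hw'').2.1]
    exact_mod_cast this

theorem torus_structure {ε : ℝ} (hε : 0 < ε) : ∃ N0 : ℕ, 10 ≤ N0 ∧ ∀ N ≥ N0, ∀ (r : ℝ)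
    (X : Fin N → Torus), IsPacking r X → π / (2 * √3) - N * π * r ^ 2 < π / (6 * N) →
    ∃ (w1 w2 : ℤ × ℤ) (t : ℂ) (lab : Fin N → ℤ × ℤ), Good N w1 w2 ∧
      ∑ i, tdist (X i) (pr t + pr (lp N w1 w2 (lab i))) ^ 2 ≤ ε ∧
      (∀ v, ∃ i, pr (lp N w1 w2 v) = pr (lp N w1 w2 (lab i))) ∧
      Function.Injective fun i => pr (lp N w1 w2 (lab i)) := by
  set η := min ε (1 / 100) with hη
  obtain ⟨L0, hL0⟩ := structure_thm (show 0 < η from lt_min hε (by norm_num))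
  obtain ⟨N1, hN1⟩ := exists_nat_ge (2 * L0 ^ 2)
  refine ⟨max 10 N1, le_max_left _ _, fun N hN r X ⟨hr0, hr1, hX⟩ hgap => ?_⟩
  have hN10 : 10 ≤ N := (le_max_left _ _).trans hN
  have hN' : (10 : ℝ) ≤ N := by exact_mod_cast hN10
  have hN2 : (N1 : ℝ) ≤ N := by exact_mod_cast (le_max_right _ _).trans hN
  choose x hx using fun i => pr_surj (X i)
  set L := 1 / (2 * r) with hLdef
  have hL : 0 < L := by positivity
  have hL1 : 1 ≤ L := by rw [hLdef, le_div_iff₀ (by positivity)]; linarith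
  have hLr : L * (2 * r) = 1 := by rw [hLdef]; field_simp
  set z : Fin N → ℂ := fun i => L * x i with hz
  have hfar : ∀ i j k l, i ≠ j → 1 ≤ ‖z i + per L k - (z j + per L l)‖ := by
    intro i j k l hij
    have e : z i + per L k - (z j + per L l) = L * ((x i + gi k) - (x j + gi l)) := by
      simp only [hz, per_eq]; ring
    have h1 := tdist_pr_le (x i + gi k) (x j + gi l)
    rw [pr_add, pr_add, pr_gi, pr_gi, add_zero, add_zero, hx, hx] at h1
    rw [e, norm_mul, Complex.norm_real, Real.norm_eq_abs, abs_of_pos hL, ← hLr]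
    gcongr
    exact (hX i j hij).trans h1
  have hP : Sep (PP z L) := by
    rintro _ ⟨i, k, rfl⟩ _ ⟨j, l, rfl⟩ hne
    by_cases hij : i = j
    · subst hij
      have hkl : k - l ≠ 0 := fun h => hne (by rw [sub_eq_zero.1 h])
      have e : z i + per L k - (z i + per L l) = L * gi (k - l) := by simp [per_eq, gi]; ring
      have h1 : 1 ≤ ‖gi (k - l)‖ := by
        rw [← sq_le_sq₀ zero_le_one (norm_nonneg _), norm_gi_sq]
        have : 1 ≤ nq (k - l) := by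
          by_contra h
          unfold nq at h
          exact hkl (Prod.ext (by nlinarith [sq_nonneg (k - l).1, sq_nonneg (k - l).2] :
            (k - l).1 = 0) (by nlinarith [sq_nonneg (k - l).1, sq_nonneg (k - l).2] : (k - l).2 = 0))
        exact_mod_cast this
      rw [e, norm_mul, Complex.norm_real, Real.norm_eq_abs, abs_of_pos hL]
      nlinarith
    · exact hfar i j k l hij
  have hzz : ∀ i j k l, z i + per L k = z j + per L l → i = j := by
    intro i j k l h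
    by_contra hij
    have := hfar i j k l hij
    rw [h, sub_self, norm_zero] at this
    linarith
  have hth : kap * N ≤ L ^ 2 := by
    have h1 := sum_exc_per hL hP hzz
    have h2 : 0 ≤ ∑ i, exc (PP z L) (z i) :=
      Finset.sum_nonneg fun i _ => exc_nonneg hP (mem_PP _ _ _)
    linarith
  have s1 := sqrt3_gt
  have h2 : L ^ 2 * (2 / √3 - 2 / (3 * N)) < N := by
    have e1 : (π / (2 * √3) - N * π * r ^ 2) * (4 * L ^ 2 / π) = L ^ 2 * (2 / √3) - N := by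
      rw [hLdef]; field_simp; ring
    have e2 : π / (6 * N) * (4 * L ^ 2 / π) = L ^ 2 * (2 / (3 * N)) := by field_simp; ring
    have := mul_lt_mul_of_pos_right hgap (show 0 < 4 * L ^ 2 / π by positivity)
    rw [e1, e2] at this
    linarith
  have hE : L ^ 2 - kap * N ≤ 3 / 5 := by
    have e1 : L ^ 2 * (2 / √3 - 2 / (3 * N)) * (√3 * kap * N) = L ^ 2 * (√3 * N - 1) := by
      unfold kap
      field_simp
      linear_combination (-1 : ℝ) * sqrt3_sq
    have := mul_lt_mul_of_pos_right h2 (show 0 < √3 * kap * N by have := kap_pos; positivity)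
    rw [e1] at this
    by_contra hc
    push Not at hc
    have h3 : 0 < √3 * N - 1 := by nlinarith
    have h4 := mul_lt_mul_of_pos_right (show kap * N + 3 / 5 < L ^ 2 by linarith) h3
    have h5 : kap * N ≤ √3 / 2 * N := le_rfl
    nlinarith
  have hLL : L0 ≤ L := by
    by_contra hc
    push Not at hc
    have : L ^ 2 < L0 ^ 2 := by gcongr
    nlinarith [kap_gt]
  obtain ⟨w1, w2, t, lab, a1, a2, a3, a4, a5⟩ := hL0 N z L hLL hL hP hzz hE
  refine ⟨w1, w2, t / L, lab, good_of_bounds hN10 hL (min_le_right _ _) hth h2 a1 a2, ?_,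
    fun v => ?_, fun i j hij => ?_⟩
  · have hLc : (L : ℂ) ≠ 0 := by exact_mod_cast hL.ne'
    have h3 : ∀ i, tdist (X i) (pr (t / L) + pr (lp N w1 w2 (lab i))) ^ 2 ≤
        ‖z i - t - L * lp N w1 w2 (lab i)‖ ^ 2 / L ^ 2 := by
      intro i
      have e : x i - (t / L + lp N w1 w2 (lab i)) = (z i - t - L * lp N w1 w2 (lab i)) / L := by
        simp only [hz]; field_simp; ring
      have := tdist_pr_le (x i) (t / L + lp N w1 w2 (lab i))
      rw [hx, pr_add, e, norm_div, Complex.norm_real, Real.norm_eq_abs, abs_of_pos hL] at this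
      rw [← div_pow]
      gcongr
      exact tdist_nonneg _ _
    refine (Finset.sum_le_sum fun i _ => h3 i).trans ?_
    rw [← Finset.sum_div, div_le_iff₀ (by positivity)]
    exact a3.trans (by gcongr; exact min_le_left _ _)
  · obtain ⟨i, k, hk⟩ := a4 v
    exact ⟨i, by rw [hk, pr_add, pr_gi, add_zero]⟩
  · obtain ⟨k, hk⟩ := exists_gi_of_pr_eq hij
    exact a5 i j k hk

/-- f induces an isometry of the torus -/
def Desc (f : ℂ → ℂ) : Prop :=
  ∃ F : Torus → Torus, (∀ x y, tdist (F x) (F y) = tdist x y) ∧ ∀ z, F (pr z) = pr (f z)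

lemma desc_pow (k : ℕ) {f : ℂ → ℂ} (h : Desc f) : Desc fun z => Complex.I ^ k * f z := by
  induction k with
  | zero => simpa using h
  | succ k ih =>
    obtain ⟨F, h1, h2⟩ := ih
    refine ⟨fun x => (-(F x).2, (F x).1), fun x y => ?_, fun z => ?_⟩
    · rw [← h1 x y]; simp [tdist, add_comm]
    · simp only [h2, pow_succ', mul_assoc]
      simp [pr]

lemma desc_id : Desc fun z => z := ⟨id, fun _ _ => rfl, fun _ => rfl⟩

lemma desc_conj : Desc fun z => (starRingEnd ℂ) z :=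
  ⟨fun x => (x.1, -x.2), fun x y => by simp [tdist], fun z => by simp [pr]⟩

lemma gap_of_markov {N : ℕ} (hN : 0 < N) {r : ℝ} (h : 3 < markov N r) :
    π / (2 * √3) - N * π * r ^ 2 < π / (6 * N) := by
  have hN' : (0 : ℝ) < N := by exact_mod_cast hN
  have hp := pi_pos
  unfold markov at h
  set g := π / (2 * √3) - N * π * r ^ 2
  by_cases hg : g ≤ 0
  · exact hg.trans_lt (by positivity)
  push Not at hg
  rw [lt_div_iff₀ (by positivity)] at h
  rw [lt_div_iff₀ (by positivity)]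
  linarith

theorem close_to_densest {ε : ℝ} (hε : 0 < ε) : ∃ N0 : ℕ, ∀ N ≥ N0, ∀ (r : ℝ) (X : Fin N → Torus),
    IsPacking r X → 3 < markov N r → ∃ (r' : ℝ) (Y : Fin N → Torus) (σ : Equiv.Perm (Fin N)),
      IsDensest r' Y ∧ cdist X (Y ∘ σ) ≤ ε := by
  obtain ⟨N0, hN0, H⟩ := torus_structure (show 0 < ε ^ 2 / 4 by positivity)
  refine ⟨N0, fun N hN r X hX hM => ?_⟩
  have hgap := gap_of_markov (by omega) hM
  obtain ⟨r', Y, hY⟩ := exists_densest hX
  have hrr : r ≤ r' := hY.2 r X hX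
  obtain ⟨w1, w2, t, lab, g, a1, a2, _⟩ := H N hN r X hX hgap
  obtain ⟨w1', w2', t', lab', g', b1, _, b3⟩ := H N hN r' Y hY.1 (lt_of_le_of_lt (by
    have := hX.1
    have := pi_pos
    gcongr) hgap)
  obtain ⟨f, ⟨F, hF1, hF2⟩, hf⟩ : ∃ f, Desc f ∧ ∀ v', ∃ v, f (lp N w1' w2' v') = lp N w1 w2 v := by
    obtain ⟨k, h | h⟩ := lattice_unique (hN0.trans hN) g g'
    · exact ⟨_, desc_pow k desc_id, h⟩
    · exact ⟨_, desc_pow k desc_conj, h⟩
  have hτ : ∀ j, ∃ i, F (pr (lp N w1' w2' (lab' j))) = pr (lp N w1 w2 (lab i)) := by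
    intro j
    obtain ⟨v, hv⟩ := hf (lab' j)
    obtain ⟨i, hi⟩ := a2 v
    exact ⟨i, by rw [hF2, hv, hi]⟩
  choose τ hτ using hτ
  have hτinj : Function.Injective τ := by
    intro i j hij
    apply b3
    have h1 := hF1 (pr (lp N w1' w2' (lab' i))) (pr (lp N w1' w2' (lab' j)))
    rw [hτ, hτ, hij] at h1
    have h2 := tdist_sq (pr (lp N w1' w2' (lab' i))) (pr (lp N w1' w2' (lab' j)))
    rw [← h1, tdist_sq, dist_self, dist_self] at h2
    refine Prod.ext (dist_eq_zero.1 ?_) (dist_eq_zero.1 ?_) <;>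
      nlinarith [sq_nonneg (dist (pr (lp N w1' w2' (lab' i))).1 (pr (lp N w1' w2' (lab' j))).1),
        sq_nonneg (dist (pr (lp N w1' w2' (lab' i))).2 (pr (lp N w1' w2' (lab' j))).2)]
  set e := Equiv.ofBijective τ (Finite.injective_iff_bijective.1 hτinj) with he
  refine ⟨r', fun j => pr t + F (-pr t' + Y j), e.symm, ⟨⟨hY.1.1, hY.1.2.1, fun i j hij => ?_⟩,
    hY.2⟩, ?_⟩
  · rw [tdist_add_left, hF1, tdist_add_left]; exact hY.1.2.2 i j hij
  · rw [cdist, Real.sqrt_le_iff]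
    refine ⟨hε.le, ?_⟩
    have h1 : ∀ i, tdist (X i) (pr t + F (-pr t' + Y (e.symm i))) ^ 2 ≤
        2 * tdist (X i) (pr t + pr (lp N w1 w2 (lab i))) ^ 2 +
        2 * tdist (Y (e.symm i)) (pr t' + pr (lp N w1' w2' (lab' (e.symm i)))) ^ 2 := by
      intro i
      refine (tdist_tri _ (pr t + pr (lp N w1 w2 (lab i))) _).trans (le_of_eq ?_)
      have h2 := hτ (e.symm i)
      rw [show τ (e.symm i) = i from e.apply_symm_apply i] at h2
      rw [tdist_add_left, ← h2, hF1, ← tdist_add_left (pr t') (pr _), add_neg_cancel_left,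
        tdist_comm _ (Y _)]
    refine (Finset.sum_le_sum fun i _ => h1 i).trans ?_
    rw [Finset.sum_add_distrib, ← Finset.mul_sum, ← Finset.mul_sum,
      e.symm.sum_comp fun j => tdist (Y j) (pr t' + pr (lp N w1' w2' (lab' j))) ^ 2]
    linarith

end Pool.Agent.MP_2616de_co

end MrgPart2

-- marker of a merged file
example : 731051 + 812818 = 731051 + 812818 := rfl
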